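import Pool.Agent.W_7d29a1_UC.FinE43

/-!
The random fluctuation is comparable with its running maximum when the nonrandom one does not
dominate: the power law at all times.
-/

namespace Pool.Agent.W_7d29a1_UC

open MeasureTheory ProbabilityTheory Filter Topology Pool.Agent.W_MP_7d29a1_pr
  Pool.Agent.W_7d29a1_h46 Pool.Agent.W_7d29a1_h46u Pool.Agent.W_7d29a1_D2.B35
  Pool.Agent.W_7d29a1_Q29 Pool.Agent.W_7d29a1_R34 Pool.Agent.W_7d29a1_SP
  Pool.Agent.W_7d29a1_SP.C79

variable {d : ℕ} {ρ : Measure ℝ} {β : ℝ}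

/-- SPR: the upper fluctuations at every multiple of the first absolute moment. -/
def SprP (d : ℕ) (ρ : Measure ℝ) (β : ℝ) : Prop := ∀ Λ : ℝ, 1 ≤ Λ → ∃ c : ℝ, 0 < c ∧
  ∀ (h : Vec d) (m : ℕ), c * Fn ρ β h m ≤
    ∫ η, (if A ρ β h m + Λ * Fn ρ β h m ≤ X β h η m then X β h η m - A ρ β h m else 0) ∂(law d ρ)

/-- The theorem at all times. -/
def MainD (d : ℕ) (ρ : Measure ℝ) (β : ℝ) : Prop := ∀ h : Vec d, VSD ρ β h → ∀ C : ℝ,
  ∃ θ : ℝ, 0 < θ ∧ ((∃ᶠ n : ℕ in atTop, ∀ m : ℕ, m ≤ n → C * Fn ρ β h m ≤ En ρ β h n) ∨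
    ∀ᶠ n : ℕ in atTop, (n : ℝ) ^ θ ≤ Fn ρ β h n)

variable [IsProbabilityMeasure ρ]

/-- The truncated gain is integrable. -/
lemma gint43 (hd : 0 < d) (hρ : EM ρ) (β : ℝ) (h : Vec d) (m : ℕ) (a : ℝ) :
    Integrable (fun η => if a ≤ X β h η m then X β h η m - A ρ β h m else 0) (law d ρ) := by
  have hX : Integrable (fun η => X β h η m) (law d ρ) := (concU hd hρ β h m).1
  have hY : Integrable (fun η => X β h η m - A ρ β h m) (law d ρ) :=
    hX.sub (integrable_const _)
  have hms : MeasurableSet {η : Env d | a ≤ X β h η m} :=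
    measurableSet_le measurable_const (measurable_X β h m)
  refine (hY.indicator hms).congr (Eventually.of_forall fun η => ?_)
  simp only [Set.indicator, Set.mem_ofPred_eq]

/-- SPR over AMP and MED. -/
theorem spr43 (hd : 0 < d) (hρ : EM ρ) (h3 : AmpP d ρ β) (h4 : MedP d ρ β) : SprP d ρ β := by
  intro Λ hΛ
  obtain ⟨C3, c3, hC3, hc3, k3⟩ := h3 (16 * Λ) (by linarith)
  obtain ⟨qm, hqm, k4⟩ := h4
  obtain ⟨q, hqd⟩ : ∃ q : ℝ, q = min (1 / (8 * Λ)) qm := ⟨_, rfl⟩
  have hq : 0 < q := by rw [hqd]; exact lt_min (by positivity) hqm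
  obtain ⟨q', hq'd⟩ : ∃ q' : ℝ, q' = c3 * q ^ C3 := ⟨_, rfl⟩
  have hq' : 0 < q' := by rw [hq'd]; exact mul_pos hc3 (Real.rpow_pos_of_pos hq _)
  refine ⟨min (1 / 4) (Λ * q'), lt_min (by norm_num) (by positivity), fun h m => ?_⟩
  obtain ⟨F, hF⟩ : ∃ F : ℝ, F = Fn ρ β h m := ⟨_, rfl⟩
  have hF0 : 0 ≤ F := by rw [hF]; exact Fn_nonneg43 ρ β h m
  have h6 := gain43 hd hρ β h m
  rw [← hF] at h6 ⊢
  have i1 := gint43 hd hρ β h m (A ρ β h m + Λ * F)
  have i2 := gint43 hd hρ β h m (A ρ β h m + F / 8)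
  rcases hF0.eq_or_lt with hz | hFp
  · rw [← hz, mul_zero]
    refine integral_nonneg fun η => ?_
    dsimp only
    split_ifs with hc
    · have h9 : (0 : ℝ) ≤ X β h η m - A ρ β h m := by linarith
      exact h9
    · exact le_rfl
  by_cases hcase : (law d ρ).real {η | A ρ β h m + F / 8 ≤ X β h η m} ≤ 1 / (8 * Λ)
  · have hms : MeasurableSet {η : Env d | A ρ β h m + F / 8 ≤ X β h η m} :=
      measurableSet_le measurable_const (measurable_X β h m)
    have hpt : ∀ η : Env d,
        (if A ρ β h m + F / 8 ≤ X β h η m then X β h η m - A ρ β h m else 0) ≤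
        (if A ρ β h m + Λ * F ≤ X β h η m then X β h η m - A ρ β h m else 0) +
          ({η : Env d | A ρ β h m + F / 8 ≤ X β h η m}.indicator (fun _ => Λ * F)) η := by
      intro η
      by_cases hc : A ρ β h m + F / 8 ≤ X β h η m
      · rw [if_pos hc, Set.indicator_of_mem (show η ∈ {η : Env d | A ρ β h m + F / 8 ≤ X β h η m}
          from hc)]
        split_ifs with hc2
        · have : 0 ≤ Λ * F := by positivity
          linarith
        · push Not at hc2
          linarith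
      · rw [if_neg hc, Set.indicator_of_notMem
          (show η ∉ {η : Env d | A ρ β h m + F / 8 ≤ X β h η m} from hc)]
        split_ifs with hc2
        · have : 0 ≤ Λ * F := by positivity
          linarith
        · linarith
    have i3 : Integrable ({η : Env d | A ρ β h m + F / 8 ≤ X β h η m}.indicator
        (fun _ => Λ * F)) (law d ρ) := (integrable_const _).indicator hms
    have h7 := integral_mono i2 (i1.add i3) hpt
    simp only [Pi.add_apply] at h7
    rw [integral_add i1 i3, integral_indicator_const _ hms, smul_eq_mul] at h7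
    have h8 : (law d ρ).real {η | A ρ β h m + F / 8 ≤ X β h η m} * (Λ * F) ≤
        1 / (8 * Λ) * (Λ * F) := mul_le_mul_of_nonneg_right hcase (by positivity)
    have h9 : 1 / (8 * Λ) * (Λ * F) = F / 8 := by
      field_simp
    have h10 : min (1 / 4) (Λ * q') * F ≤ 1 / 4 * F :=
      mul_le_mul_of_nonneg_right (min_le_left _ _) hF0
    linarith
  · push Not at hcase
    have h5 : q ≤ (law d ρ).real {η | A ρ β h m + F / 16 < X β h η m} := by
      have h6 : q ≤ 1 / (8 * Λ) := by rw [hqd]; exact min_le_left _ _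
      refine h6.trans (hcase.le.trans (measureReal_mono fun η hη => ?_))
      have hη' : A ρ β h m + F / 8 ≤ X β h η m := hη
      change A ρ β h m + F / 16 < X β h η m
      linarith
    have h6 : q ≤ (law d ρ).real {η | X β h η m ≤ A ρ β h m} := by
      have h7 : q ≤ qm := by rw [hqd]; exact min_le_right _ _
      exact h7.trans (k4 h m)
    have h7 := k3 h m (A ρ β h m) (A ρ β h m + F / 16) q hq (by linarith) h6 h5
    rw [← hq'd] at h7
    have h8 : q' ≤ (law d ρ).real {η | A ρ β h m + Λ * F ≤ X β h η m} := by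
      refine h7.trans (measureReal_mono fun η hη => ?_)
      have hη' : A ρ β h m + F / 16 + 16 * Λ * (A ρ β h m + F / 16 - A ρ β h m) < X β h η m := hη
      change A ρ β h m + Λ * F ≤ X β h η m
      have : A ρ β h m + F / 16 - A ρ β h m = F / 16 := by ring
      rw [this] at hη'
      linarith
    have hms : MeasurableSet {η : Env d | A ρ β h m + Λ * F ≤ X β h η m} :=
      measurableSet_le measurable_const (measurable_X β h m)
    have i3 : Integrable ({η : Env d | A ρ β h m + Λ * F ≤ X β h η m}.indicator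
        (fun _ => Λ * F)) (law d ρ) := (integrable_const _).indicator hms
    have hpt : ∀ η : Env d,
        ({η : Env d | A ρ β h m + Λ * F ≤ X β h η m}.indicator (fun _ => Λ * F)) η ≤
        (if A ρ β h m + Λ * F ≤ X β h η m then X β h η m - A ρ β h m else 0) := by
      intro η
      by_cases hc : A ρ β h m + Λ * F ≤ X β h η m
      · rw [if_pos hc, Set.indicator_of_mem
          (show η ∈ {η : Env d | A ρ β h m + Λ * F ≤ X β h η m} from hc)]
        linarith
      · rw [if_neg hc, Set.indicator_of_notMem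
          (show η ∉ {η : Env d | A ρ β h m + Λ * F ≤ X β h η m} from hc)]
    have h9 := integral_mono i3 i1 hpt
    rw [integral_indicator_const _ hms, smul_eq_mul] at h9
    have h10 : min (1 / 4) (Λ * q') * F ≤ Λ * q' * F :=
      mul_le_mul_of_nonneg_right (min_le_right _ _) hF0
    have h11 : q' * (Λ * F) ≤ (law d ρ).real {η | A ρ β h m + Λ * F ≤ X β h η m} * (Λ * F) :=
      mul_le_mul_of_nonneg_right h8 (by positivity)
    linarith

/-- The random fluctuation at a later time. -/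
lemma later43 (hd : 0 < d) (hρ : EM ρ) (β : ℝ) (h : Vec d) (m k : ℕ) (x G : ℝ)
    (hG : A ρ β h (m + k) - A ρ β h m - A ρ β h k ≤ G) (hx : 2 * G ≤ x) :
    1 / 2 * ∫ η, (if A ρ β h m + x ≤ X β h η m then X β h η m - A ρ β h m else 0) ∂(law d ρ) ≤
      Fn ρ β h (m + k) := by
  obtain ⟨B, hB⟩ : ∃ B : Set (Env d), B = {η : Env d | A ρ β h m + x ≤ X β h η m} := ⟨_, rfl⟩
  have hms : MeasurableSet B := by
    rw [hB]
    exact measurableSet_le measurable_const (measurable_X β h m)
  have hdep : DependsOn (fun η => η ∈ B) (Pa d m) := by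
    intro η η' hη
    have h1 : Z β h η m = Z β h η' m := S98.Z_dep β h m hη
    rw [hB]
    show (A ρ β h m + x ≤ X β h η m) = (A ρ β h m + x ≤ X β h η' m)
    unfold X
    rw [h1]
  have hX : ∀ k, Integrable (fun η => X β h η k) (law d ρ) := fun k => (concU hd hρ β h k).1
  have h1 := jen79 (ρ := ρ) hd hρ β h m k hms hdep
  have h2 : ∫ η, one B η * (X β h η (m + k) - A ρ β h (m + k)) ∂(law d ρ) =
      (∫ η, one B η * X β h η (m + k) ∂(law d ρ)) - A ρ β h (m + k) * (law d ρ).real B := by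
    have i1 := mul_int (ρ := ρ) hms (hX (m + k))
    have i2 := (one_int (ρ := ρ) hms).const_mul (A ρ β h (m + k))
    rw [← one_I hms, ← integral_const_mul, ← integral_sub i1 i2]
    refine integral_congr_ae (Eventually.of_forall fun η => ?_)
    simp only
    ring
  have h3 : ∫ η, one B η * (X β h η m - A ρ β h m) ∂(law d ρ) =
      (∫ η, one B η * X β h η m ∂(law d ρ)) - A ρ β h m * (law d ρ).real B := by
    have i1 := mul_int (ρ := ρ) hms (hX m)
    have i2 := (one_int (ρ := ρ) hms).const_mul (A ρ β h m)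
    rw [← one_I hms, ← integral_const_mul, ← integral_sub i1 i2]
    refine integral_congr_ae (Eventually.of_forall fun η => ?_)
    simp only
    ring
  have h4 : ∫ η, one B η * (X β h η m - A ρ β h m) ∂(law d ρ) =
      ∫ η, (if A ρ β h m + x ≤ X β h η m then X β h η m - A ρ β h m else 0) ∂(law d ρ) := by
    refine integral_congr_ae (Eventually.of_forall fun η => ?_)
    by_cases hc : A ρ β h m + x ≤ X β h η m
    · have hη : η ∈ B := by rw [hB]; exact hc
      simp only [one_of hη, if_pos hc, one_mul]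
    · have hη : η ∉ B := by rw [hB]; exact hc
      simp only [one_not hη, if_neg hc, zero_mul]
  have h5 : x * (law d ρ).real B ≤ ∫ η, one B η * (X β h η m - A ρ β h m) ∂(law d ρ) := by
    rw [← one_I hms, ← integral_const_mul]
    refine integral_mono ((one_int (ρ := ρ) hms).const_mul x)
      (mul_int (ρ := ρ) hms ((hX m).sub (integrable_const _))) fun η => ?_
    by_cases hη : η ∈ B
    · have hc : A ρ β h m + x ≤ X β h η m := by rw [hB] at hη; exact hη
      simp only [one_of hη, one_mul, mul_one]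
      linarith
    · simp only [one_not hη, zero_mul, mul_zero]
      exact le_rfl
  have h6 : ∫ η, one B η * (X β h η (m + k) - A ρ β h (m + k)) ∂(law d ρ) ≤
      Fn ρ β h (m + k) := by
    have i1 := mul_int (ρ := ρ) hms ((hX (m + k)).sub (integrable_const (A ρ β h (m + k))))
    refine integral_mono i1 ((hX (m + k)).sub (integrable_const _)).abs fun η => ?_
    have h7 := le_abs_self (X β h η (m + k) - A ρ β h (m + k))
    have h8 := abs_nonneg (X β h η (m + k) - A ρ β h (m + k))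
    by_cases hη : η ∈ B
    · simp only [one_of hη, one_mul]
      exact h7
    · simp only [one_not hη, zero_mul]
      exact h8
  have h9 : (0 : ℝ) ≤ (law d ρ).real B := measureReal_nonneg
  have h10 := mul_le_mul_of_nonneg_right hG h9
  have h11 := mul_le_mul_of_nonneg_right hx h9
  rw [← h4]
  rw [h2] at h6
  linarith [h3]

/-- MAIN at all times. -/
theorem mainAll43 (hd : 0 < d) (hρ : EM ρ) (hM : MainC d ρ β) (hS : SprP d ρ β)
    (hI : InfP d ρ β) : MainD d ρ β := by
  classical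
  intro h hV C0
  obtain ⟨θ, hθ, hor⟩ := hM h hV C0
  refine ⟨θ / 2, by linarith, ?_⟩
  by_cases hA : ∃ᶠ n : ℕ in atTop, ∀ m : ℕ, m ≤ n → C0 * Fn ρ β h m ≤ En ρ β h n
  · exact Or.inl hA
  right
  have hpow := hor.resolve_left hA
  rw [not_frequently] at hA
  obtain ⟨C, hCd⟩ : ∃ C : ℝ, C = max C0 1 := ⟨_, rfl⟩
  have hC1 : 1 ≤ C := by rw [hCd]; exact le_max_right _ _
  have hC0 : C0 ≤ C := by rw [hCd]; exact le_max_left _ _
  obtain ⟨n0, hn0⟩ := eventually_atTop.1 hA
  obtain ⟨B, hB⟩ : ∃ B : ℝ, ∀ k, k < n0 → En ρ β h k ≤ B := by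
    refine ⟨∑ k ∈ Finset.range n0, |En ρ β h k|, fun k hk => ?_⟩
    exact (le_abs_self _).trans (Finset.single_le_sum (f := fun k => |En ρ β h k|)
      (fun i _ => abs_nonneg _) (Finset.mem_range.2 hk))
  obtain ⟨c, hc, hspr⟩ := hS (4 * C) (by linarith)
  have hFinf := hI h hV
  have hpw : Tendsto (fun n : ℕ => (n : ℝ) ^ (θ / 2)) atTop atTop :=
    (tendsto_rpow_atTop (by linarith)).comp tendsto_natCast_atTop_atTop
  filter_upwards [hpow, eventually_ge_atTop 1, hFinf.eventually_ge_atTop B,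
    hpw.eventually_ge_atTop (2 / c)] with n hn hn1 hnB hnc
  -- the maximal value
  obtain ⟨m, hm, hmax⟩ := Finset.exists_max_image (Finset.range (n + 1))
    (fun k => Fn ρ β h k) ⟨0, Finset.mem_range.2 (Nat.succ_pos n)⟩
  have hmn : m ≤ n := Nat.lt_succ_iff.1 (Finset.mem_range.1 hm)
  have hmax' : ∀ k, k ≤ n → Fn ρ β h k ≤ Fn ρ β h m := fun k hk =>
    hmax k (Finset.mem_range.2 (Nat.lt_succ_of_le hk))
  have hF0 : 0 ≤ Fn ρ β h m := Fn_nonneg43 ρ β h m
  have hE : ∀ k, k ≤ n → En ρ β h k ≤ C * Fn ρ β h m := by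
    intro k hk
    rcases lt_or_ge k n0 with h12 | h12
    · have h13 := hB k h12
      have h14 := hmax' n le_rfl
      nlinarith
    · have h7 := hn0 k h12
      push Not at h7
      obtain ⟨j, hj, hj2⟩ := h7
      have h8 : C0 * Fn ρ β h j ≤ C * Fn ρ β h j :=
        mul_le_mul_of_nonneg_right hC0 (Fn_nonneg43 ρ β h j)
      have h9 : C * Fn ρ β h j ≤ C * Fn ρ β h m :=
        mul_le_mul_of_nonneg_left (hmax' j (hj.trans hk)) (by linarith)
      linarith
  obtain ⟨k, hk⟩ : ∃ k, n = m + k := ⟨n - m, by omega⟩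
  have hG : A ρ β h (m + k) - A ρ β h m - A ρ β h k ≤ 2 * (C * Fn ρ β h m) := by
    have e1 := hE m hmn
    have e2 := hE k (by omega)
    have e3 := A_le_lam hd hρ β h (m + k)
    unfold En at e1 e2
    push_cast at e3
    linarith
  have h1 := later43 hd hρ β h m k (4 * C * Fn ρ β h m) (2 * (C * Fn ρ β h m)) hG (by linarith)
  have h2 := hspr h m
  rw [← hk] at h1
  obtain ⟨j, hj, hj2⟩ := hn
  have h3 := hmax' j hj
  have hn0' : (0 : ℝ) < n := by exact_mod_cast hn1
  have h4 : (n : ℝ) ^ θ = (n : ℝ) ^ (θ / 2) * (n : ℝ) ^ (θ / 2) := by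
    rw [← Real.rpow_add hn0']
    congr 1
    ring
  have h5 : 0 ≤ (n : ℝ) ^ (θ / 2) := by positivity
  have h6 : (n : ℝ) ^ (θ / 2) ≤ c / 2 * (n : ℝ) ^ θ := by
    rw [h4]
    have h7 : 1 ≤ c / 2 * (n : ℝ) ^ (θ / 2) := by
      have := mul_le_mul_of_nonneg_left hnc (by positivity : 0 ≤ c / 2)
      have e : c / 2 * (2 / c) = 1 := by field_simp
      linarith
    nlinarith
  have h8 : c / 2 * (n : ℝ) ^ θ ≤ c / 2 * Fn ρ β h m :=
    mul_le_mul_of_nonneg_left (hj2.trans h3) (by positivity)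
  linarith

/-- **THEOREM UC at all times** for the laws of the convex functions of a Gaussian variable. -/
theorem mainD43 (hd : 0 < d) (hρ : EM ρ) (hG : GC ρ) (hnc : ∀ c : ℝ, ρ {c} ≠ 1) (hβ : 0 < β) :
    MainD d ρ β :=
  mainAll43 hd hρ (mainC43 hd hρ hG hnc hβ) (spr43 hd hρ (amp84 hd hG hβ.le)
    (med31 hd hρ hG hβ.le)) (inf43 hd hρ hnc hβ)

/-- The clause in the letters of the problem. -/
theorem clauseAll43 {Ω : Type*} [MeasurableSpace Ω] {μ : Measure Ω} [IsProbabilityMeasure μ]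
    {ω : ℕ × Site d → Ω → ℝ} (hd : 0 < d)
    (hω : IID μ ρ ω) (hρ : EM ρ) (hnc : ∀ c : ℝ, ρ {c} ≠ 1) (hβ : 0 < β) (hG : GC ρ) :
    ∀ h : Vec d, lamN ρ β h < annN ρ β h → ∀ C : ℝ, ∃ θ : ℝ, 0 < θ ∧
      ((∃ᶠ n : ℕ in atTop, ∀ m : ℕ, m ≤ n →
        C * ∫ x, |Real.log (Zn β h (fun p => ω p x) m) -
          ∫ y, Real.log (Zn β h (fun p => ω p y) m) ∂μ| ∂μ ≤
            n * lamN ρ β h - ∫ x, Real.log (Zn β h (fun p => ω p x) n) ∂μ) ∨
        ∀ᶠ n : ℕ in atTop, (n : ℝ) ^ θ ≤
          Var[fun x => Real.log (Zn β h (fun p => ω p x) n); μ]) := by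
  intro h hh C
  obtain ⟨θ, hθ, h1⟩ := mainD43 hd hρ hG hnc hβ h ((vsd29 h).1 hh) C
  refine ⟨θ, hθ, ?_⟩
  simp only [fn19 hd hω hρ, en19 hd hω hρ]
  refine h1.imp id fun h2 => ?_
  filter_upwards [h2, eventually_ge_atTop 1] with n hn hn1
  rw [var29 hd hω hρ]
  have h3 : 1 ≤ (n : ℝ) ^ θ := by
    refine Real.one_le_rpow ?_ hθ.le
    exact_mod_cast hn1
  have h4 := fn_sq19 (β := β) hd hρ h n
  nlinarith

end Pool.Agent.W_7d29a1_UC
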