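import Mathlib

/-!
The second moment and the tail, with a logarithmic threshold.
-/

namespace Pool.Agent.W_7d29a1_UC

open MeasureTheory ProbabilityTheory Filter Topology

variable {Ω : Type*} [MeasurableSpace Ω] (μ : Measure Ω) [IsProbabilityMeasure μ]

/-- The second moment is carried by the truncation when the tail is at most
`K ^ (-2) (1 + log K) ^ (-2)`. -/
lemma dyadL43 {f : Ω → ℝ} (hf : Measurable f) (h0 : ∀ x, 0 ≤ f x)
    (hi : Integrable (fun x => f x ^ 2) μ) {K₀ : ℝ} (hK : 1 < K₀)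
    (ht : ∀ K : ℝ, K₀ ≤ K → μ.real {x | K ≤ f x} ≤ 1 / (K ^ 2 * (1 + Real.log K) ^ 2)) :
    ∫ x, f x ^ 2 ∂μ ≤ (∫ x, min (f x) K₀ ^ 2 ∂μ) + 8 / Real.log K₀ := by
  have hK0 : 0 < K₀ := by linarith
  have hl0 : 0 < Real.log K₀ := Real.log_pos hK
  have hl2 : 0 < Real.log 2 := Real.log_pos (by norm_num)
  have hpos : ∀ J : ℕ, 0 < 2 ^ J * K₀ := fun J => by positivity
  have hlog : ∀ J : ℕ, Real.log (2 ^ J * K₀) = J * Real.log 2 + Real.log K₀ := fun J => by
    rw [Real.log_mul (by positivity) hK0.ne', Real.log_pow]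
  have hlogp : ∀ J : ℕ, 0 < Real.log (2 ^ J * K₀) := fun J => by
    rw [hlog]
    positivity
  have hmin0 : ∀ (J : ℕ) x, 0 ≤ min (f x) (2 ^ J * K₀) := fun J x =>
    le_min (h0 x) (hpos J).le
  have hmi : ∀ J : ℕ, Integrable (fun x => min (f x) (2 ^ J * K₀) ^ 2) μ := by
    intro J
    refine hi.mono' ((hf.min measurable_const).pow_const 2).aestronglyMeasurable
      (Eventually.of_forall fun x => ?_)
    rw [Real.norm_eq_abs, abs_of_nonneg (sq_nonneg _)]
    exact pow_le_pow_left₀ (hmin0 J x) (min_le_left _ _) 2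
  have hstep : ∀ J : ℕ, ∫ x, min (f x) (2 ^ J * K₀) ^ 2 ∂μ ≤
      (∫ x, min (f x) K₀ ^ 2 ∂μ) + (8 / Real.log K₀ - 8 / Real.log (2 ^ J * K₀)) := by
    intro J
    induction J with
    | zero => simp
    | succ J ih =>
      have hms : MeasurableSet {x | 2 ^ J * K₀ ≤ f x} := measurableSet_le measurable_const hf
      have hind : Integrable ({x | 2 ^ J * K₀ ≤ f x}.indicator
          (fun _ => (2 ^ (J + 1) * K₀) ^ 2)) μ := (integrable_const _).indicator hms
      have hpt : ∀ x, min (f x) (2 ^ (J + 1) * K₀) ^ 2 ≤ min (f x) (2 ^ J * K₀) ^ 2 +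
          ({x | 2 ^ J * K₀ ≤ f x}.indicator (fun _ => (2 ^ (J + 1) * K₀) ^ 2)) x := by
        intro x
        by_cases hx : 2 ^ J * K₀ ≤ f x
        · rw [Set.indicator_of_mem (show x ∈ {x | 2 ^ J * K₀ ≤ f x} from hx)]
          have h1 : min (f x) (2 ^ (J + 1) * K₀) ^ 2 ≤ (2 ^ (J + 1) * K₀) ^ 2 :=
            pow_le_pow_left₀ (hmin0 (J + 1) x) (min_le_right _ _) 2
          have h2 := sq_nonneg (min (f x) (2 ^ J * K₀))
          linarith
        · rw [Set.indicator_of_notMem (show x ∉ {x | 2 ^ J * K₀ ≤ f x} from hx), add_zero]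
          push Not at hx
          rw [min_eq_left hx.le]
          exact pow_le_pow_left₀ (hmin0 (J + 1) x) (min_le_left _ _) 2
      have h1 := integral_mono (hmi (J + 1)) ((hmi J).add hind) hpt
      simp only [Pi.add_apply] at h1
      rw [integral_add (hmi J) hind, integral_indicator_const _ hms, smul_eq_mul] at h1
      have h2 : K₀ ≤ 2 ^ J * K₀ := by
        have : (1 : ℝ) ≤ 2 ^ J := one_le_pow₀ (by norm_num)
        nlinarith
      have h3 := mul_le_mul_of_nonneg_right (ht _ h2) (sq_nonneg (2 ^ (J + 1) * K₀))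
      obtain ⟨u, hu⟩ : ∃ u : ℝ, u = Real.log (2 ^ J * K₀) := ⟨_, rfl⟩
      have hu0 : 0 < u := by rw [hu]; exact hlogp J
      have hu1 : Real.log (2 ^ (J + 1) * K₀) = u + Real.log 2 := by
        rw [hu, hlog, hlog]
        push_cast
        ring
      rw [← hu] at h3 ih
      rw [hu1]
      have h4 : 1 / ((2 ^ J * K₀) ^ 2 * (1 + u) ^ 2) * (2 ^ (J + 1) * K₀) ^ 2 =
          4 / (1 + u) ^ 2 := by
        have h5 : (2 : ℝ) ^ J ≠ 0 := by positivity
        have h6 : 1 + u ≠ 0 := by positivity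
        field_simp
        ring
      have h5 : 4 / (1 + u) ^ 2 ≤ 8 / u - 8 / (u + Real.log 2) := by
        have h6 : 8 / u - 8 / (u + Real.log 2) = 8 * Real.log 2 / (u * (u + Real.log 2)) := by
          field_simp
          ring
        rw [h6, div_le_div_iff₀ (by positivity) (by positivity)]
        have h7 : Real.log 2 < 0.6931471808 := Real.log_two_lt_d9
        have h8 : 0.6931471803 < Real.log 2 := Real.log_two_gt_d9
        have h9 : u * (u + Real.log 2) ≤ (1 + u) ^ 2 := by nlinarith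
        have h10 : 0 ≤ (1 + u) ^ 2 := sq_nonneg _
        nlinarith
      linarith
  have hlim : Tendsto (fun J : ℕ => ∫ x, min (f x) (2 ^ J * K₀) ^ 2 ∂μ) atTop
      (𝓝 (∫ x, f x ^ 2 ∂μ)) := by
    refine tendsto_integral_of_dominated_convergence (fun x => f x ^ 2)
      (fun J => (hmi J).aestronglyMeasurable) hi (fun J => Eventually.of_forall fun x => ?_)
      (Eventually.of_forall fun x => ?_)
    · rw [Real.norm_eq_abs, abs_of_nonneg (sq_nonneg _)]
      exact pow_le_pow_left₀ (hmin0 J x) (min_le_left _ _) 2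
    · have h1 : ∀ᶠ J : ℕ in atTop, f x ≤ 2 ^ J * K₀ := by
        have h2 : Tendsto (fun J : ℕ => (2 : ℝ) ^ J * K₀) atTop atTop :=
          (tendsto_pow_atTop_atTop_of_one_lt (by norm_num)).atTop_mul_const hK0
        exact h2.eventually_ge_atTop (f x)
      refine tendsto_const_nhds.congr' (h1.mono fun J hJ => ?_)
      simp only
      rw [min_eq_left hJ]
  refine le_of_tendsto' hlim fun J => (hstep J).trans ?_
  have h1 : 0 ≤ 8 / Real.log (2 ^ J * K₀) := div_nonneg (by norm_num) (hlogp J).le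
  linarith

/-- A normalised variable with small tails is spread out. -/
lemma modL43 {f : Ω → ℝ} (hf : Measurable f) (h0 : ∀ x, 0 ≤ f x)
    (hi : Integrable (fun x => f x ^ 2) μ) (h1 : ∫ x, f x ^ 2 ∂μ = 1) {K₀ : ℝ} (hK1 : 1 < K₀)
    (hK : 16 ≤ Real.log K₀)
    (ht : ∀ K : ℝ, K₀ ≤ K → μ.real {x | K ≤ f x} ≤ 1 / (K ^ 2 * (1 + Real.log K) ^ 2)) :
    1 / (4 * K₀ ^ 2) ≤ μ.real {x | 1 / 2 ≤ f x} := by
  have hK0 : 0 < K₀ := by linarith
  have h2 := dyadL43 μ hf h0 hi hK1 ht
  rw [h1] at h2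
  have h3 : 8 / Real.log K₀ ≤ 1 / 2 := by
    rw [div_le_div_iff₀ (by linarith) (by norm_num)]
    linarith
  have hms : MeasurableSet {x | 1 / 2 ≤ f x} := measurableSet_le measurable_const hf
  have hind : Integrable ({x | 1 / 2 ≤ f x}.indicator (fun _ => K₀ ^ 2)) μ :=
    (integrable_const _).indicator hms
  have hmi : Integrable (fun x => min (f x) K₀ ^ 2) μ := by
    refine hi.mono' ((hf.min measurable_const).pow_const 2).aestronglyMeasurable
      (Eventually.of_forall fun x => ?_)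
    rw [Real.norm_eq_abs, abs_of_nonneg (sq_nonneg _)]
    exact pow_le_pow_left₀ (le_min (h0 x) hK0.le) (min_le_left _ _) 2
  have hpt : ∀ x, min (f x) K₀ ^ 2 ≤ 1 / 4 +
      ({x | 1 / 2 ≤ f x}.indicator (fun _ => K₀ ^ 2)) x := by
    intro x
    by_cases hx : 1 / 2 ≤ f x
    · rw [Set.indicator_of_mem (show x ∈ {x | 1 / 2 ≤ f x} from hx)]
      have : min (f x) K₀ ^ 2 ≤ K₀ ^ 2 :=
        pow_le_pow_left₀ (le_min (h0 x) hK0.le) (min_le_right _ _) 2
      linarith
    · rw [Set.indicator_of_notMem (show x ∉ {x | 1 / 2 ≤ f x} from hx), add_zero]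
      push Not at hx
      have h4 : min (f x) K₀ ≤ 1 / 2 := (min_le_left _ _).trans hx.le
      have h5 := pow_le_pow_left₀ (le_min (h0 x) hK0.le) h4 2
      norm_num at h5 ⊢
      linarith
  have h4 := integral_mono hmi ((integrable_const (1 / 4 : ℝ)).add hind) hpt
  simp only [Pi.add_apply] at h4
  rw [integral_add (integrable_const _) hind, integral_indicator_const _ hms, smul_eq_mul,
    integral_const, probReal_univ, one_smul] at h4
  rw [div_le_iff₀ (by positivity)]
  nlinarith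

end Pool.Agent.W_7d29a1_UC
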