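import Pool.Agent.W_7d29a1_UC.MainS43
import Pool.Agent.W_7d29a1_UC.All43
import Pool.Agent.W_7d29a1_UC.DyaL43

/-!
The variance at all times: the power law for the variance itself when the nonrandom fluctuation
does not dominate.
-/

namespace Pool.Agent.W_7d29a1_UC

open MeasureTheory ProbabilityTheory Filter Topology Pool.Agent.W_MP_7d29a1_pr
  Pool.Agent.W_7d29a1_h46 Pool.Agent.W_7d29a1_h46u Pool.Agent.W_7d29a1_D2.B35
  Pool.Agent.W_7d29a1_Q29 Pool.Agent.W_7d29a1_R34 Pool.Agent.W_7d29a1_SP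
  Pool.Agent.W_7d29a1_SP.C79
open Pool.Agent.W_7d29a1_AM (AmpU)

variable {d : ℕ} {ρ : Measure ℝ} {β : ℝ}

/-- DEEP: deep lower deviations with a polynomial probability force upper deviations of the order of
the standard deviation with a probability bounded below. -/
def DeepP (d : ℕ) (ρ : Measure ℝ) (β : ℝ) : Prop := ∀ Λ : ℝ, 1 ≤ Λ → ∃ K₀ c S : ℝ, 0 < c ∧
  ∀ (h : Vec d) (m : ℕ) (K : ℝ), S ≤ Va ρ β h m → K₀ ≤ K →
    1 / (2 * K ^ 4) ≤ (law d ρ).real
      {η | X β h η m ≤ A ρ β h m - K * Real.sqrt (Va ρ β h m)} →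
      c ≤ (law d ρ).real {η | A ρ β h m + Λ * Real.sqrt (Va ρ β h m) ≤ X β h η m}

/-- The theorem with the variance at all times. -/
def MainW (d : ℕ) (ρ : Measure ℝ) (β : ℝ) : Prop := ∀ h : Vec d, VSD ρ β h → ∀ C : ℝ,
  ∃ θ : ℝ, 0 < θ ∧ ((∃ᶠ n : ℕ in atTop, ∀ m : ℕ, m ≤ n → C * Va ρ β h m ≤ En ρ β h n ^ 2) ∨
    ∀ᶠ n : ℕ in atTop, (n : ℝ) ^ θ ≤ Va ρ β h n)

variable [IsProbabilityMeasure ρ]

/-- The multiples of the standard deviation which matter are at most linear. -/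
lemma kbL43 (hd : 0 < d) (hρ : EM ρ) (β : ℝ) : ∃ B : ℝ, 2 ≤ B ∧ ∀ (h : Vec d) (m : ℕ), 1 ≤ m →
    ∀ K σ : ℝ, 1 ≤ σ → 1 ≤ K →
      1 / (2 * K ^ 4) ≤ (law d ρ).real {η | K * σ ≤ |X β h η m - A ρ β h m|} → K ≤ B * m := by
  obtain ⟨M, hM, hmom⟩ := momU (d := d) hd hρ β 8
  refine ⟨2 + 2 * M, by linarith, fun h m hm K σ hσ hK hp => ?_⟩
  obtain ⟨hi, hb⟩ := hmom h m hm
  have hm1 : (1 : ℝ) ≤ m := by exact_mod_cast hm
  have h1 := mul_meas_ge_le_integral_of_nonneg (μ := law d ρ)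
    (Eventually.of_forall fun η => pow_nonneg (abs_nonneg (X β h η m - A ρ β h m)) 8) hi (K ^ 8)
  have h2 : (law d ρ).real {η | K * σ ≤ |X β h η m - A ρ β h m|} ≤
      (law d ρ).real {η | K ^ 8 ≤ |X β h η m - A ρ β h m| ^ 8} := by
    refine measureReal_mono fun η hη => ?_
    have h3 : K * σ ≤ |X β h η m - A ρ β h m| := hη
    show K ^ 8 ≤ |X β h η m - A ρ β h m| ^ 8
    exact pow_le_pow_left₀ (by linarith) (le_trans (by nlinarith) h3) 8
  have h3 : (m : ℝ) ^ ((1 / 2 : ℝ) * (8 : ℕ)) = (m : ℝ) ^ 4 := by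
    rw [← Real.rpow_natCast]
    congr 1
    norm_num
  rw [h3] at hb
  have hK0 : 0 < K := by linarith
  have h4 : K ^ 8 * (1 / (2 * K ^ 4)) ≤ M * (m : ℝ) ^ 4 :=
    (mul_le_mul_of_nonneg_left (hp.trans h2) (by positivity)).trans (h1.trans hb)
  have h5 : K ^ 8 * (1 / (2 * K ^ 4)) = K ^ 4 / 2 := by
    field_simp
  rw [h5] at h4
  by_contra hcon
  push Not at hcon
  have hB1 : 1 ≤ 2 + 2 * M := by linarith
  have h6 : ((2 + 2 * M) * m) ^ 4 < K ^ 4 := pow_lt_pow_left₀ hcon (by positivity) (by norm_num)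
  have h7 : (2 + 2 * M) * (m : ℝ) ^ 4 ≤ ((2 + 2 * M) * m) ^ 4 := by
    have h8 : ((2 + 2 * M) * m) ^ 4 = ((2 + 2 * M) * (m : ℝ) ^ 4) * (2 + 2 * M) ^ 3 := by
      ring
    rw [h8]
    have h9 : 1 ≤ (2 + 2 * M) ^ 3 := one_le_pow₀ hB1
    have h10 : 0 ≤ (2 + 2 * M) * (m : ℝ) ^ 4 := by positivity
    nlinarith
  have h8 : (0 : ℝ) < (m : ℝ) ^ 4 := by positivity
  nlinarith

/-- The variance at a later time. -/
lemma laterV43 (hd : 0 < d) (hρ : EM ρ) (β : ℝ) (h : Vec d) (m k : ℕ) (x G : ℝ) (hx0 : 0 < x)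
    (hG : A ρ β h (m + k) - A ρ β h m - A ρ β h k ≤ G) (hx : 2 * G ≤ x) :
    x ^ 2 / 4 * (law d ρ).real {η | A ρ β h m + x ≤ X β h η m} ≤ Va ρ β h (m + k) := by
  obtain ⟨B, hB⟩ : ∃ B : Set (Env d), B = {η : Env d | A ρ β h m + x ≤ X β h η m} := ⟨_, rfl⟩
  have hms : MeasurableSet B := by
    rw [hB]
    exact measurableSet_le measurable_const (measurable_X β h m)
  have hdep : DependsOn (fun η => η ∈ B) (Pa d m) := by
    intro η η' hη
    have h1 : Z β h η m = Z β h η' m := S98.Z_dep β h m hη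
    rw [hB]
    show (A ρ β h m + x ≤ X β h η m) = (A ρ β h m + x ≤ X β h η' m)
    unfold X
    rw [h1]
  have hX : ∀ k, Integrable (fun η => X β h η k) (law d ρ) := fun k => (concU hd hρ β h k).1
  have h1 := jen79 (ρ := ρ) hd hρ β h m k hms hdep
  obtain ⟨p, hp⟩ : ∃ p : ℝ, p = (law d ρ).real B := ⟨_, rfl⟩
  have hp0 : 0 ≤ p := by rw [hp]; exact measureReal_nonneg
  obtain ⟨V, hV⟩ : ∃ V : ℝ, V = Va ρ β h (m + k) := ⟨_, rfl⟩
  rw [← hB, ← hp, ← hV]
  have h2 : ∫ η, one B η * (X β h η (m + k) - A ρ β h (m + k)) ∂(law d ρ) =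
      (∫ η, one B η * X β h η (m + k) ∂(law d ρ)) - A ρ β h (m + k) * (law d ρ).real B := by
    have i1 := mul_int (ρ := ρ) hms (hX (m + k))
    have i2 := (one_int (ρ := ρ) hms).const_mul (A ρ β h (m + k))
    rw [← one_I hms, ← integral_const_mul, ← integral_sub i1 i2]
    refine integral_congr_ae (Eventually.of_forall fun η => ?_)
    simp only
    ring
  have h5 : (A ρ β h m + x) * (law d ρ).real B ≤ ∫ η, one B η * X β h η m ∂(law d ρ) := by
    rw [← one_I hms, ← integral_const_mul]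
    refine integral_mono ((one_int (ρ := ρ) hms).const_mul _)
      (mul_int (ρ := ρ) hms (hX m)) fun η => ?_
    by_cases hη : η ∈ B
    · have hc : A ρ β h m + x ≤ X β h η m := by rw [hB] at hη; exact hη
      simp only [one_of hη, one_mul, mul_one]
      exact hc
    · simp only [one_not hη, zero_mul, mul_zero]
      exact le_rfl
  obtain ⟨_, iY2, _⟩ := cen43 hd hρ β h (m + k)
  have h6 : ∫ η, one B η * (X β h η (m + k) - A ρ β h (m + k)) ∂(law d ρ) ≤
      1 / x * V + x / 4 * p := by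
    have i1 := mul_int (ρ := ρ) hms ((hX (m + k)).sub (integrable_const (A ρ β h (m + k))))
    have i2 := iY2.const_mul (1 / x)
    have i3 := (one_int (ρ := ρ) hms).const_mul (x / 4)
    have h7 := integral_mono i1 (i2.add i3) fun η => by
      obtain ⟨y, hy⟩ : ∃ y : ℝ, y = X β h η (m + k) - A ρ β h (m + k) := ⟨_, rfl⟩
      simp only [Pi.add_apply, Pi.sub_apply]
      rw [← hy]
      by_cases hη : η ∈ B
      · rw [one_of hη, one_mul, mul_one]
        have h8 : 0 ≤ (y - x / 2) ^ 2 / x := by positivity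
        have h9 : (y - x / 2) ^ 2 / x = 1 / x * y ^ 2 + x / 4 - y := by
          field_simp
          ring
        linarith
      · rw [one_not hη, zero_mul, mul_zero, add_zero]
        positivity
    simp only [Pi.add_apply] at h7
    rw [integral_add i2 i3, integral_const_mul, integral_const_mul, one_I hms, ← hp] at h7
    rw [hV]
    exact h7
  have h10 := mul_le_mul_of_nonneg_right hG hp0
  have h11 := mul_le_mul_of_nonneg_right hx hp0
  rw [h2, ← hp] at h6
  rw [← hp] at h1 h5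
  have h12 : x / 2 * p ≤ 1 / x * V + x / 4 * p := by linarith
  have h13 : x / 4 * p ≤ 1 / x * V := by linarith
  have h14 := mul_le_mul_of_nonneg_left h13 hx0.le
  have h15 : x * (1 / x * V) = V := by field_simp
  rw [h15] at h14
  linarith

/-- SPRV: upper deviations at every multiple of the standard deviation. -/
theorem sprV43 (hd : 0 < d) (hρ : EM ρ) (h2 : AmpU ρ β d) (h3 : DeepP d ρ β) (Λ : ℝ)
    (hΛ : 1 ≤ Λ) : ∃ c S B : ℝ, 0 < c ∧ 1 ≤ S ∧ 1 ≤ B ∧ ∀ (h : Vec d) (m : ℕ), 1 ≤ m →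
      S ≤ Va ρ β h m → ∃ x : ℝ, Λ * Real.sqrt (Va ρ β h m) ≤ x ∧
        c * Va ρ β h m / (1 + Real.log (B * m)) ^ 2 ≤
          x ^ 2 * (law d ρ).real {η | A ρ β h m + x ≤ X β h η m} := by
  obtain ⟨K₀, cD, SD, hcD, hdeep⟩ := h3 Λ hΛ
  obtain ⟨t, htd⟩ : ∃ t : ℝ, t = 32 * Λ := ⟨_, rfl⟩
  have ht : 32 ≤ t := by rw [htd]; linarith
  obtain ⟨C3, hC3, amp3⟩ := h2 t (by linarith)
  obtain ⟨B, hB, hkb⟩ := kbL43 (d := d) hd hρ β
  obtain ⟨K1, hK1d⟩ : ∃ K1 : ℝ, K1 = max (Real.exp 16) (max Λ K₀) := ⟨_, rfl⟩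
  have hK1a : Real.exp 16 ≤ K1 := by rw [hK1d]; exact le_max_left _ _
  have hK1b : Λ ≤ K1 := by rw [hK1d]; exact (le_max_left _ _).trans (le_max_right _ _)
  have hK1c : K₀ ≤ K1 := by rw [hK1d]; exact (le_max_right _ _).trans (le_max_right _ _)
  have hexp : 17 ≤ Real.exp 16 := by
    have := Real.add_one_le_exp (16 : ℝ)
    linarith
  have hK16 : 16 ≤ K1 := by linarith
  obtain ⟨q, hqd⟩ : ∃ q : ℝ, q = 1 / (8 * K1 ^ 2) := ⟨_, rfl⟩
  have hq : 0 < q := by rw [hqd]; positivity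
  have hq64 : q ≤ 1 / 64 := by
    rw [hqd]
    exact one_div_le_one_div_of_le (by norm_num) (by nlinarith)
  have hqC : 0 < q ^ C3 := Real.rpow_pos_of_pos hq _
  obtain ⟨σ₀, hσ₀d⟩ : ∃ σ₀ : ℝ, σ₀ = max 1 (8 * (C3 * (1 + Real.log (1 / q)))) := ⟨_, rfl⟩
  have hσ1 : 1 ≤ σ₀ := by rw [hσ₀d]; exact le_max_left _ _
  have hσ3 : 8 * (C3 * (1 + Real.log (1 / q))) ≤ σ₀ := by rw [hσ₀d]; exact le_max_right _ _
  obtain ⟨c, hcd⟩ : ∃ c : ℝ, c = min (1 / 2) (min cD (q ^ C3)) := ⟨_, rfl⟩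
  have hc0 : 0 < c := by
    rw [hcd]
    exact lt_min (by norm_num) (lt_min hcD hqC)
  have hc1 : c ≤ 1 / 2 := by rw [hcd]; exact min_le_left _ _
  have hc2 : c ≤ cD := by rw [hcd]; exact (min_le_right _ _).trans (min_le_left _ _)
  have hc3 : c ≤ q ^ C3 := by rw [hcd]; exact (min_le_right _ _).trans (min_le_right _ _)
  refine ⟨c, max 1 (max SD (σ₀ ^ 2)), B, hc0, le_max_left _ _, by linarith, fun h m hm hS => ?_⟩
  obtain ⟨σ, hσd⟩ : ∃ σ : ℝ, σ = Real.sqrt (Va ρ β h m) := ⟨_, rfl⟩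
  have hS1 : SD ≤ Va ρ β h m := (le_max_left _ _).trans ((le_max_right _ _).trans hS)
  have hS2 : σ₀ ^ 2 ≤ Va ρ β h m := (le_max_right _ _).trans ((le_max_right _ _).trans hS)
  have hσσ : σ₀ ≤ σ := by rw [hσd]; exact Real.le_sqrt_of_sq_le hS2
  have hσp : 0 < σ := by linarith
  have hσV : Va ρ β h m = σ ^ 2 := by
    rw [hσd, Real.sq_sqrt]
    exact (sq_nonneg σ₀).trans hS2
  obtain ⟨iY, iY2, hY0⟩ := cen43 hd hρ β h m
  have hm0 : (0 : ℝ) < m := by exact_mod_cast hm
  have hm1 : (1 : ℝ) ≤ m := by exact_mod_cast hm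
  have hV2 : ∫ η, (X β h η m - A ρ β h m) ^ 2 ∂(law d ρ) = σ ^ 2 := by rw [← hσV]; rfl
  have hlogB : 0 ≤ Real.log (B * m) := Real.log_nonneg (by nlinarith)
  have hden : 1 ≤ (1 + Real.log (B * m)) ^ 2 := by nlinarith
  -- a constant probability at the multiple `Λ`
  have hconst : c ≤ (law d ρ).real {η | A ρ β h m + Λ * σ ≤ X β h η m} →
      ∃ x : ℝ, Λ * Real.sqrt (Va ρ β h m) ≤ x ∧
        c * Va ρ β h m / (1 + Real.log (B * m)) ^ 2 ≤
          x ^ 2 * (law d ρ).real {η | A ρ β h m + x ≤ X β h η m} := by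
    intro hp
    refine ⟨Λ * σ, by rw [hσd], ?_⟩
    rw [hσV]
    have h4 : c * σ ^ 2 / (1 + Real.log (B * m)) ^ 2 ≤ c * σ ^ 2 :=
      div_le_self (by positivity) hden
    refine h4.trans ?_
    have h5 : σ ^ 2 ≤ (Λ * σ) ^ 2 := by
      rw [mul_pow]
      have : 1 ≤ Λ ^ 2 := one_le_pow₀ hΛ
      nlinarith [sq_nonneg σ]
    calc c * σ ^ 2 ≤ c * (Λ * σ) ^ 2 := mul_le_mul_of_nonneg_left h5 hc0.le
      _ = (Λ * σ) ^ 2 * c := mul_comm _ _
      _ ≤ _ := mul_le_mul_of_nonneg_left hp (sq_nonneg _)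
  have hK4 : ∀ K : ℝ, K1 ≤ K → 1 / (2 * K ^ 4) ≤ 1 / (2 * (K ^ 2 * (1 + Real.log K) ^ 2)) := by
    intro K hK
    have hK0 : 0 < K := by linarith
    have h4 : 0 ≤ Real.log K := Real.log_nonneg (by linarith)
    have h5 := Real.log_le_sub_one_of_pos hK0
    refine one_div_le_one_div_of_le (by positivity) ?_
    have h6 : (1 + Real.log K) ^ 2 ≤ K ^ 2 := pow_le_pow_left₀ (by linarith) (by linarith) 2
    have h7 : K ^ 4 = K ^ 2 * K ^ 2 := by ring
    rw [h7]
    have h8 : 0 < K ^ 2 := by positivity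
    nlinarith
  by_cases hA : ∃ K : ℝ, K1 ≤ K ∧
      1 / (2 * (K ^ 2 * (1 + Real.log K) ^ 2)) ≤
        (law d ρ).real {η | A ρ β h m + K * σ ≤ X β h η m}
  · obtain ⟨K, hK, hp⟩ := hA
    have hK0 : 0 < K := by linarith
    have hlK : 0 ≤ Real.log K := Real.log_nonneg (by linarith)
    have hKB : K ≤ B * m := by
      refine hkb h m hm K σ (by linarith) (by linarith) ((hK4 K hK).trans (hp.trans
        (measureReal_mono fun η hη => ?_)))
      have h3 : A ρ β h m + K * σ ≤ X β h η m := hη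
      show K * σ ≤ |X β h η m - A ρ β h m|
      exact le_trans (by linarith) (le_abs_self _)
    refine ⟨K * σ, by rw [← hσd]; exact mul_le_mul_of_nonneg_right (hK1b.trans hK) hσp.le, ?_⟩
    have h4 := mul_le_mul_of_nonneg_left hp (sq_nonneg (K * σ))
    refine le_trans ?_ h4
    have h5 : (K * σ) ^ 2 * (1 / (2 * (K ^ 2 * (1 + Real.log K) ^ 2))) =
        1 / 2 * σ ^ 2 / (1 + Real.log K) ^ 2 := by
      have : 1 + Real.log K ≠ 0 := by positivity
      field_simp
    rw [h5, hσV]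
    have h6 : Real.log K ≤ Real.log (B * m) := Real.log_le_log hK0 hKB
    refine div_le_div₀ (by positivity) (mul_le_mul_of_nonneg_right hc1 (sq_nonneg _))
      (by positivity) (pow_le_pow_left₀ (by linarith) (by linarith) 2)
  by_cases hBc : ∃ K : ℝ, K1 ≤ K ∧
      1 / (2 * (K ^ 2 * (1 + Real.log K) ^ 2)) ≤
        (law d ρ).real {η | X β h η m ≤ A ρ β h m - K * σ}
  · obtain ⟨K, hK, hp⟩ := hBc
    refine hconst (hc2.trans ?_)
    have h4 := hdeep h m K hS1 (hK1c.trans hK) (by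
      rw [← hσd]
      exact (hK4 K hK).trans hp)
    rw [← hσd] at h4
    exact h4
  push Not at hA hBc
  have hmid : ∀ s₀ s₁ : ℝ, A ρ β h m - σ / 2 ≤ s₀ → A ρ β h m - σ / 4 ≤ s₁ →
      σ / 8 ≤ s₁ - s₀ → q ≤ (law d ρ).real {η | X β h η m ≤ s₀} →
      q ≤ (law d ρ).real {η | s₁ < X β h η m} →
      c ≤ (law d ρ).real {η | A ρ β h m + Λ * σ ≤ X β h η m} := by
    intro s₀ s₁ hs0 hs1 hs hp0 hp1
    have h3 := amp3 h m s₀ s₁ q hq (by linarith) (by linarith) (by
      rw [hσV, le_div_iff₀ hq]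
      have h4 : σ ^ 2 * q ≤ σ ^ 2 * (1 / 64) := mul_le_mul_of_nonneg_left hq64 (by positivity)
      have h5 : (σ / 8) ^ 2 ≤ (s₁ - s₀) ^ 2 := pow_le_pow_left₀ (by positivity) hs 2
      linarith) hp0 hp1
    refine hc3.trans (h3.trans (measureReal_mono fun η hη => ?_))
    have h5 : s₁ + t * (s₁ - s₀) < X β h η m := hη
    show A ρ β h m + Λ * σ ≤ X β h η m
    have h6 : t * (σ / 8) ≤ t * (s₁ - s₀) := mul_le_mul_of_nonneg_left hs (by linarith)
    have h7 : t * σ = 32 * (Λ * σ) := by rw [htd]; ring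
    have h8 : σ ≤ Λ * σ := by nlinarith
    linarith
  have hmeas : Measurable fun η : Env d => |X β h η m - A ρ β h m| / σ :=
    (((measurable_X β h m).sub_const _).abs).div_const _
  have hsqf : ∀ η : Env d, (|X β h η m - A ρ β h m| / σ) ^ 2 =
      (X β h η m - A ρ β h m) ^ 2 * (1 / σ ^ 2) := by
    intro η
    rw [div_pow, sq_abs]
    ring
  have hmod := modL43 (law d ρ) hmeas (fun η => by positivity) (K₀ := K1) (by
      simp only [hsqf]
      exact iY2.mul_const _) (by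
      simp only [hsqf]
      rw [integral_mul_const, hV2]
      field_simp) (by linarith) (by
      have := Real.log_le_log (Real.exp_pos 16) hK1a
      rwa [Real.log_exp] at this) (fun K hK => by
      have hK0 : 0 < K := by linarith
      have h3 : {η : Env d | K ≤ |X β h η m - A ρ β h m| / σ} ⊆
          {η | A ρ β h m + K * σ ≤ X β h η m} ∪ {η | X β h η m ≤ A ρ β h m - K * σ} := by
        intro η hη
        have h4 : K ≤ |X β h η m - A ρ β h m| / σ := hη
        rw [le_div_iff₀ hσp] at h4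
        rcases le_total 0 (X β h η m - A ρ β h m) with h5 | h5
        · rw [abs_of_nonneg h5] at h4
          exact Or.inl (show A ρ β h m + K * σ ≤ X β h η m by linarith)
        · rw [abs_of_nonpos h5] at h4
          exact Or.inr (show X β h η m ≤ A ρ β h m - K * σ by linarith)
      have h4 := (measureReal_mono (μ := law d ρ) h3).trans (measureReal_union_le _ _)
      have h5 := (hA K hK).le
      have h6 := (hBc K hK).le
      have hlK : 0 ≤ Real.log K := Real.log_nonneg (by linarith)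
      have h7 : 1 / (K ^ 2 * (1 + Real.log K) ^ 2) =
          1 / (2 * (K ^ 2 * (1 + Real.log K) ^ 2)) + 1 / (2 * (K ^ 2 * (1 + Real.log K) ^ 2)) := by
        have : 1 + Real.log K ≠ 0 := by positivity
        field_simp
        norm_num
      linarith)
  have hsplit : {η : Env d | 1 / 2 ≤ |X β h η m - A ρ β h m| / σ} ⊆
      {η | A ρ β h m + σ / 2 ≤ X β h η m} ∪ {η | X β h η m ≤ A ρ β h m - σ / 2} := by
    intro η hη
    have h4 : 1 / 2 ≤ |X β h η m - A ρ β h m| / σ := hη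
    rw [le_div_iff₀ hσp] at h4
    rcases le_total 0 (X β h η m - A ρ β h m) with h5 | h5
    · rw [abs_of_nonneg h5] at h4
      exact Or.inl (show A ρ β h m + σ / 2 ≤ X β h η m by linarith)
    · rw [abs_of_nonpos h5] at h4
      exact Or.inr (show X β h η m ≤ A ρ β h m - σ / 2 by linarith)
  have hsum := hmod.trans ((measureReal_mono (μ := law d ρ) hsplit).trans
    (measureReal_union_le _ _))
  have hq2 : 1 / (4 * K1 ^ 2) = q + q := by
    rw [hqd]
    field_simp
    norm_num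
  rw [hq2] at hsum
  refine hconst ?_
  by_cases hside : q ≤ (law d ρ).real {η | A ρ β h m + σ / 2 ≤ X β h η m}
  · refine hmid (A ρ β h m + σ / 4) (A ρ β h m + 3 * σ / 8) (by linarith) (by linarith)
      (by linarith) ?_ (hside.trans (measureReal_mono fun η hη => ?_))
    · have h3 := cant43 (law d ρ) ((measurable_X β h m).sub_const (A ρ β h m)) iY iY2 hσp hY0 hV2
      have h4 : (law d ρ).real {η | X β h η m < A ρ β h m + σ / 4} =
          1 - (law d ρ).real {η | A ρ β h m + σ / 4 ≤ X β h η m} := by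
        rw [← probReal_compl_eq_one_sub (measurableSet_le measurable_const (measurable_X β h m))]
        congr 1
        ext η
        simp
      have h5 : (law d ρ).real {η | A ρ β h m + σ / 4 ≤ X β h η m} ≤
          (law d ρ).real {η | σ / 4 ≤ X β h η m - A ρ β h m} := by
        refine measureReal_mono fun η hη => ?_
        have h6 : A ρ β h m + σ / 4 ≤ X β h η m := hη
        show σ / 4 ≤ X β h η m - A ρ β h m
        linarith
      have h6 : (law d ρ).real {η | X β h η m < A ρ β h m + σ / 4} ≤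
          (law d ρ).real {η | X β h η m ≤ A ρ β h m + σ / 4} := by
        refine measureReal_mono fun η hη => ?_
        have h7 : X β h η m < A ρ β h m + σ / 4 := hη
        exact h7.le
      linarith
    · have h3 : A ρ β h m + σ / 2 ≤ X β h η m := hη
      show A ρ β h m + 3 * σ / 8 < X β h η m
      linarith
  · push Not at hside
    refine hmid (A ρ β h m - σ / 2) (A ρ β h m - σ / 4) le_rfl le_rfl (by linarith)
      (by linarith) ?_
    have h2' : ∫ η, (-(X β h η m - A ρ β h m)) ^ 2 ∂(law d ρ) = σ ^ 2 := by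
      rw [← hV2]
      refine integral_congr_ae (Eventually.of_forall fun η => ?_)
      simp only
      ring
    have h3 := cant43 (law d ρ) (f := fun η => -(X β h η m - A ρ β h m))
      ((measurable_X β h m).sub_const (A ρ β h m)).neg iY.neg (by
        have : (fun η : Env d => (-(X β h η m - A ρ β h m)) ^ 2) = fun η =>
            (X β h η m - A ρ β h m) ^ 2 := by
          funext η
          ring
        rw [this]
        exact iY2) hσp (by rw [integral_neg, hY0, neg_zero]) h2'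
    have h4 : (law d ρ).real {η | A ρ β h m - σ / 4 < X β h η m} =
        1 - (law d ρ).real {η | X β h η m ≤ A ρ β h m - σ / 4} := by
      rw [← probReal_compl_eq_one_sub (measurableSet_le (measurable_X β h m) measurable_const)]
      congr 1
      ext η
      simp
    have h5 : (law d ρ).real {η | X β h η m ≤ A ρ β h m - σ / 4} ≤
        (law d ρ).real {η | σ / 4 ≤ -(X β h η m - A ρ β h m)} := by
      refine measureReal_mono fun η hη => ?_
      have h6 : X β h η m ≤ A ρ β h m - σ / 4 := hη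
      show σ / 4 ≤ -(X β h η m - A ρ β h m)
      linarith
    linarith

end Pool.Agent.W_7d29a1_UC
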