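import Pool.Agent.W_7d29a1_UC.DefsC43
import Pool.Agent.W_7d29a1_Q29.Fin29
import Pool.Agent.W_7d29a1_Q29.Npb39

/-!
Random against nonrandom fluctuations in every dimension: the theorem in the letters of the
problem.
-/

namespace Pool.Agent.W_7d29a1_UC

open MeasureTheory ProbabilityTheory Filter Topology Pool.Agent.W_MP_7d29a1_pr
  Pool.Agent.W_7d29a1_h46 Pool.Agent.W_7d29a1_h46u Pool.Agent.W_7d29a1_D2.B35
  Pool.Agent.W_7d29a1_Q29 Pool.Agent.W_7d29a1_R34 Pool.Agent.W_7d29a1_SP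

variable {Ω : Type*} [MeasurableSpace Ω] {μ : Measure Ω} [IsProbabilityMeasure μ] {d : ℕ}
  {ρ : Measure ℝ} [IsProbabilityMeasure ρ] {ω : ℕ × Site d → Ω → ℝ} {β : ℝ}

/-- The random fluctuation in the letters of the problem. -/
lemma fn19 (hd : 0 < d) (hω : IID μ ρ ω) (hρ : EM ρ) (h : Vec d) (n : ℕ) :
    ∫ x, |Real.log (Zn β h (fun p => ω p x) n) -
      ∫ y, Real.log (Zn β h (fun p => ω p y) n) ∂μ| ∂μ = Fn ρ β h n := by
  have h1 := StrA_mom (β := β) hd hω hρ h n 1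
  simp only [pow_one] at h1
  exact h1

/-- The nonrandom fluctuation in the letters of the problem. -/
lemma en19 (hd : 0 < d) (hω : IID μ ρ ω) (hρ : EM ρ) (h : Vec d) (n : ℕ) :
    n * lamN ρ β h - ∫ x, Real.log (Zn β h (fun p => ω p x) n) ∂μ = En ρ β h n :=
  def29 hd hω hρ h n

/-- The random fluctuation is at most the standard deviation. -/
lemma fn_sq19 (hd : 0 < d) (hρ : EM ρ) (h : Vec d) (n : ℕ) :
    Fn ρ β h n ^ 2 ≤ Va ρ β h n := by
  have hX := measurable_X (d := d) β h n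
  have hm : Measurable fun η : Env d => |X β h η n - A ρ β h n| := (hX.sub_const _).abs
  have i2 : Integrable (fun η : Env d => (X β h η n - A ρ β h n) ^ 2) (law d ρ) := by
    have h1 : MemLp (fun η : Env d => X β h η n) 2 (law d ρ) := by
      rw [memLp_two_iff_integrable_sq hX.aestronglyMeasurable]
      exact integrable_X_sq39 hd hρ β h n
    exact (h1.sub (memLp_const (A ρ β h n))).integrable_sq
  have hF : Fn ρ β h n = ∫ η, |X β h η n - A ρ β h n| ∂(law d ρ) := rfl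
  have i1 : Integrable (fun η : Env d => |X β h η n - A ρ β h n|) (law d ρ) := by
    refine Integrable.mono' (i2.add (integrable_const 1)) hm.aestronglyMeasurable
      (Eventually.of_forall fun η => ?_)
    show ‖|X β h η n - A ρ β h n|‖ ≤ (X β h η n - A ρ β h n) ^ 2 + 1
    rw [Real.norm_eq_abs, abs_abs]
    nlinarith [sq_abs (X β h η n - A ρ β h n), sq_nonneg (|X β h η n - A ρ β h n| - 1),
      abs_nonneg (X β h η n - A ρ β h n)]
  have h2 : 0 ≤ ∫ η, (|X β h η n - A ρ β h n| - Fn ρ β h n) ^ 2 ∂(law d ρ) :=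
    integral_nonneg fun η => sq_nonneg _
  have h3 : ∫ η, (|X β h η n - A ρ β h n| - Fn ρ β h n) ^ 2 ∂(law d ρ) =
      Va ρ β h n - Fn ρ β h n ^ 2 := by
    have h4 : (fun η : Env d => (|X β h η n - A ρ β h n| - Fn ρ β h n) ^ 2) = fun η =>
        (X β h η n - A ρ β h n) ^ 2 - (2 * Fn ρ β h n) * |X β h η n - A ρ β h n| +
          Fn ρ β h n ^ 2 := by
      funext η
      rw [sub_sq, sq_abs]
      ring
    have i3 : Integrable (fun η : Env d => (X β h η n - A ρ β h n) ^ 2 -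
        (2 * Fn ρ β h n) * |X β h η n - A ρ β h n|) (law d ρ) := i2.sub (i1.const_mul _)
    rw [h4, integral_add i3 (integrable_const _), integral_sub i2 (i1.const_mul _),
      integral_const_mul, ← hF, integral_const]
    unfold Va
    simp
    ring
  linarith

/-- The theorem in the letters of the problem. -/
theorem trC19 (hd : 0 < d) (hω : IID μ ρ ω) (hρ : EM ρ) (hM : MainC d ρ β) :
    ∀ h : Vec d, lamN ρ β h < annN ρ β h → ∀ C : ℝ, ∃ θ : ℝ, 0 < θ ∧
      ((∃ᶠ n : ℕ in atTop, ∀ m : ℕ, m ≤ n →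
        C * ∫ x, |Real.log (Zn β h (fun p => ω p x) m) -
          ∫ y, Real.log (Zn β h (fun p => ω p y) m) ∂μ| ∂μ ≤
            n * lamN ρ β h - ∫ x, Real.log (Zn β h (fun p => ω p x) n) ∂μ) ∨
        ∀ᶠ n : ℕ in atTop, ∃ m : ℕ, m ≤ n ∧ (n : ℝ) ^ θ ≤
          ∫ x, |Real.log (Zn β h (fun p => ω p x) m) -
            ∫ y, Real.log (Zn β h (fun p => ω p y) m) ∂μ| ∂μ) := by
  intro h hh C
  simp only [fn19 hd hω hρ, en19 hd hω hρ]
  exact hM h ((vsd29 h).1 hh) C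

/-- The same with the variance in the second alternative. -/
theorem trV19 (hd : 0 < d) (hω : IID μ ρ ω) (hρ : EM ρ) (hM : MainC d ρ β) :
    ∀ h : Vec d, lamN ρ β h < annN ρ β h → ∀ C : ℝ, ∃ θ : ℝ, 0 < θ ∧
      ((∃ᶠ n : ℕ in atTop, ∀ m : ℕ, m ≤ n →
        C * ∫ x, |Real.log (Zn β h (fun p => ω p x) m) -
          ∫ y, Real.log (Zn β h (fun p => ω p y) m) ∂μ| ∂μ ≤
            n * lamN ρ β h - ∫ x, Real.log (Zn β h (fun p => ω p x) n) ∂μ) ∨
        ∀ᶠ n : ℕ in atTop, ∃ m : ℕ, m ≤ n ∧ (n : ℝ) ^ θ ≤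
          Var[fun x => Real.log (Zn β h (fun p => ω p x) m); μ]) := by
  intro h hh C
  obtain ⟨θ, hθ, h1⟩ := hM h ((vsd29 h).1 hh) C
  refine ⟨θ, hθ, ?_⟩
  simp only [fn19 hd hω hρ, en19 hd hω hρ]
  refine h1.imp id fun h2 => ?_
  filter_upwards [h2, eventually_ge_atTop 1] with n hn hn1
  obtain ⟨m, hm, h3⟩ := hn
  refine ⟨m, hm, ?_⟩
  rw [var29 hd hω hρ]
  have h4 : (1 : ℝ) ≤ (n : ℝ) ^ θ := Real.one_le_rpow (by exact_mod_cast hn1) hθ.le
  have h5 := fn_sq19 (β := β) hd hρ h m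
  nlinarith

end Pool.Agent.W_7d29a1_UC
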