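import Pool.Agent.W_7d29a1_UC.DefsC43
import Pool.Agent.W_7d29a1_h46u.ConcV
import Pool.Agent.W_7d29a1_Q29.Loc42

/-!
Growth of the fluctuations and the theorem, over the leaves.
-/

namespace Pool.Agent.W_7d29a1_UC

open MeasureTheory ProbabilityTheory Filter Topology Pool.Agent.W_MP_7d29a1_pr
  Pool.Agent.W_7d29a1_h46 Pool.Agent.W_7d29a1_h46u Pool.Agent.W_7d29a1_D2.B35
  Pool.Agent.W_7d29a1_Q29 Pool.Agent.W_7d29a1_R34 Pool.Agent.W_7d29a1_SP

variable {d : ℕ} {ρ : Measure ℝ} {β : ℝ}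

lemma Fn_nonneg43 (ρ : Measure ℝ) (β : ℝ) (h : Vec d) (n : ℕ) : 0 ≤ Fn ρ β h n :=
  integral_nonneg fun _ => abs_nonneg _

variable [IsProbabilityMeasure ρ]

lemma Fn_zero43 (β : ℝ) (h : Vec d) : Fn ρ β h 0 = 0 := by
  have h1 : ∀ η : Env d, X β h η 0 = X β h 0 0 := by
    intro η
    unfold X
    rw [Z_eq, Z_eq]
    congr 1
  have h2 : A ρ β h 0 = X β h 0 0 := by
    unfold A
    simp only [h1]
    simp
  unfold Fn
  simp only [h1, h2]
  simp

/-- Three eighths of the first absolute moment come from the values at least one eighth of it. -/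
lemma gain43 (hd : 0 < d) (hρ : EM ρ) (β : ℝ) (h : Vec d) (m : ℕ) :
    3 / 8 * Fn ρ β h m ≤ ∫ η, (if A ρ β h m + Fn ρ β h m / 8 ≤ X β h η m then
      X β h η m - A ρ β h m else 0) ∂(law d ρ) := by
  obtain ⟨F, hF⟩ : ∃ F : ℝ, F = Fn ρ β h m := ⟨_, rfl⟩
  have hF0 : 0 ≤ F := by rw [hF]; exact Fn_nonneg43 ρ β h m
  have hX : Integrable (fun η => X β h η m) (law d ρ) := (concU hd hρ β h m).1
  have hY : Integrable (fun η => X β h η m - A ρ β h m) (law d ρ) :=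
    hX.sub (integrable_const _)
  have hY0 : ∫ η, (X β h η m - A ρ β h m) ∂(law d ρ) = 0 := by
    rw [integral_sub hX (integrable_const _)]
    simp [A]
  rw [← hF]
  have hms : MeasurableSet {η : Env d | A ρ β h m + F / 8 ≤ X β h η m} :=
    measurableSet_le measurable_const (measurable_X β h m)
  have hI : Integrable (fun η => if A ρ β h m + F / 8 ≤ X β h η m then
      X β h η m - A ρ β h m else 0) (law d ρ) := by
    have h1 := hY.indicator hms
    refine h1.congr (Eventually.of_forall fun η => ?_)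
    simp only [Set.indicator, Set.mem_ofPred_eq]
  have hpt : ∀ η : Env d, |X β h η m - A ρ β h m| + (X β h η m - A ρ β h m) ≤
      2 * (if A ρ β h m + F / 8 ≤ X β h η m then X β h η m - A ρ β h m else 0) + F / 4 := by
    intro η
    split_ifs with hc
    · have h1 : 0 ≤ X β h η m - A ρ β h m := by linarith
      rw [abs_of_nonneg h1]
      linarith
    · push Not at hc
      rcases le_total 0 (X β h η m - A ρ β h m) with h1 | h1
      · rw [abs_of_nonneg h1]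
        linarith
      · rw [abs_of_nonpos h1]
        linarith
  have h2 := integral_mono (hY.abs.add hY) ((hI.const_mul 2).add (integrable_const (F / 4))) hpt
  have e1 : ∫ η, (fun η => |X β h η m - A ρ β h m|) η + (fun η => X β h η m - A ρ β h m) η
      ∂(law d ρ) = F + 0 := by
    rw [integral_add hY.abs hY, hY0, hF]
    rfl
  have e2 : ∫ η, ((2 * (if A ρ β h m + F / 8 ≤ X β h η m then X β h η m - A ρ β h m else 0)) +
      F / 4) ∂(law d ρ) = 2 * (∫ η, (if A ρ β h m + F / 8 ≤ X β h η m then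
        X β h η m - A ρ β h m else 0) ∂(law d ρ)) + F / 4 := by
    rw [integral_add (hI.const_mul 2) (integrable_const _), integral_const_mul]
    simp
  have h3 : F + 0 ≤ 2 * (∫ η, (if A ρ β h m + F / 8 ≤ X β h η m then
        X β h η m - A ρ β h m else 0) ∂(law d ρ)) + F / 4 := by
    rw [← e1, ← e2]
    exact h2
  linarith

/-- GRO. -/
theorem gro43 (hd : 0 < d) (hρ : EM ρ) (h1 : CntP d ρ β) (h2 : Cnt2P d ρ β) (h3 : AmpP d ρ β)
    (h4 : MedP d ρ β) : Gro2P d ρ β := by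
  intro c₀ Λ hc₀ hΛ
  obtain ⟨C1, hC1, k1⟩ := h2 c₀ hc₀
  obtain ⟨C2, hC2, k2⟩ := h1 c₀ hc₀
  obtain ⟨N, hN⟩ : ∃ N : ℕ, N = ⌈8 * C1 * Λ / 3⌉₊ := ⟨_, rfl⟩
  have hNr : 8 * C1 * Λ / 3 ≤ N := by rw [hN]; exact Nat.le_ceil _
  have hC1Λ : 1 ≤ C1 * Λ := by nlinarith
  have hN1 : 1 ≤ N := by
    have : (0 : ℝ) < N := lt_of_lt_of_le (by linarith) hNr
    exact_mod_cast this
  have hN0 : (0 : ℝ) < N := by exact_mod_cast hN1
  obtain ⟨t, htd⟩ : ∃ t : ℝ, t = 16 * C2 * Λ := ⟨_, rfl⟩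
  have ht : 1 ≤ t := by rw [htd]; nlinarith
  obtain ⟨C3, c3, hC3, hc3, k3⟩ := h3 t ht
  obtain ⟨qm, hqm, k4⟩ := h4
  obtain ⟨q, hqd⟩ : ∃ q : ℝ, q = min (1 / (C1 * N)) qm := ⟨_, rfl⟩
  have hq : 0 < q := by rw [hqd]; exact lt_min (by positivity) hqm
  have hq' : 0 < c3 * q ^ C3 := mul_pos hc3 (Real.rpow_pos_of_pos hq _)
  obtain ⟨K, hK⟩ : ∃ K : ℕ, K = max 2 (max ⌈C1 * N⌉₊ ⌈C2 / (c3 * q ^ C3)⌉₊) := ⟨_, rfl⟩
  have hK2 : 2 ≤ K := by rw [hK]; exact le_max_left _ _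
  have hK3 : C1 * N ≤ K := by
    rw [hK]
    exact (Nat.le_ceil _).trans (by exact_mod_cast (le_max_left _ _).trans (le_max_right _ _))
  have hK4 : C2 / (c3 * q ^ C3) ≤ K := by
    rw [hK]
    exact (Nat.le_ceil _).trans (by exact_mod_cast (le_max_right _ _).trans (le_max_right _ _))
  refine ⟨K, hK2, fun h hL m Φ hm hΦ => ?_⟩
  obtain ⟨F, hF⟩ : ∃ F : ℝ, F = Fn ρ β h m := ⟨_, rfl⟩
  have hF0 : 0 ≤ F := by rw [hF]; exact Fn_nonneg43 ρ β h m
  have hΦ0 : 0 ≤ Φ := (Fn_nonneg43 ρ β h 0).trans (hΦ 0 (Nat.zero_le _)).2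
  have hm0 : (0 : ℝ) < m := by exact_mod_cast hm
  rw [← hF]
  rcases hF0.eq_or_lt with hz | hFp
  · rw [← hz]
    linarith
  by_cases hcase : C1 * (N * (law d ρ).real {η | A ρ β h m + F / 8 ≤ X β h η m}) ≤ 1
  · have h5 := k1 h hL m N (K * m) (F / 8) Φ hm hN1 (by linarith) hcase (by
      push_cast
      have := mul_le_mul_of_nonneg_right hK3 hm0.le
      linarith) hΦ
    have h6 := gain43 hd hρ β h m
    rw [← hF] at h6
    have h7 : N * (3 / 8 * F) ≤ C1 * (Φ + 1) := (mul_le_mul_of_nonneg_left h6 hN0.le).trans h5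
    have h8 : 8 * C1 * Λ / 3 * (3 / 8 * F) ≤ N * (3 / 8 * F) :=
      mul_le_mul_of_nonneg_right hNr (by positivity)
    have h9 : C1 * (Λ * F) ≤ C1 * (Φ + 1) := by nlinarith
    exact le_of_mul_le_mul_left h9 (by linarith)
  · push Not at hcase
    have hp : 1 / (C1 * N) < (law d ρ).real {η | A ρ β h m + F / 8 ≤ X β h η m} := by
      rw [div_lt_iff₀ (by positivity)]
      linarith
    have h5 : q ≤ (law d ρ).real {η | A ρ β h m + F / 16 < X β h η m} := by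
      have h6 : q ≤ 1 / (C1 * N) := by rw [hqd]; exact min_le_left _ _
      refine h6.trans (hp.le.trans (measureReal_mono fun η hη => ?_))
      have hη' : A ρ β h m + F / 8 ≤ X β h η m := hη
      change A ρ β h m + F / 16 < X β h η m
      linarith
    have h6 : q ≤ (law d ρ).real {η | X β h η m ≤ A ρ β h m} := by
      have h7 : q ≤ qm := by rw [hqd]; exact min_le_right _ _
      exact h7.trans (k4 h m)
    have h7 := k3 h m (A ρ β h m) (A ρ β h m + F / 16) q hq (by linarith) h6 h5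
    have h8 : c3 * q ^ C3 ≤ (law d ρ).real {η | A ρ β h m + t * (F / 16) ≤ X β h η m} := by
      refine h7.trans (measureReal_mono fun η hη => ?_)
      have hη' : A ρ β h m + F / 16 + t * (A ρ β h m + F / 16 - A ρ β h m) < X β h η m := hη
      change A ρ β h m + t * (F / 16) ≤ X β h η m
      have : A ρ β h m + F / 16 - A ρ β h m = F / 16 := by ring
      rw [this] at hη'
      linarith
    have h9 := k2 h hL m (K * m) (t * (F / 16)) (c3 * q ^ C3) Φ hm hq' h8 (by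
      push_cast
      have := mul_le_mul_of_nonneg_right hK4 hm0.le
      have e : C2 * (m : ℝ) / (c3 * q ^ C3) = C2 / (c3 * q ^ C3) * m := by ring
      rw [e]
      exact this) hΦ
    have h10 : C2 * (Λ * F) ≤ C2 * (Φ + 1) := by
      rw [htd] at h9
      nlinarith
    exact le_of_mul_le_mul_left h10 (by linarith)

/-- MAIN. -/
theorem main43 (hd : 0 < d) (hρ : EM ρ) (h5 : Gro2P d ρ β) (h6 : InfP d ρ β) : MainC d ρ β := by
  classical
  intro h hV C0
  obtain ⟨C, hCd⟩ : ∃ C : ℝ, C = max C0 1 := ⟨_, rfl⟩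
  have hC1 : 1 ≤ C := by rw [hCd]; exact le_max_right _ _
  have hC0 : C0 ≤ C := by rw [hCd]; exact le_max_left _ _
  obtain ⟨c₀, hc₀, hL⟩ : ∃ c₀ : ℝ, 0 < c₀ ∧ Loc1 ρ β h c₀ := by
    have hg : 0 < Real.log (Phi h) + Real.log (∫ t, Real.exp (β * t) ∂ρ) - lam ρ β h := by
      have : lam ρ β h < Real.log (Phi h) + Real.log (∫ t, Real.exp (β * t) ∂ρ) := hV
      linarith
    obtain ⟨c₀, hc₀, hc⟩ := Csy42.loc42 hd hρ β _ hg
    refine ⟨c₀, hc₀, fun n => ?_⟩
    exact hc h (by linarith) n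
  obtain ⟨K, hK2, hgro⟩ := h5 c₀ (4 * C) hc₀ (by linarith)
  have hKr : (2 : ℝ) ≤ K := by exact_mod_cast hK2
  obtain ⟨θ, hθd⟩ : ∃ θ : ℝ, θ = Real.log 2 / (2 * Real.log K) := ⟨_, rfl⟩
  have hlK : 0 < Real.log K := Real.log_pos (by linarith)
  have hl2 : 0 < Real.log 2 := Real.log_pos (by norm_num)
  have hθ : 0 < θ := by rw [hθd]; positivity
  refine ⟨θ, hθ, ?_⟩
  by_cases hA : ∃ᶠ n : ℕ in atTop, ∀ m : ℕ, m ≤ n → C0 * Fn ρ β h m ≤ En ρ β h n
  · exact Or.inl hA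
  right
  rw [not_frequently] at hA
  obtain ⟨n0, hn0⟩ := eventually_atTop.1 hA
  -- the maximal random fluctuation
  obtain ⟨Fs, hFs⟩ : ∃ Fs : ℕ → ℝ, Fs = fun n => (Finset.range (n + 1)).sup'
    ⟨0, Finset.mem_range.2 (Nat.succ_pos n)⟩ (fun k => Fn ρ β h k) := ⟨_, rfl⟩
  have hle : ∀ n k : ℕ, k ≤ n → Fn ρ β h k ≤ Fs n := by
    intro n k hk
    rw [hFs]
    exact Finset.le_sup' (fun k => Fn ρ β h k) (Finset.mem_range.2 (Nat.lt_succ_of_le hk))
  have hex : ∀ n : ℕ, ∃ m : ℕ, m ≤ n ∧ Fs n = Fn ρ β h m := by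
    intro n
    obtain ⟨m, hm, hm2⟩ := Finset.exists_mem_eq_sup' (s := Finset.range (n + 1))
      ⟨0, Finset.mem_range.2 (Nat.succ_pos n)⟩ (fun k => Fn ρ β h k)
    refine ⟨m, Nat.lt_succ_iff.1 (Finset.mem_range.1 hm), ?_⟩
    rw [hFs]
    exact hm2
  have hFs0 : ∀ n, 0 ≤ Fs n := fun n => (Fn_nonneg43 ρ β h 0).trans (hle n 0 (Nat.zero_le _))
  have hmono : ∀ a b : ℕ, a ≤ b → Fs a ≤ Fs b := by
    intro a b hab
    obtain ⟨m, hm, hm2⟩ := hex a
    rw [hm2]
    exact hle b m (hm.trans hab)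
  have hEn : ∀ n, n0 ≤ n → En ρ β h n ≤ C * Fs n := by
    intro n hn
    have h7 := hn0 n hn
    push Not at h7
    obtain ⟨m, hm, hm2⟩ := h7
    have h8 : C0 * Fn ρ β h m ≤ C * Fn ρ β h m :=
      mul_le_mul_of_nonneg_right hC0 (Fn_nonneg43 ρ β h m)
    have h9 : C * Fn ρ β h m ≤ C * Fs n := mul_le_mul_of_nonneg_left (hle n m hm) (by linarith)
    linarith
  -- a bound for the first values
  obtain ⟨B, hB⟩ : ∃ B : ℝ, ∀ k, k < n0 → En ρ β h k ≤ B := by
    refine ⟨∑ k ∈ Finset.range n0, |En ρ β h k|, fun k hk => ?_⟩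
    exact (le_abs_self _).trans (Finset.single_le_sum (f := fun k => |En ρ β h k|)
      (fun i _ => abs_nonneg _) (Finset.mem_range.2 hk))
  obtain ⟨n1, hn1a, hn1b⟩ : ∃ n1 : ℕ, 1 ≤ n1 ∧ max B 1 ≤ Fs n1 := by
    obtain ⟨n1, h7, h8⟩ := (((tendsto_atTop.1 (h6 h hV)) (max B 1)).and
      (eventually_ge_atTop 1)).exists
    exact ⟨n1, h8, h7.trans (hle n1 n1 le_rfl)⟩
  have hstep : ∀ n, n1 ≤ n → 2 * Fs n ≤ Fs (K * n) := by
    intro n hn
    obtain ⟨m, hm, hm2⟩ := hex n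
    have h7 : max B 1 ≤ Fs n := hn1b.trans (hmono _ _ hn)
    have h8 : 1 ≤ Fs n := (le_max_right _ _).trans h7
    have hm1 : 1 ≤ m := by
      rcases Nat.eq_zero_or_pos m with h9 | h9
      · rw [hm2, h9, Fn_zero43] at h8
        linarith
      · exact h9
    have hKn : n ≤ K * n := by nlinarith
    have hKm : K * m ≤ K * n := Nat.mul_le_mul_left K hm
    have h10 := hgro h hL m (C * Fs (K * n)) hm1 (by
      intro k hk
      have hk2 : k ≤ K * n := hk.trans hKm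
      have h11 : Fs (K * n) ≤ C * Fs (K * n) := by
        have := hFs0 (K * n)
        nlinarith
      refine ⟨?_, (hle _ _ hk2).trans h11⟩
      rcases lt_or_ge k n0 with h12 | h12
      · have h13 := hB k h12
        have h14 : B ≤ Fs (K * n) := (le_max_left _ _).trans (h7.trans (hmono _ _ hKn))
        linarith
      · exact (hEn k h12).trans (mul_le_mul_of_nonneg_left (hmono _ _ hk2) (by linarith)))
    rw [← hm2] at h10
    have h11 : C * (4 * Fs n - Fs (K * n)) ≤ 1 := by nlinarith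
    by_contra h12
    push Not at h12
    have h13 : 2 * Fs n < 4 * Fs n - Fs (K * n) := by linarith
    nlinarith
  have hpow : ∀ j : ℕ, (2 : ℝ) ^ j ≤ Fs (K ^ j * n1) := by
    intro j
    induction j with
    | zero =>
      simp only [pow_zero, one_mul]
      exact (le_max_right _ _).trans hn1b
    | succ j ih =>
      have h7 : n1 ≤ K ^ j * n1 := Nat.le_mul_of_pos_left n1 (pow_pos (by omega) j)
      have h8 := hstep (K ^ j * n1) h7
      have h9 : K * (K ^ j * n1) = K ^ (j + 1) * n1 := by ring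
      rw [h9] at h8
      rw [pow_succ]
      linarith
  obtain ⟨J, hJ⟩ : ∃ J : ℕ, (n1 : ℝ) ^ θ * Real.sqrt 2 ≤ Real.sqrt 2 ^ J := by
    have h7 : 1 < Real.sqrt 2 := by
      rw [Real.lt_sqrt (by norm_num)]
      norm_num
    obtain ⟨J, hJ⟩ := pow_unbounded_of_one_lt ((n1 : ℝ) ^ θ * Real.sqrt 2) h7
    exact ⟨J, hJ.le⟩
  filter_upwards [eventually_ge_atTop (K ^ J * n1)] with n hn
  obtain ⟨j, hj⟩ : ∃ j : ℕ, j = Nat.log K (n / n1) := ⟨_, rfl⟩
  have hnn1 : n1 ≤ n := (Nat.le_mul_of_pos_left n1 (pow_pos (by omega) J)).trans hn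
  have hdiv : n / n1 ≠ 0 := by
    have := Nat.div_pos hnn1 (by omega)
    omega
  have h7 : K ^ j ≤ n / n1 := by
    rw [hj]
    exact Nat.pow_log_le_self K hdiv
  have h8 : n / n1 < K ^ (j + 1) := by
    rw [hj]
    exact Nat.lt_pow_succ_log_self (by omega) _
  have h9 : K ^ j * n1 ≤ n := (Nat.mul_le_mul_right n1 h7).trans (Nat.div_mul_le_self n n1)
  have h10 : n < K ^ (j + 1) * n1 := by
    rw [Nat.div_lt_iff_lt_mul (by omega)] at h8
    exact h8
  have hJj : J ≤ j := by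
    rw [hj]
    refine Nat.le_log_of_pow_le (by omega) ?_
    rw [Nat.le_div_iff_mul_le (by omega)]
    exact hn
  obtain ⟨m, hm, hm2⟩ := hex n
  refine ⟨m, hm, ?_⟩
  rw [← hm2]
  have h11 : (2 : ℝ) ^ j ≤ Fs n := (hpow j).trans (hmono _ _ h9)
  refine le_trans ?_ h11
  have hKθ : (K : ℝ) ^ θ = Real.sqrt 2 := by
    rw [Real.rpow_def_of_pos (by linarith), Real.sqrt_eq_rpow, Real.rpow_def_of_pos (by norm_num),
      hθd]
    congr 1
    field_simp
  have h12 : (n : ℝ) ^ θ ≤ ((K : ℝ) ^ (j + 1) * n1) ^ θ := by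
    refine Real.rpow_le_rpow (Nat.cast_nonneg n) ?_ hθ.le
    exact_mod_cast h10.le
  refine h12.trans ?_
  rw [Real.mul_rpow (by positivity) (Nat.cast_nonneg _), ← Real.rpow_natCast, ← Real.rpow_mul
    (by positivity), mul_comm (((j + 1 : ℕ) : ℝ)) θ, Real.rpow_mul (by positivity), hKθ,
    Real.rpow_natCast, pow_succ]
  have h13 : Real.sqrt 2 ^ J ≤ Real.sqrt 2 ^ j := by
    refine pow_le_pow_right₀ ?_ hJj
    rw [Real.one_le_sqrt]
    norm_num
  have h14 : (2 : ℝ) ^ j = Real.sqrt 2 ^ j * Real.sqrt 2 ^ j := by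
    rw [← mul_pow, Real.mul_self_sqrt (by norm_num)]
  rw [h14]
  have h15 : 0 ≤ Real.sqrt 2 ^ j := by positivity
  calc Real.sqrt 2 ^ j * Real.sqrt 2 * (n1 : ℝ) ^ θ = Real.sqrt 2 ^ j * ((n1 : ℝ) ^ θ * Real.sqrt 2) := by
        ring
    _ ≤ Real.sqrt 2 ^ j * Real.sqrt 2 ^ j := mul_le_mul_of_nonneg_left (hJ.trans h13) h15

end Pool.Agent.W_7d29a1_UC
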