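import Pool.Agent.W_7d29a1_AM.LemD73

/-!
The gradient at the upper configuration is large, for a general upper weight.
-/

namespace Pool.Agent.W_7d29a1_AM

open MeasureTheory ProbabilityTheory Filter Topology

variable {ρ : Measure ℝ} [IsProbabilityMeasure ρ] {β : ℝ}

/-- LemD for a general upper weight, without the stopping. -/
theorem lemX43 (hβ : 0 < β) (h1 : SiteP ρ β) (h2 : CouP ρ β) : ∃ C : ℝ, 0 < C ∧
    ∀ (l b' : ℝ) (f x : ℝ → ℝ), 0 < l → l ≤ 1 → 0 ≤ b' → Wt l 1 f x →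
      Wt l (-1) (fM l) (fun _ => 1) → (∀ v, 0 ≤ v → x v * v ≤ b') →
      ∀ (N : ℕ) (Vm V : (Fin N → ℝ) → ℝ) (pm p : Fin N → (Fin N → ℝ) → ℝ)
        (c : (Fin N → ℝ) → ℝ), Cls β Vm pm → Cls β V p → Measurable c → (∀ y, 0 ≤ c y) →
        (∃ M, ∀ y, c y ≤ M) → (∀ y y₁, V y₁ - c y₁ + β * ∑ i, (y i - y₁ i) * p i y₁ ≤ Vm y) →
          Ef ρ f V (fun y => x (V y) * (V y - c y)) - C * l * Nt ρ f x N V p ≤
            Ef ρ (fM l) Vm Vm + C * l * Nt ρ (fM l) (fun _ => 1) N Vm pm := by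
  obtain ⟨C0, hC0, hcou⟩ := h2
  refine ⟨2 * C0, by positivity, fun l b' f x hl hl1 hb' hP hM hxv => ?_⟩
  intro N
  induction N with
  | zero =>
    intro Vm V pm p c hVm hV hc hc0 hcb hH
    obtain ⟨y⟩ : Nonempty (Fin 0 → ℝ) := inferInstance
    rw [Ef_zero73 hP V _ y, Ef_zero73 hM Vm _ y]
    simp only [Nt, mul_zero, sub_zero, add_zero]
    have h3 := hH y y
    simp only [sub_self, zero_mul, Finset.sum_const_zero, mul_zero, add_zero] at h3
    have h4 := hVm.nonneg y
    rcases le_total 0 (V y - c y) with h7 | h7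
    · calc x (V y) * (V y - c y) ≤ 1 * (V y - c y) :=
            mul_le_mul_of_nonneg_right (hP.x1 _) h7
        _ ≤ Vm y := by linarith
    · have := mul_nonneg_of_nonpos_of_nonpos (neg_nonpos.2 (hP.x0 (V y))) h7
      nlinarith
  | succ N ih =>
    intro Vm V pm p c hVm hV hc hc0 hcb hH
    obtain ⟨Mc, hMc⟩ := hcb
    have hMc0 : 0 ≤ Mc := (hc0 (fun _ => 0)).trans (hMc _)
    -- the function `x (V - c)` is bounded
    have hF : ∀ y : Fin (N + 1) → ℝ, |x (V y) * (V y - c y)| ≤ b' + Mc := by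
      intro y
      have h3 := hxv (V y) (hV.nonneg y)
      have h4 := hP.x0 (V y)
      have h5 := hP.x1 (V y)
      have h6 := mul_nonneg h4 (hV.nonneg y)
      have h7 := mul_nonneg h4 (hc0 y)
      have h8 : x (V y) * c y ≤ Mc := by
        calc x (V y) * c y ≤ 1 * c y := mul_le_mul_of_nonneg_right h5 (hc0 y)
          _ ≤ Mc := by rw [one_mul]; exact hMc y
      rw [abs_le]
      constructor <;> nlinarith
    have hmF : Measurable fun y : Fin (N + 1) → ℝ => x (V y) * (V y - c y) :=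
      (hP.measx.comp hV.meas).mul (hV.meas.sub hc)
    obtain ⟨P, hPd⟩ : ∃ P, P = pif ρ f x V p := ⟨_, rfl⟩
    obtain ⟨P', hPd'⟩ : ∃ P', P' = pif ρ (fM l) (fun _ => 1) Vm pm := ⟨_, rfl⟩
    obtain ⟨MP, hMP⟩ := abs_f hP
    have hMP0 : 0 ≤ MP := (abs_nonneg _).trans (hMP 0 le_rfl)
    have hFf : ∀ y : Fin (N + 1) → ℝ,
        |x (V y) * (V y - c y) * f (V y)| ≤ (b' + Mc) * MP := by
      intro y
      rw [abs_mul]
      exact mul_le_mul (hF y) (hMP _ (hV.nonneg y)) (abs_nonneg _) (by linarith)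
    have hP0 : 0 ≤ P := by rw [hPd]; exact pif0 hP hV
    have hP0' : 0 ≤ P' := by rw [hPd']; exact pif0 hM hVm
    have S := h1 l 1 f x hl hl1 hP N V p hV
    have S' := h1 l (-1) (fM l) (fun _ => 1) hl hl1 hM N Vm pm hVm
    obtain ⟨a, ha⟩ : ∃ a : ℝ → ℝ, a = fun w => Ef ρ (fM l) (fx Vm w) (fx Vm w) +
      2 * C0 * l * Nt ρ (fM l) (fun _ => 1) N (fx Vm w) (fq pm w) := ⟨_, rfl⟩
    obtain ⟨E, hE⟩ : ∃ E : ℝ → ℝ, E = fun w => Ef ρ f (fx V w)
      (fx (fun y => x (V y) * (V y - c y)) w) := ⟨_, rfl⟩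
    obtain ⟨b, hb⟩ : ∃ b : ℝ → ℝ, b = fun w => E w -
      2 * C0 * l * Nt ρ f x N (fx V w) (fq p w) := ⟨_, rfl⟩
    have hEm : Measurable E := by rw [hE]; exact meas_Ef hP.measf hV.meas hmF
    have hEb : ∀ w, |E w| ≤ b' + Mc := fun w => by
      rw [hE]
      exact Ef_abs73 hP (cls_fx hV w) fun y => hF _
    have mNt := meas_Nt (ρ := ρ) hP.measf hP.measx hV.meas hV.measp
    have mNt' := meas_Nt (ρ := ρ) hM.measf hM.measx hVm.meas hVm.measp
    have bNt : ∀ w, |Nt ρ f x N (fx V w) (fq p w)| ≤ N := fun w => by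
      rw [abs_of_nonneg (Nt0 hP (cls_fx hV w))]; exact Nt1 hP (cls_fx hV w)
    have bNt' : ∀ w, |Nt ρ (fM l) (fun _ => 1) N (fx Vm w) (fq pm w)| ≤ N := fun w => by
      rw [abs_of_nonneg (Nt0 hM (cls_fx hVm w))]; exact Nt1 hM (cls_fx hVm w)
    have hbm : Measurable b := by
      rw [hb]
      exact hEm.sub (mNt.const_mul _)
    have ham : Measurable a := by
      rw [ha]
      exact (meas_Ef hM.measf hVm.meas hVm.meas).add (mNt'.const_mul _)
    have ha0 : ∀ w, 0 ≤ a w := by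
      intro w
      rw [ha]
      refine add_nonneg ?_ (mul_nonneg (by positivity) (Nt0 hM (cls_fx hVm w)))
      unfold Ef
      exact div_nonneg (integral_nonneg fun y => mul_nonneg (hVm.nonneg _) (hM.pos _).le)
        (gf_fx_pos hM hVm w).le
    have hbb : ∃ M, ∀ w, |b w| ≤ M := by
      refine ⟨(b' + Mc) + 2 * C0 * l * N, fun w => ?_⟩
      rw [hb]
      have k1 : |2 * C0 * l * Nt ρ f x N (fx V w) (fq p w)| ≤ 2 * C0 * l * N := by
        rw [abs_mul, abs_of_nonneg (by positivity : (0 : ℝ) ≤ 2 * C0 * l)]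
        exact mul_le_mul_of_nonneg_left (bNt w) (by positivity)
      exact (abs_sub _ _).trans (add_le_add (hEb w) k1)
    have haG : ∃ M, ∀ w, a w * gf ρ (fM l) (fx Vm w) ≤ M := by
      refine ⟨1 / l + 2 * C0 * l * N, fun w => ?_⟩
      have k0 := gf_fx_pos (ρ := ρ) hM hVm w
      have k1 : gf ρ (fM l) (fx Vm w) ≤ 1 := by
        unfold gf
        have := integral_mono (int_f (ρ := ρ) hM (cls_fx hVm w)) (integrable_const (1 : ℝ))
          fun y => fM_le73 hl.le (hVm.nonneg _)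
        simpa using this
      have k2 : Ef ρ (fM l) (fx Vm w) (fx Vm w) * gf ρ (fM l) (fx Vm w) ≤ 1 / l := by
        unfold Ef
        rw [div_mul_cancel₀ _ k0.ne']
        have : ∫ y, fx Vm w y * fM l (fx Vm w y) ∂PN ρ N ≤ ∫ y, 1 / l ∂PN ρ N := by
          refine integral_mono_of_nonneg (Eventually.of_forall fun y => mul_nonneg
            (hVm.nonneg _) (hM.pos _).le) (integrable_const _) (Eventually.of_forall fun y => ?_)
          exact mul_fM73 hl _
        simpa using this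
      rw [ha]
      have k3 : 2 * C0 * l * Nt ρ (fM l) (fun _ => 1) N (fx Vm w) (fq pm w) *
          gf ρ (fM l) (fx Vm w) ≤ 2 * C0 * l * N * 1 :=
        mul_le_mul (mul_le_mul_of_nonneg_left (Nt1 hM (cls_fx hVm w)) (by positivity)) k1 k0.le
          (by positivity)
      calc _ = Ef ρ (fM l) (fx Vm w) (fx Vm w) * gf ρ (fM l) (fx Vm w) +
            2 * C0 * l * Nt ρ (fM l) (fun _ => 1) N (fx Vm w) (fq pm w) *
              gf ρ (fM l) (fx Vm w) := by ring
        _ ≤ _ := by linarith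
    have hab : ∀ w w₁, w ≤ w₁ → b w₁ - β * (w₁ - w) * (Kf ρ f x V p w₁ /
        gf ρ f (fx V w₁)) ≤ a w := by
      intro w w₁ hw
      have hi := ih (fx Vm w) (fx V w₁) (fq pm w) (fq p w₁)
        (fun y => fx c w₁ y + β * (w₁ - w) * p 0 (Fin.cons w₁ y)) (cls_fx hVm w)
        (cls_fx hV w₁) ((meas_fx hc w₁).add ((meas_fx (hV.measp 0) w₁).const_mul _))
        (fun y => add_nonneg (hc0 _) (mul_nonneg (mul_nonneg hβ.le (by linarith)) (hV.p0 _ _)))
        ⟨Mc + β * (w₁ - w), fun y => add_le_add (hMc _) (by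
          have := mul_le_mul_of_nonneg_left (hV.p1 0 (Fin.cons w₁ y))
            (mul_nonneg hβ.le (by linarith : 0 ≤ w₁ - w))
          linarith)⟩
        (by
          intro y y₁
          have k1 := hH (Fin.cons w y) (Fin.cons w₁ y₁)
          rw [Fin.sum_univ_succ] at k1
          simp only [Fin.cons_zero, Fin.cons_succ] at k1
          simp only [fx, fq]
          linarith)
      have k0 := gf_fx_pos (ρ := ρ) hP hV w₁
      have hdec : Ef ρ f (fx V w₁) (fun y => x (fx V w₁ y) *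
          (fx V w₁ y - (fx c w₁ y + β * (w₁ - w) * p 0 (Fin.cons w₁ y)))) =
          E w₁ - β * (w₁ - w) * (Kf ρ f x V p w₁ / gf ρ f (fx V w₁)) := by
        rw [hE]
        simp only
        unfold Ef Kf
        rw [← mul_div_assoc, ← sub_div, ← integral_const_mul, ← integral_sub]
        · congr 1
          refine integral_congr_ae (Eventually.of_forall fun y => ?_)
          simp only [fx]
          ring
        · exact int_Ff hP (cls_fx hV w₁) (meas_fx hmF w₁) (M := (b' + Mc) * MP)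
            fun y => hFf _
        · refine Integrable.const_mul ?_ _
          refine int_Ff (F := fun y => p 0 (Fin.cons w₁ y) * x (fx V w₁ y)) hP (cls_fx hV w₁)
            ((meas_fx (hV.measp 0) w₁).mul (hP.measx.comp (meas_fx hV.meas w₁))) (M := 1 * MP)
            fun y => ?_
          rw [abs_mul]
          refine mul_le_mul ?_ (hMP _ (hV.nonneg _)) (abs_nonneg _) zero_le_one
          rw [abs_of_nonneg (mul_nonneg (hV.p0 _ _) (hP.x0 _))]
          exact mul_le_one₀ (hV.p1 _ _) (hP.x0 _) (hP.x1 _)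
      rw [hdec] at hi
      rw [hb, ha]
      simp only
      linarith
    have hc1 := hcou l (fun w => gf ρ f (fx V w)) (Kf ρ f x V p)
      (fun w => gf ρ (fM l) (fx Vm w)) (Kf ρ (fM l) (fun _ => 1) Vm pm) a b hl hl1 S S' ham hbm
      ha0 hbb haG hab
    rw [← pif_peel hP hV, ← pif_peel hM hVm, ← hPd, ← hPd'] at hc1
    -- the two sides
    have rI := rf_int (ρ := ρ) hP hV
    have rI' := rf_int (ρ := ρ) hM hVm
    have e1 : (∫ w, b w * gf ρ f (fx V w) ∂ρ) / (∫ w, gf ρ f (fx V w) ∂ρ) =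
        Ef ρ f V (fun y => x (V y) * (V y - c y)) -
          2 * C0 * l * (Nt ρ f x (N + 1) V p - P ^ 2) := by
      have k1 : (∫ w, b w * gf ρ f (fx V w) ∂ρ) / (∫ w, gf ρ f (fx V w) ∂ρ) =
          ∫ w, (rf ρ f V w * E w - 2 * C0 * l * (rf ρ f V w *
            Nt ρ f x N (fx V w) (fq p w))) ∂ρ := by
        rw [← gf_peel hP hV, ← integral_div]
        refine integral_congr_ae (Eventually.of_forall fun w => ?_)
        rw [hb]
        unfold rf
        simp only
        ring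
      have i1 := rf_mul_int (ρ := ρ) hP hV hEm hEb
      have i3 := rf_mul_int (ρ := ρ) hP hV mNt bNt
      rw [k1, integral_sub i1 (i3.const_mul _), integral_const_mul]
      have k3 : Nt ρ f x (N + 1) V p - P ^ 2 = ∫ w, rf ρ f V w *
          Nt ρ f x N (fx V w) (fq p w) ∂ρ := by
        simp only [Nt]
        rw [← hPd]
        ring
      rw [k3, Ef_peel hP hV hmF hFf, hE]
    have e2 : (∫ w, a w * gf ρ (fM l) (fx Vm w) ∂ρ) / (∫ w, gf ρ (fM l) (fx Vm w) ∂ρ) =
        Ef ρ (fM l) Vm Vm + 2 * C0 * l * (Nt ρ (fM l) (fun _ => 1) (N + 1) Vm pm - P' ^ 2) := by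
      have hVf : ∀ y : Fin (N + 1) → ℝ, |Vm y * fM l (Vm y)| ≤ 1 / l := fun y => by
        rw [abs_of_nonneg (mul_nonneg (hVm.nonneg _) (hM.pos _).le)]
        exact mul_fM73 hl _
      have k1 : (∫ w, a w * gf ρ (fM l) (fx Vm w) ∂ρ) / (∫ w, gf ρ (fM l) (fx Vm w) ∂ρ) =
          ∫ w, (rf ρ (fM l) Vm w * Ef ρ (fM l) (fx Vm w) (fx Vm w) + 2 * C0 * l *
            (rf ρ (fM l) Vm w * Nt ρ (fM l) (fun _ => 1) N (fx Vm w) (fq pm w))) ∂ρ := by
        rw [← gf_peel hM hVm, ← integral_div]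
        refine integral_congr_ae (Eventually.of_forall fun w => ?_)
        rw [ha]
        unfold rf
        simp only
        ring
      have i2 := rf_mul_int (ρ := ρ) hM hVm mNt' bNt'
      have i1 : Integrable (fun w => rf ρ (fM l) Vm w * Ef ρ (fM l) (fx Vm w) (fx Vm w)) ρ := by
        have hm : Measurable fun w => rf ρ (fM l) Vm w * Ef ρ (fM l) (fx Vm w) (fx Vm w) := by
          unfold rf
          exact ((meas_gf hM.measf hVm.meas).div_const _).mul
            (meas_Ef hM.measf hVm.meas hVm.meas)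
        refine Integrable.of_bound hm.aestronglyMeasurable (1 / l / gf ρ (fM l) Vm)
          (Eventually.of_forall fun w => ?_)
        have k0 := gf_fx_pos (ρ := ρ) hM hVm w
        have k00 := gf_pos (ρ := ρ) hM hVm
        have k2 : rf ρ (fM l) Vm w * Ef ρ (fM l) (fx Vm w) (fx Vm w) =
            (∫ y, fx Vm w y * fM l (fx Vm w y) ∂PN ρ N) / gf ρ (fM l) Vm := by
          unfold rf Ef
          field_simp
        have k3 : 0 ≤ ∫ y, fx Vm w y * fM l (fx Vm w y) ∂PN ρ N :=
          integral_nonneg fun y => mul_nonneg (hVm.nonneg _) (hM.pos _).le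
        have k4 : ∫ y, fx Vm w y * fM l (fx Vm w y) ∂PN ρ N ≤ ∫ y, 1 / l ∂PN ρ N := by
          refine integral_mono_of_nonneg (Eventually.of_forall fun y => mul_nonneg
            (hVm.nonneg _) (hM.pos _).le) (integrable_const _) (Eventually.of_forall fun y => ?_)
          exact mul_fM73 hl _
        simp only [integral_const, probReal_univ, smul_eq_mul, one_mul] at k4
        rw [k2, Real.norm_eq_abs, abs_of_nonneg (div_nonneg k3 k00.le)]
        exact div_le_div_of_nonneg_right k4 k00.le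
      rw [k1, integral_add i1 (i2.const_mul _), integral_const_mul]
      have k3 : Nt ρ (fM l) (fun _ => 1) (N + 1) Vm pm - P' ^ 2 = ∫ w, rf ρ (fM l) Vm w *
          Nt ρ (fM l) (fun _ => 1) N (fx Vm w) (fq pm w) ∂ρ := by
        simp only [Nt]
        rw [← hPd']
        ring
      rw [k3, Ef_peel hM hVm hVm.meas hVf]
    rw [e1, e2] at hc1
    have hfin : C0 * l * P * (P + P') ≤ 2 * C0 * l * P ^ 2 + 2 * C0 * l * P' ^ 2 := by
      have : P * (P + P') ≤ 2 * P ^ 2 + 2 * P' ^ 2 := by nlinarith [sq_nonneg (P - P')]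
      have h3 := mul_le_mul_of_nonneg_left this (by positivity : 0 ≤ C0 * l)
      linarith
    nlinarith [hc1, hfin]

end Pool.Agent.W_7d29a1_AM
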