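import Pool.Agent.W_7d29a1_UC.Win43
import Pool.Agent.W_7d29a1_UC.LemX43

/-!
Deep lower deviations force upper deviations of probability one quarter.
-/

namespace Pool.Agent.W_7d29a1_AM

open MeasureTheory ProbabilityTheory Filter Topology

variable {ρ : Measure ℝ} [IsProbabilityMeasure ρ] {β : ℝ}

lemma fW_ge {l a b : ℝ} (hl : 0 ≤ l) (hab : a ≤ b) (v : ℝ) : 1 ≤ fW l a b v := by
  unfold fW
  exact Real.one_le_exp (mul_nonneg hl (Wn0 hab v))

lemma fW_le {l a b : ℝ} (hl : 0 ≤ l) (hab : a ≤ b) (v : ℝ) :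
    fW l a b v ≤ Real.exp (l * (b - a)) := by
  unfold fW
  exact Real.exp_le_exp.2 (mul_le_mul_of_nonneg_left (Wn_le hab v) hl)

/-- the upper side -/
lemma up43 {N : ℕ} {V : (Fin N → ℝ) → ℝ} {p : Fin N → (Fin N → ℝ) → ℝ} (hV : Cls β V p)
    {l s w : ℝ} (hl0 : 0 < l) (hl1 : l ≤ 1 / 2) (hs : 4 ≤ s) (hw : 0 ≤ w)
    (hκ : l * (w + 8) ≤ 1 / 10)
    (h1 : 1 / 4 < (PN ρ N).real {y | s ≤ V y ∧ V y < s + w}) :
    s / 9 ≤ Ef ρ (fW l (s - 4) (s + w + 4)) V
      (fun y => xn (s - 4) (s + w + 4) (V y) * (V y - 0)) := by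
  have hab : s - 4 ≤ s + w + 4 := by linarith
  have hW := win43 hl0 hl1 hab
  have hg := gf_pos (ρ := ρ) hW hV
  unfold Ef
  rw [le_div_iff₀ hg]
  have hS : MeasurableSet {y | s ≤ V y ∧ V y < s + w} :=
    (measurableSet_le measurable_const hV.meas).inter (measurableSet_lt hV.meas measurable_const)
  have hF : ∀ y, |xn (s - 4) (s + w + 4) (V y) * (V y - 0)| ≤ s + w + 4 + 2 := by
    intro y
    rw [sub_zero, abs_of_nonneg (mul_nonneg (xn0 hab _) (hV.nonneg y))]
    exact xn_mul (by linarith) (hV.nonneg y)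
  have hmF : Measurable fun y => xn (s - 4) (s + w + 4) (V y) * (V y - 0) :=
    (hW.measx.comp hV.meas).mul (hV.meas.sub measurable_const)
  have hI := int_Ff (ρ := ρ) hW hV hmF
    (M := (s + w + 4 + 2) * Real.exp (l * (s + w + 4 - (s - 4)))) fun y => by
      rw [abs_mul, abs_of_pos (hW.pos _)]
      exact mul_le_mul (hF y) (fW_le hl0.le hab (V y)) (hW.pos _).le (by linarith)
  have h2 : gf ρ (fW l (s - 4) (s + w + 4)) V ≤ 10 / 9 := by
    unfold gf
    have h3 := integral_mono (int_f (ρ := ρ) hW hV) (integrable_const (Real.exp (1 / 10)))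
      (fun y => (fW_le hl0.le hab (V y)).trans (Real.exp_le_exp.2 (by
        have : s + w + 4 - (s - 4) = w + 8 := by ring
        rw [this]; exact hκ)))
    have h4 : Real.exp (1 / 10) ≤ 10 / 9 := by
      have h5 := Real.add_one_le_exp (-(1 / 10 : ℝ))
      have h6 : Real.exp (1 / 10) * Real.exp (-(1 / 10)) = 1 := by
        rw [← Real.exp_add]; simp
      have h7 := Real.exp_pos (1 / 10 : ℝ)
      nlinarith
    refine h3.trans ?_
    rw [integral_const, probReal_univ, one_smul]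
    exact h4
  have h5 : (PN ρ N).real {y | s ≤ V y ∧ V y < s + w} * (s / 2) ≤
      ∫ y, xn (s - 4) (s + w + 4) (V y) * (V y - 0) * fW l (s - 4) (s + w + 4) (V y) ∂PN ρ N := by
    rw [← smul_eq_mul, ← integral_indicator_const _ hS]
    refine integral_mono_of_nonneg (Eventually.of_forall fun y =>
      Set.indicator_nonneg (fun _ _ => by linarith) _) hI (Eventually.of_forall fun y => ?_)
    by_cases hy : y ∈ {y | s ≤ V y ∧ V y < s + w}
    · rw [Set.indicator_of_mem hy]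
      have h6 := xn_half (a := s - 4) (b := s + w + 4) (v := V y) (by linarith [hy.1])
        (by linarith [hy.2])
      have h7 := fW_ge hl0.le hab (V y)
      have h8 : s / 2 ≤ xn (s - 4) (s + w + 4) (V y) * (V y - 0) := by
        have h9 : (1 / 2) * s ≤ xn (s - 4) (s + w + 4) (V y) * (V y - 0) :=
          mul_le_mul h6 (by rw [sub_zero]; exact hy.1) (by linarith) (by linarith)
        linarith
      calc s / 2 = s / 2 * 1 := by ring
        _ ≤ _ := mul_le_mul h8 h7 zero_le_one (by linarith)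
    · rw [Set.indicator_of_notMem hy]
      exact mul_nonneg (mul_nonneg (xn0 hab _) (by rw [sub_zero]; exact hV.nonneg y))
        (hW.pos _).le
  nlinarith

/-- the lower side -/
lemma dn43 (h0 : WtP) {c : ℝ} (hK : ∀ (l σ : ℝ) (f x : ℝ → ℝ), 0 < l → l ≤ 1 →
    (σ = 1 ∨ σ = -1) → Wt l σ f x → ∀ (N : ℕ) (V : (Fin N → ℝ) → ℝ)
    (p : Fin N → (Fin N → ℝ) → ℝ), Cls β V p →
      c * l ^ 2 * Nt ρ f x N V p ≤ Ef ρ f V (fun y => Real.log (f (V y))) - Real.log (gf ρ f V))
    {N : ℕ} {V : (Fin N → ℝ) → ℝ} {p : Fin N → (Fin N → ℝ) → ℝ} (hV : Cls β V p)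
    {l q : ℝ} (hl0 : 0 < l) (hl1 : l ≤ 1 / 2) (hq : 0 < q)
    (h1 : q ≤ (PN ρ N).real {y | V y ≤ Real.log 2}) :
    l * Ef ρ (fM l) V V + c * l ^ 2 * Nt ρ (fM l) (fun _ => 1) N V p ≤
      1 + Real.log (1 / q) := by
  obtain ⟨-, hM⟩ := h0 l 0 hl0 (by linarith) le_rfl
  have hg := gf_pos (ρ := ρ) hM hV
  have h2 := hK l (-1) (fM l) (fun _ => 1) hl0 (by linarith) (Or.inr rfl) hM N V p hV
  have h3 : Ef ρ (fM l) V (fun y => Real.log (fM l (V y))) = -(l * Ef ρ (fM l) V V) := by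
    unfold Ef
    have h4 : ∀ y, Real.log (fM l (V y)) * fM l (V y) = -l * (V y * fM l (V y)) := by
      intro y
      have : Real.log (fM l (V y)) = -(l * V y) := by unfold fM; rw [Real.log_exp]
      rw [this]
      ring
    simp only [h4]
    rw [integral_const_mul]
    ring
  rw [h3] at h2
  have hS : MeasurableSet {y | V y ≤ Real.log 2} := measurableSet_le hV.meas measurable_const
  have h5 : q / 2 ≤ gf ρ (fM l) V := by
    have h6 : (PN ρ N).real {y | V y ≤ Real.log 2} * (1 / 2) ≤ gf ρ (fM l) V := by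
      unfold gf
      rw [← smul_eq_mul, ← integral_indicator_const _ hS]
      refine integral_mono_of_nonneg (Eventually.of_forall fun y =>
        Set.indicator_nonneg (fun _ _ => by norm_num) _) (int_f hM hV)
        (Eventually.of_forall fun y => ?_)
      by_cases hy : y ∈ {y | V y ≤ Real.log 2}
      · rw [Set.indicator_of_mem hy]
        have h7 : V y ≤ Real.log 2 := hy
        have h8 : l * V y ≤ Real.log 2 := by
          have h9 := hV.nonneg y
          nlinarith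
        have h10 : (1 : ℝ) / 2 = Real.exp (-Real.log 2) := by
          rw [Real.exp_neg, Real.exp_log (by norm_num)]; norm_num
        unfold fM
        rw [h10]
        exact Real.exp_le_exp.2 (by linarith)
      · rw [Set.indicator_of_notMem hy]
        exact (hM.pos _).le
    linarith
  have h6 : Real.log (q / 2) ≤ Real.log (gf ρ (fM l) V) := Real.log_le_log (by positivity) h5
  have h7 : Real.log (q / 2) = -Real.log (1 / q) - Real.log 2 := by
    rw [Real.log_div hq.ne' (by norm_num), one_div, Real.log_inv]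
    ring
  have h8 := Real.log_two_lt_d9
  linarith

/-- **Deep lower deviations force upper deviations.** -/
theorem ampT43 (hβ : 0 < β) (h0 : WtP) (hS : SiteP ρ β) (hCou : CouP ρ β) (hK : LemK ρ β) :
    ∃ C : ℝ, 1 ≤ C ∧ ∀ (N : ℕ) (V : (Fin N → ℝ) → ℝ) (p : Fin N → (Fin N → ℝ) → ℝ),
      Cls β V p → ∀ q s : ℝ, 0 < q → q ≤ 1 / 2 → C * (1 + Real.log (1 / q)) ≤ s →
        q ≤ (PN ρ N).real {y | V y ≤ Real.log 2} → 1 / 2 ≤ (PN ρ N).real {y | s ≤ V y} →
          1 / 4 ≤ (PN ρ N).real {y | s + s / (C * (1 + Real.log (1 / q))) ≤ V y} := by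
  obtain ⟨CD, hCD, hX⟩ := lemX43 hβ hS hCou
  obtain ⟨cK, hcK, hK⟩ := hK
  obtain ⟨r, hr⟩ : ∃ r, r = CD / cK := ⟨_, rfl⟩
  have hr0 : 0 < r := by rw [hr]; positivity
  have hCr : CD = r * cK := by rw [hr]; field_simp
  obtain ⟨K, hKd⟩ : ∃ K, K = 100 * (1 + r) := ⟨_, rfl⟩
  refine ⟨90 * K, by nlinarith, fun N V p hV q s hq hq2 hs h1 h2 => ?_⟩
  obtain ⟨L, hL⟩ : ∃ L, L = 1 + Real.log (1 / q) := ⟨_, rfl⟩
  have hlq : 0 ≤ Real.log (1 / q) := Real.log_nonneg (by rw [le_div_iff₀ hq]; linarith)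
  have hL1 : 1 ≤ L := by rw [hL]; linarith
  rw [← hL] at hs ⊢
  have hK0 : 100 ≤ K := by nlinarith
  have hKL : K ≤ K * L := by nlinarith
  have hs0 : 90 * K ≤ s := by nlinarith
  have hspos : 0 < s := by linarith
  obtain ⟨w, hw⟩ : ∃ w, w = s / (90 * K * L) := ⟨_, rfl⟩
  obtain ⟨l, hl⟩ : ∃ l, l = K * L / s := ⟨_, rfl⟩
  rw [← hw]
  have hw0 : 0 ≤ w := by rw [hw]; positivity
  have hws : w * (90 * K * L) = s := by rw [hw]; field_simp
  have hls : l * s = K * L := by rw [hl]; field_simp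
  have hl0 : 0 < l := by rw [hl]; positivity
  have hl90 : 90 * l ≤ 1 := by
    rw [hl, ← mul_div_assoc, div_le_one hspos]
    linarith
  have hlw : l * w = 1 / 90 := by
    rw [hl, hw]
    field_simp
  have hκ : l * (w + 8) ≤ 1 / 10 := by
    rw [mul_add, hlw]
    linarith
  by_contra hcon
  rw [not_le] at hcon
  have h3 : 1 / 4 < (PN ρ N).real {y | s ≤ V y ∧ V y < s + w} := by
    have h4 : {y | s ≤ V y} ⊆ {y | s ≤ V y ∧ V y < s + w} ∪ {y | s + w ≤ V y} := by
      intro y (hy : s ≤ V y)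
      rcases lt_or_ge (V y) (s + w) with h | h
      · exact Or.inl ⟨hy, h⟩
      · exact Or.inr h
    have h5 := (measureReal_mono (μ := PN ρ N) h4).trans (measureReal_union_le _ _)
    linarith
  have hab : s - 4 ≤ s + w + 4 := by linarith
  have hP := win43 hl0 (by linarith : l ≤ 1 / 2) hab
  obtain ⟨-, hM⟩ := h0 l 0 hl0 (by linarith) le_rfl
  have hU := up43 (ρ := ρ) hV hl0 (by linarith) (by linarith) hw0 hκ h3
  have hD := dn43 h0 hK hV hl0 (by linarith) hq h1
  rw [← hL] at hD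
  have hKu := hK l 1 _ _ hl0 (by linarith) (Or.inl rfl) hP N V p hV
  have hx := hX l (s + w + 4 + 2) _ _ hl0 (by linarith) (by linarith) hP hM
    (fun v hv => xn_mul (by linarith) hv) N V V p p (fun _ => 0) hV hV measurable_const
    (fun _ => le_rfl) ⟨0, fun _ => le_rfl⟩ (fun y y₁ => by
      rw [sub_zero]
      exact hV.conv y₁ y)
  -- the entropy of the window
  obtain ⟨Nu, hNu⟩ : ∃ Nu, Nu = Nt ρ (fW l (s - 4) (s + w + 4)) (xn (s - 4) (s + w + 4)) N V p :=
    ⟨_, rfl⟩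
  obtain ⟨Nd, hNd⟩ : ∃ Nd, Nd = Nt ρ (fM l) (fun _ => 1) N V p := ⟨_, rfl⟩
  have hNd0 : 0 ≤ Nd := by rw [hNd]; exact Nt0 hM hV
  obtain ⟨Eu, hEu⟩ : ∃ Eu, Eu = Ef ρ (fM l) V V := ⟨_, rfl⟩
  have hEu0 : 0 ≤ Eu := by
    rw [hEu]
    unfold Ef
    exact div_nonneg (integral_nonneg fun y => mul_nonneg (hV.nonneg _) (hM.pos _).le)
      (gf_pos hM hV).le
  have hg1 : 1 ≤ gf ρ (fW l (s - 4) (s + w + 4)) V := by
    unfold gf
    have := integral_mono (integrable_const (μ := PN ρ N) (1 : ℝ)) (int_f (ρ := ρ) hP hV)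
      fun y => fW_ge hl0.le hab (V y)
    simpa using this
  have hlg : 0 ≤ Real.log (gf ρ (fW l (s - 4) (s + w + 4)) V) := Real.log_nonneg hg1
  have hEl : Ef ρ (fW l (s - 4) (s + w + 4)) V
      (fun y => Real.log (fW l (s - 4) (s + w + 4) (V y))) ≤ l * (w + 8) := by
    have h4 : ∀ y, |Real.log (fW l (s - 4) (s + w + 4) (V y))| ≤ l * (w + 8) := by
      intro y
      have h5 : Real.log (fW l (s - 4) (s + w + 4) (V y)) = l * Wn (s - 4) (s + w + 4) (V y) := by
        unfold fW; rw [Real.log_exp]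
      rw [h5, abs_of_nonneg (mul_nonneg hl0.le (Wn0 hab _))]
      refine mul_le_mul_of_nonneg_left ((Wn_le hab _).trans (by linarith)) hl0.le
    exact (le_abs_self _).trans (Ef_abs73 hP hV h4)
  rw [← hNu] at hKu hx
  rw [← hNd, ← hEu] at hD hx
  have k1 : cK * l ^ 2 * Nu ≤ l * (w + 8) := by linarith
  have k2 : cK * l * Nu ≤ w + 8 := by
    have : l * (cK * l * Nu) ≤ l * (w + 8) := by
      calc l * (cK * l * Nu) = cK * l ^ 2 * Nu := by ring
        _ ≤ _ := k1
    exact le_of_mul_le_mul_left this hl0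
  have k3 : CD * l * Nu ≤ r * (w + 8) := by
    rw [hCr]
    calc r * cK * l * Nu = r * (cK * l * Nu) := by ring
      _ ≤ _ := mul_le_mul_of_nonneg_left k2 hr0.le
  -- `w + 8 ≤ s / (10 K)`
  have k4 : (w + 8) * (10 * K) ≤ s := by
    have h5 : w * (90 * K) ≤ s := by
      rw [← hws]
      exact mul_le_mul_of_nonneg_left (by nlinarith) hw0
    nlinarith
  have k5 : CD * l * Nu ≤ s / 1000 := by
    have h5 : r * (w + 8) * 1000 ≤ (w + 8) * (10 * K) := by
      have : 0 ≤ w + 8 := by linarith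
      rw [hKd]
      nlinarith
    linarith
  have k6 : l * Eu ≤ L := by
    have : 0 ≤ cK * l ^ 2 * Nd := by positivity
    linarith
  have k7 : Eu ≤ s / 100 := by
    have h5 : l * Eu ≤ l * (s / 100) := by
      have : L * 100 ≤ K * L := by nlinarith
      have h6 : l * (s / 100) = K * L / 100 := by rw [← hls]; ring
      rw [h6]
      linarith
    exact le_of_mul_le_mul_left h5 hl0
  have k8 : CD * l * Nd ≤ s / 100 := by
    have h5 : cK * l ^ 2 * Nd ≤ L := by
      have : 0 ≤ l * Eu := mul_nonneg hl0.le hEu0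
      linarith
    have h6 : l * (CD * l * Nd) ≤ l * (s / 100) := by
      rw [hCr]
      have h7 := mul_le_mul_of_nonneg_left h5 hr0.le
      have h8 : l * (s / 100) = K * L / 100 := by rw [← hls]; ring
      rw [h8]
      have h9 : r * L * 100 ≤ K * L := by rw [hKd]; nlinarith
      calc l * (r * cK * l * Nd) = r * (cK * l ^ 2 * Nd) := by ring
        _ ≤ r * L := h7
        _ ≤ _ := by linarith
    exact le_of_mul_le_mul_left h6 hl0
  linarith

end Pool.Agent.W_7d29a1_AM
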