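import Pool.Agent.W_7d29a1_UC.AllV43
import Pool.Agent.W_7d29a1_UC.AmpT43
import Pool.Agent.W_7d29a1_AM.AmpU5

/-!
Deep lower deviations force upper deviations: the free energy, every law.
-/

namespace Pool.Agent.W_7d29a1_UC

open MeasureTheory ProbabilityTheory Filter Topology Pool.Agent.W_MP_7d29a1_pr
  Pool.Agent.W_7d29a1_h46 Pool.Agent.W_7d29a1_h46u Pool.Agent.W_7d29a1_Q29
open Pool.Agent.W_7d29a1_AM (WtP SiteP CouP LemK PN ampT43 cls5)
open Pool.Agent.W_7d29a1_AM.U5 (cw At Nn pr V_pr law_pr meas_pr log_le)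

variable {ρ : Measure ℝ} [IsProbabilityMeasure ρ] {d : ℕ} {β : ℝ}

/-- DEEP for every law with exponential moments. -/
theorem deepU43 (hd : 0 < d) (hρ : EM ρ) (hβ : 0 < β) (h0 : WtP) (hS : SiteP ρ β)
    (hCou : CouP ρ β) (hK : LemK ρ β) : DeepP d ρ β := by
  obtain ⟨C, hC1, hC⟩ := ampT43 hβ h0 hS hCou hK
  intro Λ hΛ
  obtain ⟨T, hT⟩ : ∃ T : ℝ, T = 20 * ((Λ + 3) * C) := ⟨_, rfl⟩
  have hT80 : 80 ≤ T := by
    have : 4 ≤ (Λ + 3) * C := by nlinarith
    linarith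
  refine ⟨T ^ 2, 1 / 4, 1, by norm_num, fun h m K hV hK0 hp => ?_⟩
  obtain ⟨σ, hσd⟩ : ∃ σ : ℝ, σ = Real.sqrt (Va ρ β h m) := ⟨_, rfl⟩
  have hσ1 : 1 ≤ σ := by
    rw [hσd]
    exact Real.one_le_sqrt.2 hV
  have hσV : σ ^ 2 = Va ρ β h m := by rw [hσd]; exact Real.sq_sqrt (by linarith)
  rw [← hσd] at hp ⊢
  obtain ⟨R, hR⟩ : ∃ R : ℝ, R = Real.sqrt K := ⟨_, rfl⟩
  have hKpos : 0 < K := lt_of_lt_of_le (by positivity) hK0
  have hRT : T ≤ R := by
    rw [hR]
    exact Real.le_sqrt_of_sq_le hK0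
  have hRK : R ^ 2 = K := by rw [hR]; exact Real.sq_sqrt hKpos.le
  have hR80 : 80 ≤ R := hT80.trans hRT
  have hR0 : 0 < R := by linarith
  obtain ⟨q, hq⟩ : ∃ q : ℝ, q = 1 / (2 * K ^ 4) := ⟨_, rfl⟩
  rw [← hq] at hp
  have hK1 : 1 ≤ K := by nlinarith
  have hq0 : 0 < q := by rw [hq]; positivity
  have hq2 : q ≤ 1 / 2 := by
    rw [hq]
    refine one_div_le_one_div_of_le (by norm_num) ?_
    have := one_le_pow₀ hK1 (n := 4)
    linarith
  obtain ⟨L, hL⟩ : ∃ L : ℝ, L = 1 + Real.log (1 / q) := ⟨_, rfl⟩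
  have hL1 : 1 ≤ L := by
    have : 0 ≤ Real.log (1 / q) := Real.log_nonneg (by rw [le_div_iff₀ hq0]; linarith)
    linarith
  have hLR : L ≤ 10 * R := by
    have h1 : (1 : ℝ) / q = 2 * R ^ 8 := by
      rw [hq, ← hRK]
      field_simp
    rw [hL, h1, Real.log_mul (by norm_num) (by positivity), Real.log_pow]
    have h2 := Real.log_le_sub_one_of_pos hR0
    have h3 := Real.log_two_lt_d9
    push_cast
    linarith
  obtain ⟨s, hs⟩ : ∃ s : ℝ, s = (K - 2) * σ := ⟨_, rfl⟩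
  have hK2 : 10 * ((Λ + 3) * C) * R ≤ K - 2 := by
    have h1 : T * R ≤ R * R := mul_le_mul_of_nonneg_right hRT hR0.le
    rw [hT] at h1
    nlinarith
  have hsC : (Λ + 3) * (C * L) ≤ K - 2 := by
    refine le_trans ?_ hK2
    have h1 : 0 ≤ (Λ + 3) * C := by positivity
    have := mul_le_mul_of_nonneg_left hLR h1
    linarith
  have hCL : 0 < C * L := by positivity
  have hsL : C * L ≤ s := by
    have h1 : C * L ≤ K - 2 := by nlinarith
    rw [hs]
    nlinarith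
  have hsw : (Λ + 3) * σ ≤ s / (C * L) := by
    rw [le_div_iff₀ hCL, hs]
    calc (Λ + 3) * σ * (C * L) = (Λ + 3) * (C * L) * σ := by ring
      _ ≤ _ := mul_le_mul_of_nonneg_right hsC (by linarith)
  obtain ⟨s₀, hs0⟩ : ∃ s₀ : ℝ, s₀ = A ρ β h m - K * σ := ⟨_, rfl⟩
  rw [← hs0] at hp
  -- the class
  have hc : ∀ k, 0 ≤ cw h m k := fun k => (Real.exp_pos _).le
  have mX := measurable_X (d := d) β h m
  have mV := (cls5 hβ.le hc (At (d := d)) s₀).meas
  have hVp := V_pr hd β h m s₀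
  have hlaw : ∀ T : Set ℝ, MeasurableSet T →
      (PN ρ (Nn d m)).real {y | Pool.Agent.W_7d29a1_AM.C5.V β (cw h m) At s₀ y ∈ T} =
      (law d ρ).real {η | Real.log (1 + Real.exp (X β h η m - s₀)) ∈ T} := fun T hT => by
    have mS : MeasurableSet {y | Pool.Agent.W_7d29a1_AM.C5.V β (cw h m) At s₀ y ∈ T} := mV hT
    rw [← law_pr, map_measureReal_apply (meas_pr m) mS]
    congr 1
    ext η
    show Pool.Agent.W_7d29a1_AM.C5.V β (cw h m) At s₀ (pr d m η) ∈ T ↔
      Real.log (1 + Real.exp (X β h η m - s₀)) ∈ T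
    rw [hVp]
  have e0 := hlaw (Set.Iic (Real.log 2)) measurableSet_Iic
  have e1 := hlaw (Set.Ici s) measurableSet_Ici
  have e2 := hlaw (Set.Ici (s + s / (C * L))) measurableSet_Ici
  simp only [Set.mem_Iic, Set.mem_Ici] at e0 e1 e2
  -- the lower event
  have k0 : q ≤ (PN ρ (Nn d m)).real
      {y | Pool.Agent.W_7d29a1_AM.C5.V β (cw h m) At s₀ y ≤ Real.log 2} := by
    rw [e0]
    refine hp.trans (measureReal_mono fun η (hη : X β h η m ≤ s₀) => ?_)
    show Real.log (1 + Real.exp (X β h η m - s₀)) ≤ Real.log 2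
    apply Real.log_le_log (by positivity)
    have : Real.exp (X β h η m - s₀) ≤ 1 := Real.exp_le_one_iff.2 (by linarith)
    linarith
  -- the upper event
  have k1 : 1 / 2 ≤ (PN ρ (Nn d m)).real
      {y | s ≤ Pool.Agent.W_7d29a1_AM.C5.V β (cw h m) At s₀ y} := by
    rw [e1]
    have hI : Integrable (fun η => (X β h η m - A ρ β h m) ^ 2) (law d ρ) :=
      Pool.Agent.W_7d29a1_R34.integrable_cen13 hd hρ β h m
    have h3 := mul_meas_ge_le_integral_of_nonneg (μ := law d ρ)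
      (Eventually.of_forall fun η => sq_nonneg (X β h η m - A ρ β h m)) hI ((2 * σ) ^ 2)
    have h4 : ∫ η, (X β h η m - A ρ β h m) ^ 2 ∂(law d ρ) = σ ^ 2 := by rw [hσV]; rfl
    rw [h4] at h3
    have h5 : (law d ρ).real {η | (2 * σ) ^ 2 ≤ (X β h η m - A ρ β h m) ^ 2} ≤ 1 / 4 := by
      have h6 : 0 < σ ^ 2 := by positivity
      have h7 : σ ^ 2 * ((law d ρ).real {η | (2 * σ) ^ 2 ≤ (X β h η m - A ρ β h m) ^ 2} * 4) ≤
          σ ^ 2 * 1 := by
        calc _ = (2 * σ) ^ 2 *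
              (law d ρ).real {η | (2 * σ) ^ 2 ≤ (X β h η m - A ρ β h m) ^ 2} := by ring
          _ ≤ σ ^ 2 := h3
          _ = _ := by ring
      have := le_of_mul_le_mul_left h7 h6
      linarith
    have h6 : (Set.univ : Set (Env d)) ⊆ {η | (2 * σ) ^ 2 ≤ (X β h η m - A ρ β h m) ^ 2} ∪
        {η | s ≤ Real.log (1 + Real.exp (X β h η m - s₀))} := by
      intro η _
      by_cases hη : (2 * σ) ^ 2 ≤ (X β h η m - A ρ β h m) ^ 2
      · exact Or.inl hη
      · right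
        show s ≤ Real.log (1 + Real.exp (X β h η m - s₀))
        have h7 : -(2 * σ) < X β h η m - A ρ β h m :=
          (abs_lt_of_sq_lt_sq' (not_le.1 hη) (by linarith)).1
        rw [Real.le_log_iff_exp_le (by positivity)]
        have : Real.exp s ≤ Real.exp (X β h η m - s₀) :=
          Real.exp_le_exp.2 (by rw [hs, hs0]; linarith)
        linarith
    have h7 := (measureReal_mono (μ := law d ρ) h6).trans (measureReal_union_le _ _)
    rw [probReal_univ] at h7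
    linarith
  have key := hC (Nn d m) _ _ (cls5 hβ.le hc (At (d := d)) s₀) q s hq0 hq2
    (by rw [← hL]; exact hsL) k0 k1
  rw [← hL, e2] at key
  refine key.trans (measureReal_mono fun η hη => ?_)
  have h1 : s + s / (C * L) ≤ Real.log (1 + Real.exp (X β h η m - s₀)) := hη
  show A ρ β h m + Λ * σ ≤ X β h η m
  have h2 := log_le (X β h η m - s₀)
  have h3 := Real.log_two_lt_d9
  have h4 : 0 ≤ s := by
    have : 0 ≤ C * L := hCL.le
    linarith
  have h5 : (Λ + 3) * σ ≤ max (X β h η m - s₀) 0 - s + 1 := by linarith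
  rcases le_total (X β h η m - s₀) 0 with h6 | h6
  · rw [max_eq_right h6] at h5
    nlinarith
  · rw [max_eq_left h6] at h5
    rw [hs, hs0] at h5
    nlinarith

end Pool.Agent.W_7d29a1_UC
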