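import Pool.Agent.W_7d29a1_UC.MainW43
import Pool.Agent.W_7d29a1_UC.DeepU43
import Pool.Agent.W_7d29a1_AM.AmpC94
import Pool.Agent.W_7d29a1_AM.LemG66
import Pool.Agent.W_7d29a1_AM.Con73
import Pool.Agent.W_7d29a1_AM.Cou35
import Pool.Agent.W_7d29a1_AM.SiteP86
import Pool.Agent.W_7d29a1_AM.LemD73
import Pool.Agent.W_7d29a1_AM.LemK44

/-!
Power-law fluctuations of the free energy or quadratic growth of the energy gap, for every law with
exponential moments, every dimension, every tilt of very strong disorder: no hypothesis.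
-/

namespace Pool.Agent.W_7d29a1_UC

open MeasureTheory ProbabilityTheory Filter Topology Pool.Agent.W_MP_7d29a1_pr
  Pool.Agent.W_7d29a1_h46 Pool.Agent.W_7d29a1_h46u Pool.Agent.W_7d29a1_Q29
open Pool.Agent.W_7d29a1_AM (AmpU AmpC WtP SiteP ConP CouP LemK LemD LemG wt64 siteP86 conP73
  couP35 lemK44 lemD73 lemG66 ampC94 ampU5)

variable {ρ : Measure ℝ} [IsProbabilityMeasure ρ] {d : ℕ} {β : ℝ}

/-- AMP for every law. -/
theorem ampA43 (hd : 0 < d) (hρ : EM ρ) (hnc : ∀ c : ℝ, ρ {c} ≠ 1) (hβ : 0 < β) : AmpU ρ β d := by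
  have hS : SiteP ρ β := siteP86 hβ
  have hC : ConP ρ β := conP73 hρ hnc hβ
  exact ampU5 hd hρ hβ.le (ampC94 hρ hβ wt64 (lemD73 hβ wt64 hS (couP35 hρ hβ hC)) (lemK44 hS hC)
    (lemG66 hρ hβ wt64 hS hC))

/-- DEEP for every law. -/
theorem deepA43 (hd : 0 < d) (hρ : EM ρ) (hnc : ∀ c : ℝ, ρ {c} ≠ 1) (hβ : 0 < β) :
    DeepP d ρ β := by
  have hS : SiteP ρ β := siteP86 hβ
  have hC : ConP ρ β := conP73 hρ hnc hβ
  exact deepU43 hd hρ hβ wt64 hS (couP35 hρ hβ hC) (lemK44 hS hC)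

/-- **THEOREM UC, every law, every large time.** -/
theorem mainWA43 (hd : 0 < d) (hρ : EM ρ) (hnc : ∀ c : ℝ, ρ {c} ≠ 1) (hβ : 0 < β) :
    MainW d ρ β :=
  mainW43 hd hρ (mainVU43 hd hρ hnc hβ (ampA43 hd hρ hnc hβ)) (ampA43 hd hρ hnc hβ)
    (deepA43 hd hρ hnc hβ) (inf43 hd hρ hnc hβ)

/-- **The clause, in the letters of the problem**: every law which is not a point mass and has all
exponential moments, every dimension, every tilt with `lam < ann`. Either the square of the energy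
gap at `n` is at least `C` times the variance of `log Z_m` for all `m ≤ n`, infinitely often, or the
variance of `log Z_n` is at least a power of `n`, for all large `n`. -/
theorem clauseWA43 {Ω : Type*} [MeasurableSpace Ω] {μ : Measure Ω} [IsProbabilityMeasure μ]
    {ω : ℕ × Site d → Ω → ℝ} (hd : 0 < d)
    (hω : IID μ ρ ω) (hρ : EM ρ) (hnc : ∀ c : ℝ, ρ {c} ≠ 1) (hβ : 0 < β) :
    ∀ h : Vec d, lamN ρ β h < annN ρ β h → ∀ C : ℝ, ∃ θ : ℝ, 0 < θ ∧
      ((∃ᶠ n : ℕ in atTop, ∀ m : ℕ, m ≤ n →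
        C * Var[fun x => Real.log (Zn β h (fun p => ω p x) m); μ] ≤
          (n * lamN ρ β h - ∫ x, Real.log (Zn β h (fun p => ω p x) n) ∂μ) ^ 2) ∨
        ∀ᶠ n : ℕ in atTop, (n : ℝ) ^ θ ≤
          Var[fun x => Real.log (Zn β h (fun p => ω p x) n); μ]) := by
  intro h hh C
  simp only [var29 hd hω hρ, en19 hd hω hρ]
  exact mainWA43 hd hρ hnc hβ h ((vsd29 h).1 hh) C

end Pool.Agent.W_7d29a1_UC
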