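import Pool.Agent.W_7d29a1_UC.Log43
import Pool.Agent.W_7d29a1_P79.End79

/-!
The distance of the free energy to its linear part grows faster than the logarithm, in every
dimension and at every tilt of very strong disorder.
-/

set_option autoImplicit false

namespace Pool.Agent.W_7d29a1_UC

open MeasureTheory ProbabilityTheory Filter Topology Pool.Agent.W_MP_7d29a1_pr
  Pool.Agent.W_7d29a1_h46 Pool.Agent.W_7d29a1_h46u Pool.Agent.W_7d29a1_D2.B35
  Pool.Agent.W_7d29a1_Q29 Pool.Agent.W_7d29a1_R34 Pool.Agent.W_7d29a1_SP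
  Pool.Agent.W_7d29a1_P89 Pool.Agent.W_7d29a1_P78

variable {d : ℕ} {ρ : Measure ℝ} [IsProbabilityMeasure ρ] {β : ℝ}

/-- Luck at an arbitrarily small rate. -/
lemma luckB92 (hd : 0 < d) (hρ : EM ρ) (β : ℝ) (h : Vec d) (hV : VSD ρ β h) {θ : ℝ}
    (hθ0 : 0 < θ) (hθ1 : θ ≤ 1) : ∃ (k : ℕ) (u : ℝ), 1 ≤ k ∧ 1 ≤ u ∧ ∀ r : ℕ,
      Real.exp (-(θ * u * r)) ≤
        (law d ρ).real {η | A ρ β h (r * k) + r * u ≤ X β h η (r * k)} := by
  obtain ⟨P, hPd⟩ : ∃ P : Prm d, P = ⟨lam ρ β h, β, h, 1⟩ := ⟨_, rfl⟩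
  have hPP := Pool.Agent.W_7d29a1_P79.hP79 hd hρ hV
  rw [← hPd] at hPP
  obtain ⟨k, y, u, hk1, hu1, hp⟩ := Pool.Agent.W_7d29a1_P79.pair79 hd hρ P hPP hθ0 hθ1
  refine ⟨k, u, hk1, hu1, fun r => ?_⟩
  have h1 : Real.exp (-(θ * u * r)) ≤
      (law d ρ).real {η : Env d | Lk P (r * k) (r • y) ((r : ℝ) * u) η} := by
    refine le_trans ?_ (concat78 P k y u r)
    refine le_trans (le_of_eq ?_) (pow_le_pow_left₀ (Real.exp_pos _).le hp r)
    rw [← Real.exp_nat_mul]
    congr 1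
    ring
  refine h1.trans (measureReal_mono fun η hη => ?_)
  have h2 : Real.exp ((r : ℝ) * u) ≤ W P η (r * k) (r • y) := hη
  unfold W at h2
  rw [hPd] at h2
  simp only at h2
  have h3 : PP β h η (r * k) (r • y) ≤ Z β h η (r * k) := ZT_mono β h η (Set.subset_univ _)
  have h4 : Real.exp ((r : ℝ) * u) ≤
      Real.exp (-(((r * k : ℕ) : ℝ) * lam ρ β h)) * Z β h η (r * k) :=
    h2.trans (mul_le_mul_of_nonneg_left h3 (Real.exp_pos _).le)
  have h5 : Real.exp (((r * k : ℕ) : ℝ) * lam ρ β h + r * u) ≤ Z β h η (r * k) := by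
    rw [Real.exp_add]
    have h6 := mul_le_mul_of_nonneg_left h4 (Real.exp_pos (((r * k : ℕ) : ℝ) * lam ρ β h)).le
    have h7 : Real.exp (((r * k : ℕ) : ℝ) * lam ρ β h) *
        Real.exp (-(((r * k : ℕ) : ℝ) * lam ρ β h)) = 1 := by
      rw [← Real.exp_add, add_neg_cancel, Real.exp_zero]
    rw [← mul_assoc, h7, one_mul] at h6
    exact h6
  have h6 : ((r * k : ℕ) : ℝ) * lam ρ β h + r * u ≤ X β h η (r * k) := by
    have h7 := Real.log_le_log (Real.exp_pos _) h5
    rw [Real.log_exp] at h7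
    exact h7
  have h8 := A_le_lam hd hρ β h (r * k)
  show A ρ β h (r * k) + r * u ≤ X β h η (r * k)
  linarith

/-- **The superlogarithmic lower bound**: every dimension, every tilt of very strong disorder. -/
theorem logB92 (hd : 0 < d) (hρ : EM ρ) (β : ℝ) (h : Vec d) (hV : VSD ρ β h) (B : ℝ) :
    ∀ᶠ n : ℕ in atTop, ∃ m : ℕ, m ≤ n ∧
      B * Real.log n ≤ ∫ η, |X β h η m - m * lam ρ β h| ∂(law d ρ) := by
  classical
  obtain ⟨c₀, hc₀, hL⟩ : ∃ c₀ : ℝ, 0 < c₀ ∧ Loc1 ρ β h c₀ := by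
    have hg : 0 < Real.log (Phi h) + Real.log (∫ t, Real.exp (β * t) ∂ρ) - lam ρ β h := by
      have : lam ρ β h < Real.log (Phi h) + Real.log (∫ t, Real.exp (β * t) ∂ρ) := hV
      linarith
    obtain ⟨c₀, hc₀, hc⟩ := Csy42.loc42 hd hρ β _ hg
    refine ⟨c₀, hc₀, fun n => ?_⟩
    exact hc h (by linarith) n
  obtain ⟨C1, hC1, hcnt⟩ := cnt79 (d := d) hd hρ β c₀ hc₀
  obtain ⟨c, hc⟩ : ∃ c : ℝ, c = |B| + 1 := ⟨_, rfl⟩
  have hc0 : 1 ≤ c := by rw [hc]; have := abs_nonneg B; linarith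
  have hBc : B ≤ c := by rw [hc]; have := le_abs_self B; linarith
  obtain ⟨θ, hθ⟩ : ∃ θ : ℝ, θ = 1 / (16 * C1 * c) := ⟨_, rfl⟩
  have hθ0 : 0 < θ := by rw [hθ]; positivity
  have hθ1 : θ ≤ 1 := by
    rw [hθ, div_le_one (by positivity)]
    nlinarith
  obtain ⟨k, u, hk1, hu1, hup⟩ := luckB92 hd hρ β h hV hθ0 hθ1
  have hk0 : (1 : ℝ) ≤ k := by exact_mod_cast hk1
  have hlog : Tendsto (fun n : ℕ => Real.log n) atTop atTop :=
    Real.tendsto_log_atTop.comp tendsto_natCast_atTop_atTop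
  have hlin : ∀ᶠ n : ℕ in atTop, C1 * (k / (2 * θ * u)) * Real.log n ≤ (n : ℝ) ^ (1 / 2 : ℝ) := by
    have h1 := (isLittleO_log_rpow_atTop (show (0 : ℝ) < 1 / 2 by norm_num)).bound
      (c := 1 / (C1 * (k / (2 * θ * u)))) (by positivity)
    have h2 := (tendsto_natCast_atTop_atTop (R := ℝ)).eventually h1
    filter_upwards [h2, eventually_ge_atTop 1] with n h3 h4
    have h5 : (1 : ℝ) ≤ n := by exact_mod_cast h4
    rw [Real.norm_eq_abs, Real.norm_eq_abs, abs_of_nonneg (Real.log_nonneg h5),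
      abs_of_nonneg (Real.rpow_nonneg (by linarith) _), div_mul_eq_mul_div, one_mul,
      le_div_iff₀ (by positivity)] at h3
    linarith
  filter_upwards [hlog.eventually_ge_atTop (4 * (θ * u)), hlog.eventually_ge_atTop 1, hlin,
    eventually_ge_atTop 2] with n hn1 hn2 hn3 hn4
  by_contra hcon
  push Not at hcon
  have hn0 : (0 : ℝ) < n := by
    have : 0 < n := by omega
    exact_mod_cast this
  have hθu : 0 < θ * u := by positivity
  obtain ⟨r, hr⟩ : ∃ r : ℕ, r = ⌊Real.log n / (2 * (θ * u))⌋₊ := ⟨_, rfl⟩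
  have hlog0 : 0 ≤ Real.log n / (2 * (θ * u)) := by positivity
  have hr1 : (r : ℝ) ≤ Real.log n / (2 * (θ * u)) := by rw [hr]; exact Nat.floor_le hlog0
  have hr2 : Real.log n / (2 * (θ * u)) - 1 < r := by
    have := Nat.lt_floor_add_one (Real.log n / (2 * (θ * u)))
    rw [← hr] at this
    linarith
  have hr3 : 2 ≤ Real.log n / (2 * (θ * u)) := by
    rw [le_div_iff₀ (by positivity)]
    linarith
  have hr4 : (1 : ℝ) ≤ r := by linarith
  have hr5 : 1 ≤ r := by exact_mod_cast hr4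
  have hr6 : Real.log n / (2 * (θ * u)) / 2 ≤ r := by linarith
  have hX : ∀ k, Integrable (fun η => X β h η k) (law d ρ) := fun k => (concU hd hρ β h k).1
  have hY : ∀ k, Integrable (fun η => X β h η k - k * lam ρ β h) (law d ρ) := fun k =>
    (hX k).sub (integrable_const _)
  have hcon' : ∀ k, k ≤ n → ∫ η, |X β h η k - k * lam ρ β h| ∂(law d ρ) ≤ c * Real.log n := by
    intro k hk
    refine (hcon k hk).le.trans ?_
    exact mul_le_mul_of_nonneg_right hBc (by linarith)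
  have hEn : ∀ k, k ≤ n → En ρ β h k ≤ c * Real.log n := by
    intro k hk
    refine le_trans ?_ (hcon' k hk)
    have h1 : En ρ β h k = -∫ η, (X β h η k - k * lam ρ β h) ∂(law d ρ) := by
      rw [integral_sub (hX k) (integrable_const _)]
      unfold En A
      simp
    rw [h1]
    refine (neg_le_abs _).trans ?_
    exact abs_integral_le_integral_abs
  have hFn : ∀ k, k ≤ n → Fn ρ β h k ≤ 2 * (c * Real.log n) := by
    intro k hk
    have h1 : ∀ η, |X β h η k - A ρ β h k| ≤ |X β h η k - k * lam ρ β h| + En ρ β h k := by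
      intro η
      have h2 : X β h η k - A ρ β h k = (X β h η k - k * lam ρ β h) + En ρ β h k := by
        unfold En
        ring
      have h3 : 0 ≤ En ρ β h k := by
        have := A_le_lam hd hρ β h k
        unfold En
        linarith
      rw [h2]
      refine (abs_add_le _ _).trans ?_
      rw [abs_of_nonneg h3]
    have h4 := integral_mono ((hX k).sub (integrable_const (A ρ β h k))).abs
      ((hY k).abs.add (integrable_const (En ρ β h k))) h1
    simp only [Pi.add_apply, Pi.sub_apply] at h4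
    rw [integral_add (hY k).abs (integrable_const _)] at h4
    have h5 := hcon' k hk
    have h6 := hEn k hk
    have h7 : Fn ρ β h k = ∫ η, |X β h η k - A ρ β h k| ∂(law d ρ) := rfl
    rw [h7]
    simp at h4
    linarith
  have hq := Real.exp_pos (-(θ * u * r))
  have hT : C1 * (r * k : ℕ) / Real.exp (-(θ * u * r)) ≤ n := by
    rw [Real.exp_neg, div_inv_eq_mul]
    have h1 : θ * u * r ≤ Real.log n * (1 / 2) := by
      rw [le_div_iff₀ (by positivity)] at hr1
      linarith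
    have h2 : Real.exp (θ * u * r) ≤ (n : ℝ) ^ (1 / 2 : ℝ) := by
      rw [Real.rpow_def_of_pos hn0]
      exact Real.exp_le_exp.2 h1
    have h3 : C1 * ((r * k : ℕ) : ℝ) ≤ (n : ℝ) ^ (1 / 2 : ℝ) := by
      refine le_trans ?_ hn3
      push_cast
      have h4 : (r : ℝ) * k ≤ Real.log n / (2 * (θ * u)) * k :=
        mul_le_mul_of_nonneg_right hr1 (by linarith)
      have h5 : C1 * (k / (2 * θ * u)) * Real.log n = C1 * (Real.log n / (2 * (θ * u)) * k) := by
        field_simp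
      rw [h5]
      exact mul_le_mul_of_nonneg_left h4 (by linarith)
    have h6 : (n : ℝ) ^ (1 / 2 : ℝ) * (n : ℝ) ^ (1 / 2 : ℝ) = n := by
      rw [← Real.rpow_add hn0]
      norm_num
    calc C1 * ((r * k : ℕ) : ℝ) * Real.exp (θ * u * r)
        ≤ (n : ℝ) ^ (1 / 2 : ℝ) * (n : ℝ) ^ (1 / 2 : ℝ) :=
          mul_le_mul h3 h2 (Real.exp_pos _).le (Real.rpow_nonneg hn0.le _)
      _ = n := h6
  have h1 := hcnt h hL (r * k) n (r * u) (Real.exp (-(θ * u * r))) (2 * (c * Real.log n))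
    (Nat.mul_pos hr5 hk1) hq (hup r) hT (fun k hk => ⟨by
      have h2 := hEn k hk
      have h3 : 0 ≤ c * Real.log n := by positivity
      linarith, hFn k hk⟩)
  have h2 : Real.log n / (4 * θ) ≤ r * u := by
    have h3 := mul_le_mul_of_nonneg_right hr6 (show 0 ≤ u by linarith)
    refine le_trans (le_of_eq ?_) h3
    field_simp
    norm_num
  have h3 : Real.log n / (4 * θ) = 4 * C1 * c * Real.log n := by
    rw [hθ]
    field_simp
    norm_num
  have h4 : C1 * 1 ≤ C1 * (c * Real.log n) :=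
    mul_le_mul_of_nonneg_left (one_le_mul_of_one_le_of_one_le hc0 hn2) (by linarith)
  rw [h3] at h2
  nlinarith

/-- The superlogarithmic lower bound in the letters of the problem. -/
theorem trLogB92 {Ω : Type*} [MeasurableSpace Ω] {μ : Measure Ω} [IsProbabilityMeasure μ]
    {ω : ℕ × Site d → Ω → ℝ} (hd : 0 < d) (hω : IID μ ρ ω) (hρ : EM ρ) (h : Vec d)
    (hh : lamN ρ β h < annN ρ β h) (B : ℝ) :
    ∀ᶠ n : ℕ in atTop, ∃ m : ℕ, m ≤ n ∧
      B * Real.log n ≤ ∫ x, |Real.log (Zn β h (fun p => ω p x) m) - m * lamN ρ β h| ∂μ := by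
  refine (logB92 hd hρ β h ((vsd29 h).1 hh) B).mono fun n hn => ?_
  obtain ⟨m, hm, hm2⟩ := hn
  refine ⟨m, hm, hm2.trans (le_of_eq ?_)⟩
  have e3 : ∫ x, |Real.log (Zn β h (fun p => ω p x) m) - m * lamN ρ β h| ∂μ =
      ∫ x, (fun η : Env d => |X β h η m - m * lam ρ β h|) (fun p => ω p x) ∂μ := by
    refine integral_congr_ae (Filter.Eventually.of_forall fun y => ?_)
    show |Real.log (Zn β h (fun p => ω p y) m) - m * lamN ρ β h| =
      |X β h (fun p => ω p y) m - m * lam ρ β h|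
    rw [StrA_log hd β h _ m, Real.log_pow]
    unfold lamN
    congr 1
    ring
  rw [e3]
  exact (StrA_int hω (((measurable_X β h m).sub_const _).abs)).symm

end Pool.Agent.W_7d29a1_UC
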