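import Pool.Agent.W_7d29a1_UC.DefsC43
import Pool.Agent.W_7d29a1_SP.Amp84
import Pool.Agent.W_7d29a1_h46u.ConcV

/-!
MED (helper31): the free energy is below its mean with a probability bounded below, for the laws of
convex functions of a Gaussian variable.
-/

namespace Pool.Agent.W_7d29a1_UC

open MeasureTheory ProbabilityTheory Filter Topology Set Pool.Agent.W_MP_7d29a1_pr
  Pool.Agent.W_7d29a1_h46 Pool.Agent.W_7d29a1_h46u Pool.Agent.W_7d29a1_SP
  Pool.Agent.W_7d29a1_SP.A84

/-- A median. -/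
lemma median31 {Ω : Type*} [MeasurableSpace Ω] (P : Measure Ω) [IsProbabilityMeasure P] {Y : Ω → ℝ}
    (hY : Measurable Y) {s₀ : ℝ} (h0 : P.real {ω | Y ω ≤ s₀} < 1 / 2) : ∃ M : ℝ, s₀ < M ∧
      1 / 2 ≤ P.real {ω | Y ω ≤ M} ∧ ∀ s, s < M → P.real {ω | Y ω ≤ s} < 1 / 2 := by
  have hP : IsProbabilityMeasure (P.map Y) := Measure.isProbabilityMeasure_map hY.aemeasurable
  have hF : ∀ s, cdf (P.map Y) s = P.real {ω | Y ω ≤ s} := by
    intro s
    rw [cdf_eq_real, map_measureReal_apply hY measurableSet_Iic]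
    rfl
  have hmono : Monotone (cdf (P.map Y)) := monotone_cdf _
  obtain ⟨S, hS⟩ : ∃ S : Set ℝ, S = {s | 1 / 2 ≤ cdf (P.map Y) s} := ⟨_, rfl⟩
  have hne : S.Nonempty := by
    obtain ⟨s, hs⟩ := ((tendsto_cdf_atTop (P.map Y)).eventually
      (lt_mem_nhds (show (1 / 2 : ℝ) < 1 by norm_num))).exists
    exact ⟨s, by rw [hS]; exact hs.le⟩
  have hbd : ∀ s ∈ S, s₀ ≤ s := by
    intro s hs
    rw [hS] at hs
    by_contra hcon
    push Not at hcon
    have h1 := hmono hcon.le
    have h2 : (1 / 2 : ℝ) ≤ cdf (P.map Y) s := hs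
    rw [← hF] at h0
    linarith
  have hbdd : BddBelow S := ⟨s₀, hbd⟩
  have hM : 1 / 2 ≤ cdf (P.map Y) (sInf S) := by
    have h1 : Tendsto (cdf (P.map Y)) (𝓝[>] (sInf S)) (𝓝 (cdf (P.map Y) (sInf S))) :=
      ((cdf (P.map Y)).right_continuous (sInf S)).mono Ioi_subset_Ici_self
    refine ge_of_tendsto h1 ?_
    filter_upwards [self_mem_nhdsWithin] with s hs
    obtain ⟨s', hs', hlt⟩ := (csInf_lt_iff hbdd hne).1 hs
    rw [hS] at hs'
    have h2 : (1 / 2 : ℝ) ≤ cdf (P.map Y) s' := hs'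
    exact h2.trans (hmono hlt.le)
  have hsM : s₀ ≤ sInf S := le_csInf hne hbd
  refine ⟨sInf S, ?_, ?_, fun s hs => ?_⟩
  · rcases hsM.eq_or_lt with h | h
    · exfalso
      rw [← h, hF] at hM
      linarith
    · exact h
  · rw [← hF]
    exact hM
  · by_contra hcon
    push Not at hcon
    have : s ∈ S := by
      rw [hS]
      show (1 / 2 : ℝ) ≤ cdf (P.map Y) s
      rw [hF]
      exact hcon
    exact absurd (csInf_le hbdd this) (not_le.2 hs)

/-- A variable with a lower tail `exp (-2 - 4 t)` at the unit `D` and probability one half to be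
above `D / 2` has positive mean. -/
lemma mean31 {Ω : Type*} [MeasurableSpace Ω] (P : Measure Ω) [IsProbabilityMeasure P] {Y : Ω → ℝ}
    (hY : Measurable Y) (hi : Integrable Y P) {a D : ℝ} (hD : 0 < D)
    (h1 : P.real {ω | Y ω ≤ a + D / 2} ≤ 1 / 2)
    (h2 : ∀ t : ℝ, 0 < t → P.real {ω | Y ω ≤ a - t} ≤ Real.exp (-2) * Real.exp (-(4 / D) * t)) :
    a < ∫ ω, Y ω ∂P := by
  have hf : Integrable (fun ω => max (a - Y ω) 0) P :=
    ((integrable_const a).sub hi).sup (integrable_const 0)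
  have hf0 : ∀ ω, 0 ≤ max (a - Y ω) 0 := fun ω => le_max_right _ _
  have hneg : -(4 / D) < 0 := by
    have : 0 < 4 / D := by positivity
    linarith
  have hint : IntegrableOn (fun t : ℝ => Real.exp (-2) * Real.exp (-(4 / D) * t)) (Ioi 0) :=
    (integrableOn_exp_mul_Ioi hneg 0).const_mul _
  have hval : ∫ t in Ioi (0 : ℝ), Real.exp (-2) * Real.exp (-(4 / D) * t) =
      Real.exp (-2) * (D / 4) := by
    rw [integral_const_mul, integral_exp_mul_Ioi hneg]
    rw [mul_zero, Real.exp_zero]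
    field_simp
  have key : ENNReal.ofReal (∫ ω, max (a - Y ω) 0 ∂P) ≤ ENNReal.ofReal (Real.exp (-2) * (D / 4)) := by
    rw [ofReal_integral_eq_lintegral_ofReal hf (Eventually.of_forall hf0),
      lintegral_eq_lintegral_meas_le P (Eventually.of_forall hf0) hf.aemeasurable, ← hval,
      ofReal_integral_eq_lintegral_ofReal hint (Eventually.of_forall fun t => by positivity)]
    refine setLIntegral_mono' measurableSet_Ioi fun t ht => ?_
    have ht0 : 0 < t := ht
    have e1 : {ω | t ≤ max (a - Y ω) 0} = {ω | Y ω ≤ a - t} := by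
      ext ω
      show t ≤ max (a - Y ω) 0 ↔ Y ω ≤ a - t
      rw [le_max_iff]
      constructor
      · rintro (h | h)
        · linarith
        · linarith
      · intro h
        left
        linarith
    rw [e1, ← ofReal_measureReal]
    exact ENNReal.ofReal_le_ofReal (h2 t ht0)
  have key2 : ∫ ω, max (a - Y ω) 0 ∂P ≤ Real.exp (-2) * (D / 4) :=
    (ENNReal.ofReal_le_ofReal_iff (by positivity)).1 key
  have hms : MeasurableSet {ω | a + D / 2 < Y ω} := measurableSet_lt measurable_const hY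
  have hind : Integrable ({ω | a + D / 2 < Y ω}.indicator fun _ => D / 2) P :=
    (integrable_const (D / 2)).indicator hms
  have h3 : ∫ ω, (({ω | a + D / 2 < Y ω}.indicator fun _ => D / 2) ω - max (a - Y ω) 0) ∂P ≤
      ∫ ω, (Y ω - a) ∂P := by
    refine integral_mono (hind.sub hf) (hi.sub (integrable_const a)) fun ω => ?_
    show ({ω | a + D / 2 < Y ω}.indicator fun _ => D / 2) ω - max (a - Y ω) 0 ≤ Y ω - a
    by_cases hc : a + D / 2 < Y ω
    · rw [Set.indicator_of_mem (show ω ∈ {ω | a + D / 2 < Y ω} from hc)]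
      have : 0 ≤ max (a - Y ω) 0 := le_max_right _ _
      linarith
    · rw [Set.indicator_of_notMem (show ω ∉ {ω | a + D / 2 < Y ω} from hc)]
      have : a - Y ω ≤ max (a - Y ω) 0 := le_max_left _ _
      linarith
  rw [integral_sub hind hf, integral_sub hi (integrable_const a), integral_indicator_const _ hms]
    at h3
  have h4 : P.real {ω | a + D / 2 < Y ω} = 1 - P.real {ω | Y ω ≤ a + D / 2} := by
    rw [← probReal_compl_eq_one_sub (measurableSet_le hY measurable_const)]
    congr 1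
    ext ω
    simp
  rw [h4, smul_eq_mul] at h3
  have h5 : Real.exp (-2) < 1 := Real.exp_lt_one_iff.2 (by norm_num)
  have h6 : ∫ _, a ∂P = a := by simp
  rw [h6] at h3
  have h7 : (1 / 2) * (D / 2) ≤ (1 - P.real {ω | Y ω ≤ a + D / 2}) * (D / 2) :=
    mul_le_mul_of_nonneg_right (by linarith) (by positivity)
  have h8 : Real.exp (-2) * (D / 4) < 1 * (D / 4) := mul_lt_mul_of_pos_right h5 (by positivity)
  linarith

/-- **MED.** -/
theorem med31 {d : ℕ} (hd : 0 < d) {ρ : Measure ℝ} [IsProbabilityMeasure ρ] (hρ : EM ρ)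
    (hG : GC ρ) {β : ℝ} (hβ : 0 ≤ β) : MedP d ρ β := by
  obtain ⟨φ, hφ, hρφ⟩ := hG
  have hc : Continuous φ := by
    rw [← continuousOn_univ]
    exact hφ.continuousOn isOpen_univ
  have hhalf : Ehr.Phi 0 = 1 / 2 := by
    have := Phi_add 0
    rw [neg_zero] at this
    linarith
  have h20 : Ehr.Phi (-2) < 1 / 2 := hhalf ▸ Ehr.Phi_strictMono (by norm_num)
  refine ⟨Ehr.Phi (-2), Ehr.Phi_pos _, fun h m => ?_⟩
  by_contra hcon
  push Not at hcon
  have : Nonempty (Fin m → Step d) := ⟨fun _ => (⟨⟨0, hd⟩, true⟩ : Step d)⟩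
  have mX := measurable_X (d := d) β h m
  have hX : Integrable (fun η => X β h η m) (law d ρ) := (concU hd hρ β h m).1
  obtain ⟨M, hM0, hM1, hM2⟩ := median31 (law d ρ) mX (hcon.trans h20)
  obtain ⟨D, hDM⟩ : ∃ D : ℝ, D = M - A ρ β h m := ⟨_, rfl⟩
  have hD : 0 < D := by rw [hDM]; linarith
  have hlaw : ∀ s : ℝ, (law d ρ).real {η | X β h η m ≤ s} =
      (Ehr.gpi (A84.Is d m)).real {x | (A84.Y β h m fun i => φ (x i)) ≤ s} := fun s => by
    have := X_law hc hρφ β h m (T := Iic s) measurableSet_Iic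
    simpa only [mem_Iic] using this
  have hlt := mean31 (law d ρ) mX hX (a := A ρ β h m) hD (by
    refine (hM2 _ ?_).le
    rw [hDM]
    linarith) (by
    intro t ht
    have h1 := Ehr.unluck (Y_conv hφ hβ h m) ((Y_cont β h m).comp (by fun_prop)) (a := -2) (b := 0)
      (s0 := A ρ β h m) (s1 := M) (t := t / D) (by positivity) (by
        rw [← hlaw]
        exact hcon.le) (by
        rw [← hlaw, hhalf]
        exact hM1)
    have e1 : A ρ β h m - t / D * (M - A ρ β h m) = A ρ β h m - t := by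
      rw [← hDM]
      field_simp
    rw [e1, ← hlaw] at h1
    refine h1.trans ?_
    have e2 : (-2 : ℝ) - t / D * (0 - (-2)) = -(2 + 2 * (t / D)) := by ring
    rw [e2]
    have hu : 0 ≤ t / D := by positivity
    refine (Phi_upper (b := 2 + 2 * (t / D)) (by linarith)).trans ?_
    rw [← Real.exp_add]
    apply Real.exp_le_exp.2
    have e3 : -(4 / D) * t = -(4 * (t / D)) := by ring
    rw [e3]
    nlinarith [sq_nonneg (t / D)])
  exact lt_irrefl _ hlt

end Pool.Agent.W_7d29a1_UC
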