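import Pool.Agent.W_7d29a1_UC.AllV43

/-!
The variance at all times: the theorem, and its forms in the letters of the problem.
-/

namespace Pool.Agent.W_7d29a1_UC

open MeasureTheory ProbabilityTheory Filter Topology Pool.Agent.W_MP_7d29a1_pr
  Pool.Agent.W_7d29a1_h46 Pool.Agent.W_7d29a1_h46u Pool.Agent.W_7d29a1_D2.B35
  Pool.Agent.W_7d29a1_Q29 Pool.Agent.W_7d29a1_R34 Pool.Agent.W_7d29a1_SP
  Pool.Agent.W_7d29a1_SP.A84
open Pool.Agent.W_7d29a1_AM (AmpU)

variable {d : ℕ} {ρ : Measure ℝ} [IsProbabilityMeasure ρ] {β : ℝ}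

lemma Va_zero43 (β : ℝ) (h : Vec d) : Va ρ β h 0 = 0 := by
  have h11 : ∀ η : Env d, X β h η 0 = X β h 0 0 := by
    intro η
    unfold X
    rw [Z_eq, Z_eq]
    congr 1
  have h12 : A ρ β h 0 = X β h 0 0 := by
    unfold A
    simp only [h11]
    simp
  unfold Va
  simp only [h11, h12]
  simp

/-- MAIN with the variance at all times. -/
theorem mainW43 (hd : 0 < d) (hρ : EM ρ) (hM : MainV d ρ β) (h2 : AmpU ρ β d)
    (h3 : DeepP d ρ β) (hI : InfP d ρ β) : MainW d ρ β := by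
  classical
  intro h hV C0
  obtain ⟨θ, hθ, hor⟩ := hM h hV C0
  refine ⟨θ / 2, by linarith, ?_⟩
  by_cases hA : ∃ᶠ n : ℕ in atTop, ∀ m : ℕ, m ≤ n → C0 * Va ρ β h m ≤ En ρ β h n ^ 2
  · exact Or.inl hA
  right
  have hpow := hor.resolve_left hA
  rw [not_frequently] at hA
  obtain ⟨C, hCd⟩ : ∃ C : ℝ, C = max C0 1 := ⟨_, rfl⟩
  have hC1 : 1 ≤ C := by rw [hCd]; exact le_max_right _ _
  have hC0 : C0 ≤ C := by rw [hCd]; exact le_max_left _ _
  obtain ⟨n0, hn0⟩ := eventually_atTop.1 hA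
  obtain ⟨Bd, hBd⟩ : ∃ Bd : ℝ, ∀ k, k < n0 → En ρ β h k ≤ Bd := by
    refine ⟨∑ k ∈ Finset.range n0, |En ρ β h k|, fun k hk => ?_⟩
    exact (le_abs_self _).trans (Finset.single_le_sum (f := fun k => |En ρ β h k|)
      (fun i _ => abs_nonneg _) (Finset.mem_range.2 hk))
  obtain ⟨c, S, B, hc, hS1, hB, hspr⟩ := sprV43 hd hρ h2 h3 (4 * C) (by linarith)
  have hFinf := hI h hV
  obtain ⟨e, he⟩ : ∃ e : ℝ, e = θ / 8 := ⟨_, rfl⟩
  have he0 : 0 < e := by rw [he]; linarith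
  obtain ⟨D, hD⟩ : ∃ D : ℝ, D = 1 + B ^ e / e := ⟨_, rfl⟩
  have hD0 : 0 < D := by rw [hD]; positivity
  have hpw : Tendsto (fun n : ℕ => (n : ℝ) ^ (2 * e)) atTop atTop :=
    (tendsto_rpow_atTop (by linarith)).comp tendsto_natCast_atTop_atTop
  have hpw2 : Tendsto (fun n : ℕ => (n : ℝ) ^ θ) atTop atTop :=
    (tendsto_rpow_atTop hθ).comp tendsto_natCast_atTop_atTop
  filter_upwards [hpow, eventually_ge_atTop 1, hFinf.eventually_ge_atTop Bd,
    hpw.eventually_ge_atTop (4 * D ^ 2 / c), hpw2.eventually_ge_atTop S] with n hn hn1 hnB hnc hnS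
  -- the maximal value
  obtain ⟨m, hm, hmax⟩ := Finset.exists_max_image (Finset.range (n + 1))
    (fun k => Va ρ β h k) ⟨0, Finset.mem_range.2 (Nat.succ_pos n)⟩
  have hmn : m ≤ n := Nat.lt_succ_iff.1 (Finset.mem_range.1 hm)
  have hmax' : ∀ k, k ≤ n → Va ρ β h k ≤ Va ρ β h m := fun k hk =>
    hmax k (Finset.mem_range.2 (Nat.lt_succ_of_le hk))
  obtain ⟨j, hj, hj2⟩ := hn
  have hbig : (n : ℝ) ^ θ ≤ Va ρ β h m := hj2.trans (hmax' j hj)
  have hSm : S ≤ Va ρ β h m := hnS.trans hbig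
  have hVpos : 0 < Va ρ β h m := by linarith
  obtain ⟨σ, hσd⟩ : ∃ σ : ℝ, σ = Real.sqrt (Va ρ β h m) := ⟨_, rfl⟩
  have hσ0 : 0 < σ := by rw [hσd]; exact Real.sqrt_pos.2 hVpos
  have hσV : σ ^ 2 = Va ρ β h m := by rw [hσd]; exact Real.sq_sqrt hVpos.le
  have hm1 : 1 ≤ m := by
    rcases Nat.eq_zero_or_pos m with h9 | h9
    · rw [h9, Va_zero43] at hVpos
      exact absurd hVpos (lt_irrefl _)
    · exact h9
  have hE : ∀ k, k ≤ n → En ρ β h k ≤ C * σ := by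
    intro k hk
    rcases lt_or_ge k n0 with h12 | h12
    · have h13 := hBd k h12
      have h14 : Fn ρ β h n ≤ σ := by
        rw [hσd]
        exact (fn_le_sd43 hd hρ h n).trans (Real.sqrt_le_sqrt (hmax' n le_rfl))
      nlinarith
    · have h7 := hn0 k h12
      push Not at h7
      obtain ⟨i, hi, hi2⟩ := h7
      have h8 : C0 * Va ρ β h i ≤ C * Va ρ β h i :=
        mul_le_mul_of_nonneg_right hC0 (Va_nonneg43 β h i)
      have h9 : C * Va ρ β h i ≤ C * Va ρ β h m :=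
        mul_le_mul_of_nonneg_left (hmax' i (hi.trans hk)) (by linarith)
      have h10 : C * Va ρ β h m ≤ (C * σ) ^ 2 := by
        rw [mul_pow, hσV]
        refine mul_le_mul_of_nonneg_right ?_ hVpos.le
        nlinarith
      have h11 : En ρ β h k ^ 2 ≤ (C * σ) ^ 2 := by linarith
      exact (le_abs_self _).trans (abs_le_of_sq_le_sq h11 (by positivity))
  obtain ⟨k, hk⟩ : ∃ k, n = m + k := ⟨n - m, by omega⟩
  have hG : A ρ β h (m + k) - A ρ β h m - A ρ β h k ≤ 2 * (C * σ) := by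
    have e1 := hE m hmn
    have e2 := hE k (by omega)
    have e3 := A_le_lam hd hρ β h (m + k)
    unfold En at e1 e2
    push_cast at e3
    linarith
  obtain ⟨x, hx, hxp⟩ := hspr h m hm1 hSm
  rw [← hσd] at hx
  have hCσ : 0 < C * σ := by positivity
  have h1 := laterV43 hd hρ β h m k x (2 * (C * σ)) (by linarith) hG (by linarith)
  rw [← hk] at h1
  have hn0' : (1 : ℝ) ≤ n := by exact_mod_cast hn1
  have hm0' : (1 : ℝ) ≤ m := by exact_mod_cast hm1
  have hmn' : (m : ℝ) ≤ n := by exact_mod_cast hmn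
  -- the logarithm
  have hlog : 1 + Real.log (B * m) ≤ D * (n : ℝ) ^ e := by
    have h4 : Real.log (B * m) ≤ Real.log (B * n) :=
      Real.log_le_log (by positivity) (mul_le_mul_of_nonneg_left hmn' (by linarith))
    have h5 : Real.log (B * n) ≤ (B * n) ^ e / e := Real.log_le_rpow_div (by positivity) he0
    have h6 : (B * n) ^ e = B ^ e * (n : ℝ) ^ e := Real.mul_rpow (by linarith) (by linarith)
    have h7 : 1 ≤ (n : ℝ) ^ e := Real.one_le_rpow hn0' he0.le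
    rw [h6] at h5
    have h8 : D * (n : ℝ) ^ e = (n : ℝ) ^ e + B ^ e * (n : ℝ) ^ e / e := by
      rw [hD]
      ring
    rw [h8]
    linarith
  have hlog0 : 0 ≤ Real.log (B * m) := Real.log_nonneg (by nlinarith)
  have hden : (1 + Real.log (B * m)) ^ 2 ≤ D ^ 2 * (n : ℝ) ^ (2 * e) := by
    have h4 := pow_le_pow_left₀ (by linarith) hlog 2
    refine h4.trans (le_of_eq ?_)
    rw [mul_pow, ← Real.rpow_natCast ((n : ℝ) ^ e), ← Real.rpow_mul (by linarith)]
    congr 2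
    push_cast
    ring
  have hdp : 0 < (1 + Real.log (B * m)) ^ 2 := by positivity
  rw [div_le_iff₀ hdp] at hxp
  have h4 : x ^ 2 * (law d ρ).real {η | A ρ β h m + x ≤ X β h η m} ≤ 4 * Va ρ β h n := by
    linarith
  have hVn : 0 ≤ Va ρ β h n := Va_nonneg43 β h n
  have h5 : c * (n : ℝ) ^ θ ≤ 4 * Va ρ β h n * (D ^ 2 * (n : ℝ) ^ (2 * e)) := by
    calc c * (n : ℝ) ^ θ ≤ c * Va ρ β h m := mul_le_mul_of_nonneg_left hbig hc.le
      _ ≤ x ^ 2 * (law d ρ).real {η | A ρ β h m + x ≤ X β h η m} *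
          (1 + Real.log (B * m)) ^ 2 := hxp
      _ ≤ 4 * Va ρ β h n * (1 + Real.log (B * m)) ^ 2 :=
          mul_le_mul_of_nonneg_right h4 hdp.le
      _ ≤ _ := mul_le_mul_of_nonneg_left hden (by positivity)
  -- the powers
  obtain ⟨u, hu⟩ : ∃ u : ℝ, u = (n : ℝ) ^ (2 * e) := ⟨_, rfl⟩
  have hu0 : 0 < u := by rw [hu]; positivity
  have h6 : (n : ℝ) ^ θ = u ^ 4 := by
    rw [hu, ← Real.rpow_natCast, ← Real.rpow_mul (by linarith)]
    congr 1
    rw [he]
    push_cast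
    ring
  have h7 : (n : ℝ) ^ (θ / 2) = u ^ 2 := by
    rw [hu, ← Real.rpow_natCast, ← Real.rpow_mul (by linarith)]
    congr 1
    rw [he]
    push_cast
    ring
  rw [← hu] at h5 hnc
  rw [h6] at h5
  rw [h7]
  rw [div_le_iff₀ hc] at hnc
  -- `c u ^ 4 ≤ 4 V D ^ 2 u`, `4 D ^ 2 ≤ u c`
  have h8 : u * (c * u ^ 3) ≤ u * (4 * D ^ 2 * Va ρ β h n) := by
    calc u * (c * u ^ 3) = c * u ^ 4 := by ring
      _ ≤ _ := h5
      _ = u * (4 * D ^ 2 * Va ρ β h n) := by ring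
  have h9 : c * u ^ 3 ≤ 4 * D ^ 2 * Va ρ β h n := le_of_mul_le_mul_left h8 hu0
  have h10 : 4 * D ^ 2 * Va ρ β h n ≤ u * c * Va ρ β h n := mul_le_mul_of_nonneg_right hnc hVn
  have h11 : (u * c) * u ^ 2 ≤ (u * c) * Va ρ β h n := by
    calc (u * c) * u ^ 2 = c * u ^ 3 := by ring
      _ ≤ _ := h9.trans h10
  exact le_of_mul_le_mul_left h11 (by positivity)

/-- DEEP for the laws of the convex functions of a Gaussian variable: there are no deep lower
deviations. -/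
theorem deep43 (hd : 0 < d) (hρ : EM ρ) (hG : GC ρ) (hβ : 0 ≤ β) : DeepP d ρ β := by
  obtain ⟨φ, hφ, hρφ⟩ := hG
  have hc : Continuous φ := by
    rw [← continuousOn_univ]
    exact hφ.continuousOn isOpen_univ
  have hhalf : Ehr.Phi 0 = 1 / 2 := by
    have := Phi_add 0
    rw [neg_zero] at this
    linarith
  have h2a : 1 / 1600 ≤ Ehr.Phi (-2) := by
    have h1 := Phi_lower (r := 2) (by norm_num)
    refine le_trans ?_ h1
    have h2 : 1 / 3 ≤ (√(2 * Real.pi))⁻¹ := by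
      rw [← one_div]
      refine one_div_le_one_div_of_le (by positivity) ?_
      rw [Real.sqrt_le_left (by norm_num)]
      have := Real.pi_lt_d2
      linarith
    have h3 : Real.exp 5 ≤ 243 := by
      have h4 : Real.exp 5 = Real.exp 1 ^ 5 := by
        rw [← Real.exp_nat_mul]
        norm_num
      rw [h4]
      have h5 : Real.exp 1 ≤ 3 := by
        have := Real.exp_one_lt_d9
        linarith
      have h6 := pow_le_pow_left₀ (Real.exp_pos 1).le h5 5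
      linarith [show (3 : ℝ) ^ 5 = 243 by norm_num]
    have h4 : cA * Real.exp (-2 ^ 2) = (√(2 * Real.pi))⁻¹ * (Real.exp 5)⁻¹ := by
      unfold cA
      rw [mul_assoc, ← Real.exp_add, ← Real.exp_neg]
      congr 2
      norm_num
    rw [h4]
    have h5 : (1 : ℝ) / 243 ≤ (Real.exp 5)⁻¹ := by
      rw [← one_div]
      exact one_div_le_one_div_of_le (Real.exp_pos 5) h3
    calc (1 : ℝ) / 1600 ≤ 1 / 3 * (1 / 243) := by norm_num
      _ ≤ _ := mul_le_mul h2 h5 (by norm_num) (by positivity)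
  intro Λ hΛ
  refine ⟨1000, 1, 1, one_pos, fun h m K hS hK hp => ?_⟩
  exfalso
  have : Nonempty (Fin m → Step d) := ⟨fun _ => (⟨⟨0, hd⟩, true⟩ : Step d)⟩
  have mX := measurable_X (d := d) β h m
  obtain ⟨σ, hσd⟩ : ∃ σ : ℝ, σ = Real.sqrt (Va ρ β h m) := ⟨_, rfl⟩
  have hσ0 : 0 < σ := by rw [hσd]; exact Real.sqrt_pos.2 (by linarith)
  have hσV : σ ^ 2 = Va ρ β h m := by rw [hσd]; exact Real.sq_sqrt (by linarith)
  rw [← hσd] at hp
  obtain ⟨iY, iY2, hY0⟩ := cen43 hd hρ β h m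
  have hV2 : ∫ η, (X β h η m - A ρ β h m) ^ 2 ∂(law d ρ) = σ ^ 2 := by rw [hσV]; rfl
  have hcheb : ∀ u : ℝ, 0 < u →
      (law d ρ).real {η | (u * σ) ^ 2 ≤ (X β h η m - A ρ β h m) ^ 2} ≤ 1 / u ^ 2 := by
    intro u hu
    have h3 := mul_meas_ge_le_integral_of_nonneg (μ := law d ρ)
      (Eventually.of_forall fun η => sq_nonneg (X β h η m - A ρ β h m)) iY2 ((u * σ) ^ 2)
    rw [hV2, mul_pow] at h3
    rw [mul_pow, le_div_iff₀ (by positivity)]
    have h4 : 0 < σ ^ 2 := by positivity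
    have h5 : σ ^ 2 * ((law d ρ).real {η | u ^ 2 * σ ^ 2 ≤ (X β h η m - A ρ β h m) ^ 2} * u ^ 2) ≤
        σ ^ 2 * 1 := by
      calc σ ^ 2 * ((law d ρ).real {η | u ^ 2 * σ ^ 2 ≤ (X β h η m - A ρ β h m) ^ 2} * u ^ 2) =
          u ^ 2 * σ ^ 2 * (law d ρ).real {η | u ^ 2 * σ ^ 2 ≤ (X β h η m - A ρ β h m) ^ 2} := by
            ring
        _ ≤ σ ^ 2 := h3
        _ = σ ^ 2 * 1 := by ring
    exact le_of_mul_le_mul_left h5 h4
  have hlaw : ∀ s : ℝ, (law d ρ).real {η | X β h η m ≤ s} =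
      (Ehr.gpi (A84.Is d m)).real {x | (A84.Y β h m fun i => φ (x i)) ≤ s} := fun s => by
    have := X_law hc hρφ β h m (T := Set.Iic s) measurableSet_Iic
    simpa only [Set.mem_Iic] using this
  have hlow : (law d ρ).real {η | X β h η m ≤ A ρ β h m - 40 * σ} ≤ Ehr.Phi (-2) := by
    refine le_trans ?_ h2a
    refine le_trans ?_ ((hcheb 40 (by norm_num)).trans (by norm_num))
    refine measureReal_mono fun η hη => ?_
    have h5 : X β h η m ≤ A ρ β h m - 40 * σ := hη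
    show (40 * σ) ^ 2 ≤ (X β h η m - A ρ β h m) ^ 2
    nlinarith
  have hhigh : Ehr.Phi 0 ≤ (law d ρ).real {η | X β h η m ≤ A ρ β h m + 2 * σ} := by
    rw [hhalf]
    have h4 : (law d ρ).real {η | A ρ β h m + 2 * σ < X β h η m} ≤ 1 / 2 ^ 2 := by
      refine le_trans (measureReal_mono fun η hη => ?_) (hcheb 2 (by norm_num))
      have h5 : A ρ β h m + 2 * σ < X β h η m := hη
      show (2 * σ) ^ 2 ≤ (X β h η m - A ρ β h m) ^ 2
      nlinarith
    have h5 : (law d ρ).real {η | A ρ β h m + 2 * σ < X β h η m} =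
        1 - (law d ρ).real {η | X β h η m ≤ A ρ β h m + 2 * σ} := by
      rw [← probReal_compl_eq_one_sub (measurableSet_le mX measurable_const)]
      congr 1
      ext η
      simp
    rw [h5] at h4
    norm_num at h4 ⊢
    linarith
  have hun := Ehr.unluck (Y_conv hφ hβ h m) ((Y_cont β h m).comp (by fun_prop)) (a := -2) (b := 0)
    (s0 := A ρ β h m - 40 * σ) (s1 := A ρ β h m + 2 * σ) (t := (K - 40) / 42)
    (by
      have : 0 ≤ K - 40 := by linarith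
      positivity) (by
      rw [← hlaw]
      exact hlow) (by
      rw [← hlaw]
      exact hhigh)
  have e1 : A ρ β h m - 40 * σ - (K - 40) / 42 * (A ρ β h m + 2 * σ - (A ρ β h m - 40 * σ)) =
      A ρ β h m - K * σ := by ring
  rw [e1, ← hlaw] at hun
  have e2 : (-2 : ℝ) - (K - 40) / 42 * (0 - (-2)) = -(2 + 2 * ((K - 40) / 42)) := by ring
  rw [e2] at hun
  have hK40 : 0 ≤ (K - 40) / 42 := by
    have : 0 ≤ K - 40 := by linarith
    positivity
  have h6 := Phi_upper (b := 2 + 2 * ((K - 40) / 42)) (by linarith)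
  have h7 : Real.exp (-(2 + 2 * ((K - 40) / 42)) ^ 2 / 2) ≤ Real.exp (-K) := by
    refine Real.exp_le_exp.2 ?_
    have e3 : 2 + 2 * ((K - 40) / 42) = (K + 2) / 21 := by ring
    rw [e3]
    nlinarith
  have hK0 : 0 < K := by linarith
  have h8 : K ^ 5 / (Nat.factorial 5 : ℕ) ≤ Real.exp K := Real.pow_div_factorial_le_exp K hK0.le 5
  have h9 : (Nat.factorial 5 : ℕ) = 120 := rfl
  rw [h9] at h8
  have h10 : 2 * K ^ 4 < Real.exp K := by
    refine lt_of_lt_of_le ?_ h8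
    push_cast
    rw [lt_div_iff₀ (by norm_num)]
    have h11 : K ^ 5 = K * K ^ 4 := by ring
    rw [h11]
    have h12 : 0 < K ^ 4 := by positivity
    nlinarith
  have h11 : Real.exp (-K) < 1 / (2 * K ^ 4) := by
    rw [Real.exp_neg, ← one_div]
    exact one_div_lt_one_div_of_lt (by positivity) h10
  linarith [hp.trans (hun.trans (h6.trans h7))]

/-- **THEOREM UC with the variance at all times**, for the laws of the convex functions of a
Gaussian variable. -/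
theorem mainWG43 (hd : 0 < d) (hρ : EM ρ) (hG : GC ρ) (hnc : ∀ c : ℝ, ρ {c} ≠ 1) (hβ : 0 < β) :
    MainW d ρ β :=
  mainW43 hd hρ (mainVU43 hd hρ hnc hβ (ampU43 (amp84 hd hG hβ.le))) (ampU43 (amp84 hd hG hβ.le))
    (deep43 hd hρ hG hβ.le) (inf43 hd hρ hnc hβ)

/-- The clause for the laws of the convex functions of a Gaussian variable. -/
theorem clauseW43 {Ω : Type*} [MeasurableSpace Ω] {μ : Measure Ω} [IsProbabilityMeasure μ]
    {ω : ℕ × Site d → Ω → ℝ} (hd : 0 < d)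
    (hω : IID μ ρ ω) (hρ : EM ρ) (hnc : ∀ c : ℝ, ρ {c} ≠ 1) (hβ : 0 < β) (hG : GC ρ) :
    ∀ h : Vec d, lamN ρ β h < annN ρ β h → ∀ C : ℝ, ∃ θ : ℝ, 0 < θ ∧
      ((∃ᶠ n : ℕ in atTop, ∀ m : ℕ, m ≤ n →
        C * Var[fun x => Real.log (Zn β h (fun p => ω p x) m); μ] ≤
          (n * lamN ρ β h - ∫ x, Real.log (Zn β h (fun p => ω p x) n) ∂μ) ^ 2) ∨
        ∀ᶠ n : ℕ in atTop, (n : ℝ) ^ θ ≤
          Var[fun x => Real.log (Zn β h (fun p => ω p x) n); μ]) := by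
  intro h hh C
  simp only [var29 hd hω hρ, en19 hd hω hρ]
  exact mainWG43 hd hρ hG hnc hβ h ((vsd29 h).1 hh) C

/-- The joint clause: every law at the maximal time, the laws of the convex functions of a Gaussian
variable at every time. -/
theorem clauseJ43 {Ω : Type*} [MeasurableSpace Ω] {μ : Measure Ω} [IsProbabilityMeasure μ]
    {ω : ℕ × Site d → Ω → ℝ} (hd : 0 < d)
    (hω : IID μ ρ ω) (hρ : EM ρ) (hnc : ∀ c : ℝ, ρ {c} ≠ 1) (hβ : 0 < β) (hU : AmpU ρ β d) :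
    ∀ h : Vec d, lamN ρ β h < annN ρ β h → ∀ C : ℝ, ∃ θ : ℝ, 0 < θ ∧
      ((∃ᶠ n : ℕ in atTop, ∀ m : ℕ, m ≤ n →
        C * Var[fun x => Real.log (Zn β h (fun p => ω p x) m); μ] ≤
          (n * lamN ρ β h - ∫ x, Real.log (Zn β h (fun p => ω p x) n) ∂μ) ^ 2) ∨
        ∀ᶠ n : ℕ in atTop, (∃ m : ℕ, m ≤ n ∧ (n : ℝ) ^ θ ≤
          Var[fun x => Real.log (Zn β h (fun p => ω p x) m); μ]) ∧
          (GC ρ → (n : ℝ) ^ θ ≤ Var[fun x => Real.log (Zn β h (fun p => ω p x) n); μ])) := by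
  intro h hh C
  have hV := clauseVU43 hd hω hρ hnc hβ hU h hh C
  by_cases hG : GC ρ
  · obtain ⟨θ, hθ, h1⟩ := clauseW43 hd hω hρ hnc hβ hG h hh C
    refine ⟨θ, hθ, h1.imp id fun h2 => h2.mono fun n hn => ⟨⟨n, le_rfl, hn⟩, fun _ => hn⟩⟩
  · obtain ⟨θ, hθ, h1⟩ := hV
    exact ⟨θ, hθ, h1.imp id fun h2 => h2.mono fun n hn => ⟨hn, fun h3 => absurd h3 hG⟩⟩

end Pool.Agent.W_7d29a1_UC
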