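import Pool.Agent.W_7d29a1_UC.DefsC43
import Pool.Agent.W_7d29a1_NV.EndNT66

/-!
The random fluctuations diverge in every dimension (from the final form of the theorem on the
tightness of the centred free energies).
-/

namespace Pool.Agent.W_7d29a1_UC

open MeasureTheory ProbabilityTheory Filter Topology Pool.Agent.W_MP_7d29a1_pr
  Pool.Agent.W_7d29a1_h46 Pool.Agent.W_7d29a1_h46u Pool.Agent.W_7d29a1_D2.B35
  Pool.Agent.W_7d29a1_Q29 Pool.Agent.W_7d29a1_R34 Pool.Agent.W_7d29a1_SP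

variable {d : ℕ} {ρ : Measure ℝ} [IsProbabilityMeasure ρ] {β : ℝ}

/-- INF. -/
theorem inf43 (hd : 0 < d) (hρ : EM ρ) (hnc : ∀ c : ℝ, ρ {c} ≠ 1) (hβ : 0 < β) :
    InfP d ρ β := by
  intro h hV
  rw [tendsto_atTop]
  intro b
  by_contra hcon
  have hcon' : ∃ᶠ n : ℕ in atTop, Fn ρ β h n < b := by
    rw [Filter.not_eventually] at hcon
    exact hcon.mono fun n hn => not_le.1 hn
  obtain ⟨φ, hφ, hφb⟩ := extraction_of_frequently_atTop hcon'
  refine Pool.Agent.W_7d29a1_NV.mainNT66 hd hρ hnc hβ h hV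
    ⟨φ, fun j => A ρ β h (φ j), hφ, fun δ hδ => ⟨(|b| + 1) / δ, fun j => ?_⟩⟩
  have hM : 0 < (|b| + 1) / δ := div_pos (by positivity) hδ
  have hX : Integrable (fun η => X β h η (φ j)) (law d ρ) := (concU hd hρ β h (φ j)).1
  have hY : Integrable (fun η => |X β h η (φ j) - A ρ β h (φ j)|) (law d ρ) :=
    (hX.sub (integrable_const _)).abs
  have h1 := mul_meas_ge_le_integral_of_nonneg (μ := law d ρ)
    (Eventually.of_forall fun η => abs_nonneg (X β h η (φ j) - A ρ β h (φ j))) hY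
    ((|b| + 1) / δ)
  have h2 : (law d ρ).real {η | (|b| + 1) / δ < |X β h η (φ j) - A ρ β h (φ j)|} ≤
      (law d ρ).real {η | (|b| + 1) / δ ≤ |X β h η (φ j) - A ρ β h (φ j)|} :=
    measureReal_mono fun η hη => by
      have h9 : (|b| + 1) / δ < |X β h η (φ j) - A ρ β h (φ j)| := hη
      exact h9.le
  have h3 : Fn ρ β h (φ j) < b := hφb j
  unfold Fn at h3
  have h4 : (|b| + 1) / δ *
      (law d ρ).real {η | (|b| + 1) / δ ≤ |X β h η (φ j) - A ρ β h (φ j)|} ≤ |b| + 1 := by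
    refine h1.trans (h3.le.trans ?_)
    linarith [le_abs_self b]
  refine h2.trans ?_
  have h5 : (law d ρ).real {η | (|b| + 1) / δ ≤ |X β h η (φ j) - A ρ β h (φ j)|} ≤
      (|b| + 1) / ((|b| + 1) / δ) := by
    rw [le_div_iff₀ hM, mul_comm]
    exact h4
  have h6 : (|b| + 1) / ((|b| + 1) / δ) = δ := by
    have h7 : (|b| + 1) ≠ 0 := by positivity
    field_simp
  rwa [h6] at h5

end Pool.Agent.W_7d29a1_UC
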