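import Pool.Agent.W_7d29a1_SP.DefsSP

/-!
Random against nonrandom fluctuations in every dimension: definitions and frozen statements of the
leaves.
-/

namespace Pool.Agent.W_7d29a1_UC

open MeasureTheory ProbabilityTheory Filter Topology Pool.Agent.W_MP_7d29a1_pr
  Pool.Agent.W_7d29a1_h46 Pool.Agent.W_7d29a1_h46u Pool.Agent.W_7d29a1_D2.B35
  Pool.Agent.W_7d29a1_Q29 Pool.Agent.W_7d29a1_R34 Pool.Agent.W_7d29a1_SP

section Leaves

variable (d : ℕ) (ρ : Measure ℝ) (β : ℝ)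

open Classical in
/-- CNT2: counting in time with the mean of the gain. -/
def Cnt2P : Prop := ∀ c₀ : ℝ, 0 < c₀ → ∃ C : ℝ, 1 ≤ C ∧ ∀ h : Vec d, Loc1 ρ β h c₀ →
  ∀ (m N T : ℕ) (x Φ : ℝ), 1 ≤ m → 1 ≤ N → 0 ≤ x →
    C * (N * (law d ρ).real {η | A ρ β h m + x ≤ X β h η m}) ≤ 1 → C * m * N ≤ T →
    (∀ k : ℕ, k ≤ T → En ρ β h k ≤ Φ ∧ Fn ρ β h k ≤ Φ) →
      N * ∫ η, (if A ρ β h m + x ≤ X β h η m then X β h η m - A ρ β h m else 0) ∂(law d ρ) ≤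
        C * (Φ + 1)

/-- MED: the free energy is below its mean with a probability bounded below. -/
def MedP : Prop := ∃ q : ℝ, 0 < q ∧ ∀ (h : Vec d) (m : ℕ),
  q ≤ (law d ρ).real {η | X β h η m ≤ A ρ β h m}

/-- GRO: growth of the fluctuations. -/
def Gro2P : Prop := ∀ c₀ Λ : ℝ, 0 < c₀ → 1 ≤ Λ → ∃ K : ℕ, 2 ≤ K ∧ ∀ h : Vec d, Loc1 ρ β h c₀ →
  ∀ (m : ℕ) (Φ : ℝ), 1 ≤ m → (∀ k : ℕ, k ≤ K * m → En ρ β h k ≤ Φ ∧ Fn ρ β h k ≤ Φ) →
    Λ * Fn ρ β h m ≤ Φ + 1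

/-- INF: the random fluctuations diverge. -/
def InfP : Prop := ∀ h : Vec d, VSD ρ β h → Tendsto (fun n : ℕ => Fn ρ β h n) atTop atTop

/-- The theorem: for every `C` there is `θ > 0` such that either the nonrandom fluctuation is
infinitely often at least `C` times every random fluctuation up to that time, or the random
fluctuations grow like a power. -/
def MainC : Prop := ∀ h : Vec d, VSD ρ β h → ∀ C : ℝ, ∃ θ : ℝ, 0 < θ ∧
  ((∃ᶠ n : ℕ in atTop, ∀ m : ℕ, m ≤ n → C * Fn ρ β h m ≤ En ρ β h n) ∨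
    ∀ᶠ n : ℕ in atTop, ∃ m : ℕ, m ≤ n ∧ (n : ℝ) ^ θ ≤ Fn ρ β h m)

end Leaves

end Pool.Agent.W_7d29a1_UC
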