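import Pool.Agent.W_7d29a1_SP.Cnt79
import Pool.Agent.W_7d29a1_UC.DefsC43

/-!
Leaf CNT2: counting in time with the mean of the gain.
-/

set_option autoImplicit false

namespace Pool.Agent.W_7d29a1_UC.C78

open MeasureTheory ProbabilityTheory Filter Topology Pool.Agent.W_MP_7d29a1_pr
  Pool.Agent.W_7d29a1_h46 Pool.Agent.W_7d29a1_h46u Pool.Agent.W_7d29a1_D2.B35
  Pool.Agent.W_7d29a1_Q29 Pool.Agent.W_7d29a1_R34 Pool.Agent.W_7d29a1_SP
  Pool.Agent.W_7d29a1_SP.C79

variable {d : ℕ} {ρ : Measure ℝ}

/-- The gain above the level `x`. -/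
noncomputable def Ga (ρ : Measure ℝ) (β : ℝ) (h : Vec d) (m : ℕ) (x : ℝ) : Env d → ℝ :=
  {η : Env d | A ρ β h m + x ≤ X β h η m}.indicator fun η => X β h η m - A ρ β h m

lemma Ga_meas (β : ℝ) (h : Vec d) (m : ℕ) (x : ℝ) : Measurable (Ga ρ β h m x) :=
  ((measurable_X β h m).sub_const _).indicator
    (measurableSet_le measurable_const (measurable_X β h m))

lemma Ga_int [IsProbabilityMeasure ρ] (hd : 0 < d) (hρ : EM ρ) (β : ℝ) (h : Vec d) (m : ℕ)
    (x : ℝ) : Integrable (Ga ρ β h m x) (law d ρ) :=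
  ((concU hd hρ β h m).1.sub (integrable_const _)).indicator
    (measurableSet_le measurable_const (measurable_X β h m))

lemma Ga_nn (β : ℝ) (h : Vec d) (m : ℕ) {x : ℝ} (hx : 0 ≤ x) (η : Env d) :
    0 ≤ Ga ρ β h m x η := by
  refine Set.indicator_nonneg (fun η hη => ?_) η
  have h1 : A ρ β h m + x ≤ X β h η m := hη
  linarith

/-- The lower bound: the mean of the gain. -/
lemma low78 [IsProbabilityMeasure ρ] (hd : 0 < d) (hρ : EM ρ) (β : ℝ) (h : Vec d) (s m : ℕ)
    {x : ℝ} (hx : 0 ≤ x) {c₀ : ℝ} (hc : 0 < c₀)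
    {B : Set (Env d)} (hB : MeasurableSet B) (hdep : DependsOn (fun η => η ∈ B) (Pa d s)) :
    (∫ η, one (LS β h c₀ m (A ρ β h m + x) s ∩ B) η *
        (X β h η s + (Real.log c₀ + A ρ β h m)) ∂(law d ρ)) +
      (law d ρ).real (AS β h c₀ s ∩ B) * ∫ η, Ga ρ β h m x η ∂(law d ρ) ≤
      ∫ η, one (LS β h c₀ m (A ρ β h m + x) s ∩ B) η * X β h η (s + m) ∂(law d ρ) := by
  set a : ℝ := A ρ β h m + x with ha
  set g : ℝ := ∫ η, Ga ρ β h m x η ∂(law d ρ) with hg
  set S : Env d → ℝ := fun η => ∑ y ∈ boxF d s, one (At β h c₀ s y) η with hS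
  have hSm : Measurable S := Finset.measurable_fun_sum _ fun y _ => one_meas (At_meas β h c₀ s y)
  set w : Site d → Env d → ℝ := fun y η => one B η * (one (At β h c₀ s y) η / S η) with hw
  have hwm : ∀ y, Measurable (w y) := fun y =>
    (one_meas hB).mul ((one_meas (At_meas β h c₀ s y)).div hSm)
  have hS0 : ∀ η, 0 ≤ S η := fun η => Finset.sum_nonneg fun y _ => one_nn _ _
  have hw0 : ∀ y η, 0 ≤ w y η := fun y η => mul_nonneg (one_nn _ _) (div_nonneg (one_nn _ _) (hS0 η))
  have hsum : ∀ η, ∑ y ∈ boxF d s, w y η = one (AS β h c₀ s ∩ B) η := by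
    intro η
    show ∑ y ∈ boxF d s, one B η * (one (At β h c₀ s y) η / S η) = _
    rw [← Finset.mul_sum, ← Finset.sum_div, one_inter]
    by_cases hη : η ∈ AS β h c₀ s
    · have hpos : 0 < S η := by
        obtain ⟨y, hy, hA⟩ := hη
        have h1 := Finset.single_le_sum (s := boxF d s) (f := fun y => one (At β h c₀ s y) η)
          (fun y _ => one_nn _ _) hy
        have h2 : one (At β h c₀ s y) η = 1 := one_of hA
        simp only [h2] at h1
        exact lt_of_lt_of_le one_pos h1
      rw [one_of hη, show (∑ y ∈ boxF d s, one (At β h c₀ s y) η) = S η from rfl,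
        div_self hpos.ne', mul_one, one_mul]
    · have hz : S η = 0 := by
        refine Finset.sum_eq_zero fun y hy => one_not fun hA => hη ⟨y, hy, hA⟩
      rw [one_not hη, show (∑ y ∈ boxF d s, one (At β h c₀ s y) η) = S η from rfl, hz, zero_div,
        mul_zero, zero_mul]
  have hw1 : ∀ y ∈ boxF d s, ∀ η, w y η ≤ 1 := by
    intro y hy η
    refine (Finset.single_le_sum (f := fun y => w y η) (fun y _ => hw0 y η) hy).trans ?_
    rw [hsum]
    exact one_le _ _
  have hwn : ∀ y ∈ boxF d s, ∀ η, ‖w y η‖ ≤ 1 := fun y hy η => by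
    rw [Real.norm_eq_abs, abs_of_nonneg (hw0 y η)]
    exact hw1 y hy η
  have hGs : ∀ y : Site d, Integrable (fun η => Ga ρ β h m x (sh s y η)) (law d ρ) := fun y =>
    (mp_sh s y).integrable_comp_of_integrable (Ga_int hd hρ β h m x)
  have i1 : ∀ y ∈ boxF d s, Integrable (w y) (law d ρ) := fun y hy =>
    (integrable_const (1 : ℝ)).mono' (hwm y).aestronglyMeasurable
      (Eventually.of_forall fun η => hwn y hy η)
  have i2 : ∀ y ∈ boxF d s, Integrable (fun η => w y η * Ga ρ β h m x (sh s y η)) (law d ρ) :=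
    fun y hy => (hGs y).bdd_mul (c := 1) (hwm y).aestronglyMeasurable
      (Eventually.of_forall fun η => hwn y hy η)
  have e1 : ∀ y, ∫ η, w y η * Ga ρ β h m x (sh s y η) ∂(law d ρ) =
      (∫ η, w y η ∂(law d ρ)) * g := by
    intro y
    have h1 := integral_indep (ρ := ρ) (Pa d s) (F := w y)
      (G := fun η => Ga ρ β h m x (sh s y η)) (hwm y)
      ((Ga_meas β h m x).comp (measurable_sh s y)) (fun η η' hη => by
        have h2 := one_dep hdep hη
        have h3 : ∀ y, one (At β h c₀ s y) η = one (At β h c₀ s y) η' := fun y =>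
          one_dep (At_dep β h c₀ s y) hη
        show one B η * (one (At β h c₀ s y) η / ∑ y ∈ boxF d s, one (At β h c₀ s y) η) =
          one B η' * (one (At β h c₀ s y) η' / ∑ y ∈ boxF d s, one (At β h c₀ s y) η')
        simp only [h2, h3]) (fun η η' hη => by
        have h2 : X β h (sh s y η) m = X β h (sh s y η') m := FreeU_dep2 β h s m y hη
        show Ga ρ β h m x (sh s y η) = Ga ρ β h m x (sh s y η')
        unfold Ga
        by_cases h3 : A ρ β h m + x ≤ X β h (sh s y η) m
        · rw [Set.indicator_of_mem (show sh s y η ∈ {η : Env d | A ρ β h m + x ≤ X β h η m} from h3),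
            Set.indicator_of_mem (show sh s y η' ∈ {η : Env d | A ρ β h m + x ≤ X β h η m} from by
              show A ρ β h m + x ≤ X β h (sh s y η') m
              rw [← h2]
              exact h3)]
          simp only [h2]
        · rw [Set.indicator_of_notMem
              (show sh s y η ∉ {η : Env d | A ρ β h m + x ≤ X β h η m} from h3),
            Set.indicator_of_notMem
              (show sh s y η' ∉ {η : Env d | A ρ β h m + x ≤ X β h η m} from
              fun h4 => h3 (by
                rw [h2]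
                exact h4))])
    rw [h1, integral_sh s y (Ga_meas β h m x)]
  have h1 : ∀ η, one (LS β h c₀ m a s ∩ B) η * (X β h η s + (Real.log c₀ + A ρ β h m)) +
      ∑ y ∈ boxF d s, w y η * Ga ρ β h m x (sh s y η) ≤
      one (LS β h c₀ m a s ∩ B) η * X β h η (s + m) := by
    intro η
    by_cases hη : η ∈ LS β h c₀ m a s ∩ B
    · rw [one_of hη, one_mul, one_mul]
      -- the gain of every atom
      have hgain : ∀ y, η ∈ At β h c₀ s y → X β h (sh s y η) m - A ρ β h m ≤
          X β h η (s + m) - (X β h η s + (Real.log c₀ + A ρ β h m)) := by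
        intro y hA
        have hA' : c₀ * Z β h η s ≤ PP β h η s y := hA
        have hZ := Z_pos hd β h η s
        have hZm := Z_pos hd β h (sh s y η) m
        have hch := PP_chainZ β h η s m y
        have k1 : c₀ * Z β h η s * Z β h (sh s y η) m ≤ Z β h η (s + m) :=
          (mul_le_mul_of_nonneg_right hA' hZm.le).trans hch
        have k2 := Real.log_le_log (mul_pos (mul_pos hc hZ) hZm) k1
        rw [Real.log_mul (mul_pos hc hZ).ne' hZm.ne', Real.log_mul hc.ne' hZ.ne'] at k2
        have k3 : Real.log (Z β h (sh s y η) m) = X β h (sh s y η) m := rfl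
        have k4 : Real.log (Z β h η s) = X β h η s := rfl
        have k5 : Real.log (Z β h η (s + m)) = X β h η (s + m) := rfl
        rw [k3, k4, k5] at k2
        linarith
      have hR : 0 ≤ X β h η (s + m) - (X β h η s + (Real.log c₀ + A ρ β h m)) := by
        obtain ⟨⟨y, hy, hA, hL⟩, _⟩ := hη
        have k1 := hgain y hA
        have k2 : a ≤ X β h (sh s y η) m := hL
        rw [ha] at k2
        linarith
      have h2 : ∀ y ∈ boxF d s, w y η * Ga ρ β h m x (sh s y η) ≤
          w y η * (X β h η (s + m) - (X β h η s + (Real.log c₀ + A ρ β h m))) := by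
        intro y hy
        by_cases hA : η ∈ At β h c₀ s y
        · refine mul_le_mul_of_nonneg_left ?_ (hw0 y η)
          unfold Ga
          by_cases h3 : A ρ β h m + x ≤ X β h (sh s y η) m
          · rw [Set.indicator_of_mem
              (show sh s y η ∈ {η : Env d | A ρ β h m + x ≤ X β h η m} from h3)]
            exact hgain y hA
          · rw [Set.indicator_of_notMem
              (show sh s y η ∉ {η : Env d | A ρ β h m + x ≤ X β h η m} from h3)]
            exact hR
        · have hz : w y η = 0 := by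
            show one B η * (one (At β h c₀ s y) η / S η) = 0
            rw [one_not hA, zero_div, mul_zero]
          rw [hz, zero_mul, zero_mul]
      have h3 := Finset.sum_le_sum h2
      rw [← Finset.sum_mul, hsum] at h3
      have h4 := mul_le_mul_of_nonneg_right (one_le (AS β h c₀ s ∩ B) η) hR
      linarith
    · rw [one_not hη, zero_mul, zero_mul, zero_add]
      refine Finset.sum_nonpos fun y hy => ?_
      by_cases hB' : η ∈ B
      · by_cases hA : η ∈ At β h c₀ s y
        · have hL : ¬ A ρ β h m + x ≤ X β h (sh s y η) m := fun hL => hη ⟨⟨y, hy, hA, hL⟩, hB'⟩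
          unfold Ga
          rw [Set.indicator_of_notMem
              (show sh s y η ∉ {η : Env d | A ρ β h m + x ≤ X β h η m} from hL), mul_zero]
        · show one B η * (one (At β h c₀ s y) η / S η) * _ ≤ 0
          rw [one_not hA, zero_div, mul_zero, zero_mul]
      · show one B η * (one (At β h c₀ s y) η / S η) * _ ≤ 0
        rw [one_not hB', zero_mul, zero_mul]
  have hX : ∀ k, Integrable (fun η => X β h η k) (law d ρ) := fun k => (concU hd hρ β h k).1
  have hTm : MeasurableSet (LS β h c₀ m a s ∩ B) := (LS_meas β h c₀ m a s).inter hB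
  have i3 := mul_int (ρ := ρ) hTm ((hX s).add (integrable_const (Real.log c₀ + A ρ β h m)))
  simp only [Pi.add_apply] at i3
  have i4 := integrable_finsetSum (boxF d s) fun y hy => i2 y hy
  have h2 := integral_mono (i3.add i4) (mul_int (ρ := ρ) hTm (hX (s + m))) h1
  simp only [Pi.add_apply] at h2
  rw [integral_add i3 i4, integral_finsetSum _ fun y hy => i2 y hy,
    Finset.sum_congr rfl fun y _ => e1 y,
    ← Finset.sum_mul, ← integral_finsetSum _ fun y hy => i1 y hy] at h2
  simp only [hsum] at h2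
  rw [one_I ((AS_meas β h c₀ s).inter hB)] at h2
  exact h2

/-- The balance. -/
lemma main78 [IsProbabilityMeasure ρ] (hd : 0 < d) (hρ : EM ρ) (β : ℝ) (h : Vec d) {c₀ x Φ : ℝ}
    (hx : 0 ≤ x)
    (hc : 0 < c₀) {m T : ℕ} (S : Finset ℕ) (hS : ∀ s ∈ S, ∀ s' ∈ S, s' < s → s' + m ≤ s)
    (hT : ∀ s ∈ S, s + m ≤ T)
    (hloc : ∀ s ∈ S, c₀ ≤ (law d ρ).real (AS β h c₀ s))
    (hΦ : ∀ k : ℕ, k ≤ T → En ρ β h k ≤ Φ ∧ Fn ρ β h k ≤ Φ) :
    ∃ π : ℝ, 0 ≤ π ∧
      π ≤ S.card * ((law d ρ).real {η | A ρ β h m + x ≤ X β h η m} / c₀) ∧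
      (Real.log c₀ - 3 * Φ) * π +
          S.card * ((c₀ - π) * ∫ η, Ga ρ β h m x η ∂(law d ρ)) ≤
        Φ + S.card * ((law d ρ).real {η | A ρ β h m + x ≤ X β h η m} / c₀ * Φ) := by
  classical
  set a : ℝ := A ρ β h m + x with ha
  set g : ℝ := ∫ η, Ga ρ β h m x η ∂(law d ρ) with hg
  have hg0 : 0 ≤ g := integral_nonneg fun η => Ga_nn β h m hx η
  set p : ℝ := (law d ρ).real {η : Env d | a ≤ X β h η m} with hp
  have hp0 : 0 ≤ p := measureReal_nonneg
  set L : ℕ → Set (Env d) := fun s => LS β h c₀ m a s with hL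
  have hLm : ∀ s, MeasurableSet (L s) := fun s => LS_meas β h c₀ m a s
  set B : ℕ → Set (Env d) := fun s => {η | ∀ s' ∈ S, s' < s → η ∉ L s'} with hB
  have hBm : ∀ s, MeasurableSet (B s) := by
    intro s
    have e : B s = ⋂ s' ∈ S, {η | s' < s → η ∉ L s'} := by
      ext η
      simp only [hB, Set.mem_ofPred_eq, Set.mem_iInter]
    rw [e]
    refine Finset.measurableSet_biInter _ fun s' _ => ?_
    by_cases hlt : s' < s
    · have e2 : {η | s' < s → η ∉ L s'} = (L s')ᶜ := by
        ext η
        simp [hlt]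
      rw [e2]
      exact (hLm s').compl
    · have e2 : {η : Env d | s' < s → η ∉ L s'} = Set.univ := by
        ext η
        simp [hlt]
      rw [e2]
      exact MeasurableSet.univ
  set I : Set (Env d) := {η | ∀ s ∈ S, η ∉ L s} with hI
  have hIm : MeasurableSet I := by
    have e : I = ⋂ s ∈ S, (L s)ᶜ := by
      ext η
      simp only [hI, Set.mem_ofPred_eq, Set.mem_iInter, Set.mem_compl_iff]
    rw [e]
    exact Finset.measurableSet_biInter _ fun s _ => (hLm s).compl
  have hTm : ∀ s, MeasurableSet (L s ∩ B s) := fun s => (hLm s).inter (hBm s)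
  have hone : ∀ η, ∑ s ∈ S, one (L s ∩ B s) η + one I η = 1 := fun η => first79 S L η
  have hBd : ∀ s ∈ S, DependsOn (fun η => η ∈ B s) (Pa d s) := by
    intro s hs η η' hη
    have h1 : ∀ s' ∈ S, s' < s → (η ∈ L s') = (η' ∈ L s') := fun s' hs' hlt =>
      LS_dep β h c₀ m a s' fun q hq => hη q (by
        change q.1 ≤ s
        have h2 : q.1 ≤ s' + m := hq
        exact h2.trans (hS s hs s' hs' hlt))
    show (∀ s' ∈ S, s' < s → η ∉ L s') = (∀ s' ∈ S, s' < s → η' ∉ L s')
    refine propext ⟨fun H s' hs' hlt => ?_, fun H s' hs' hlt => ?_⟩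
    · rw [← h1 s' hs' hlt]
      exact H s' hs' hlt
    · rw [h1 s' hs' hlt]
      exact H s' hs' hlt
  have hTd : ∀ s ∈ S, DependsOn (fun η => η ∈ L s ∩ B s) (Pa d (s + m)) := by
    intro s hs η η' hη
    have h1 : (η ∈ L s) = (η' ∈ L s) := LS_dep β h c₀ m a s hη
    have h2 : (η ∈ B s) = (η' ∈ B s) := hBd s hs fun q hq => hη q (by
      change q.1 ≤ s + m
      have h2 : q.1 ≤ s := hq
      omega)
    show (η ∈ L s ∧ η ∈ B s) = (η' ∈ L s ∧ η' ∈ B s)
    rw [h1, h2]
  set π : ℝ := ∑ s ∈ S, (law d ρ).real (L s ∩ B s) with hπ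
  have hπI : π + (law d ρ).real I = 1 := by
    have h1 : ∫ η, (∑ s ∈ S, one (L s ∩ B s) η + one I η) ∂(law d ρ) = 1 := by
      simp only [hone]
      simp
    rw [integral_add (integrable_finsetSum _ fun s _ => one_int (hTm s)) (one_int hIm),
      integral_finsetSum _ fun s _ => one_int (hTm s), one_I hIm] at h1
    rw [hπ, ← h1]
    congr 1
    exact Finset.sum_congr rfl fun s _ => (one_I (hTm s)).symm
  have hπ0 : 0 ≤ π := Finset.sum_nonneg fun s _ => measureReal_nonneg
  refine ⟨π, hπ0, ?_, ?_⟩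
  · -- the upper bound of the probability of a success
    have h1 : ∀ s ∈ S, (law d ρ).real (L s ∩ B s) ≤ p / c₀ := by
      intro s hs
      have h2 := up79 (ρ := ρ) hd β h s m a hc (f := fun _ => (1 : ℝ)) measurable_const
        (integrable_const _) (fun _ => zero_le_one) (fun _ _ _ => rfl)
      simp only [mul_one, integral_const, probReal_univ, smul_eq_mul] at h2
      rw [one_I (LS_meas β h c₀ m a s)] at h2
      exact (measureReal_mono Set.inter_subset_left).trans h2
    have h2 := Finset.sum_le_sum h1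
    rw [Finset.sum_const, nsmul_eq_mul] at h2
    exact h2
  · -- the expectation
    have hX : ∀ k, Integrable (fun η => X β h η k) (law d ρ) := fun k => (concU hd hρ β h k).1
    have hXA : ∀ k, Integrable (fun η => X β h η k - A ρ β h k) (law d ρ) := fun k =>
      (hX k).sub (integrable_const _)
    have hX0 : ∀ k, ∫ η, (X β h η k - A ρ β h k) ∂(law d ρ) = 0 := by
      intro k
      rw [integral_sub (hX k) (integrable_const _), integral_const]
      simp only [probReal_univ, smul_eq_mul, one_mul]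
      exact sub_self _
    have h0 : ∑ s ∈ S, ∫ η, one (L s ∩ B s) η * (X β h η T - A ρ β h T) ∂(law d ρ) +
        ∫ η, one I η * (X β h η T - A ρ β h T) ∂(law d ρ) = 0 := by
      rw [← integral_finsetSum _ fun s _ => mul_int (hTm s) (hXA T),
        ← integral_add (integrable_finsetSum _ fun s _ => mul_int (hTm s) (hXA T))
          (mul_int hIm (hXA T)), ← hX0 T]
      refine integral_congr_ae (Eventually.of_forall fun η => ?_)
      simp only
      rw [← Finset.sum_mul, ← add_mul, hone, one_mul]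
    have h1 : -Φ ≤ ∫ η, one I η * (X β h η T - A ρ β h T) ∂(law d ρ) := by
      have h2 : ∀ η, -|X β h η T - A ρ β h T| ≤ one I η * (X β h η T - A ρ β h T) := by
        intro η
        have h3 := neg_abs_le (X β h η T - A ρ β h T)
        have h4 := abs_nonneg (X β h η T - A ρ β h T)
        by_cases hη : η ∈ I
        · rw [one_of hη, one_mul]
          exact h3
        · rw [one_not hη, zero_mul]
          linarith
      have h3 := integral_mono (hXA T).abs.neg (mul_int hIm (hXA T)) h2
      simp only [Pi.neg_apply] at h3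
      rw [integral_neg] at h3
      have h4 := (hΦ T le_rfl).2
      unfold Fn at h4
      linarith
    have h2 : ∀ s ∈ S, (Real.log c₀ - 3 * Φ) * (law d ρ).real (L s ∩ B s) + (c₀ - π) * g -
          p / c₀ * Φ ≤
        ∫ η, one (L s ∩ B s) η * (X β h η T - A ρ β h T) ∂(law d ρ) := by
      intro s hs
      have hsT := hT s hs
      obtain ⟨k, hk⟩ : ∃ k, T = (s + m) + k := ⟨T - (s + m), by omega⟩
      -- Jensen
      have j1 := jen79 (ρ := ρ) hd hρ β h (s + m) k (hTm s) (hTd s hs)
      rw [← hk] at j1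
      have j2 : ∫ η, one (L s ∩ B s) η * (X β h η T - A ρ β h T) ∂(law d ρ) =
          (∫ η, one (L s ∩ B s) η * X β h η T ∂(law d ρ)) -
            A ρ β h T * (law d ρ).real (L s ∩ B s) := by
        have i1 := mul_int (ρ := ρ) (hTm s) (hX T)
        have i2 := (one_int (ρ := ρ) (hTm s)).const_mul (A ρ β h T)
        rw [← one_I (hTm s), ← integral_const_mul, ← integral_sub i1 i2]
        refine integral_congr_ae (Eventually.of_forall fun η => ?_)
        simp only
        ring
      -- the gain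
      have j4 := low78 (ρ := ρ) hd hρ β h s m hx hc (hBm s) (hBd s hs)
      rw [← ha, ← hg] at j4
      have j5 : ∫ η, one (L s ∩ B s) η * (X β h η s + (Real.log c₀ + A ρ β h m)) ∂(law d ρ) =
          (∫ η, one (L s ∩ B s) η * (X β h η s - A ρ β h s) ∂(law d ρ)) +
            (A ρ β h s + (Real.log c₀ + A ρ β h m)) * (law d ρ).real (L s ∩ B s) := by
        have i1 := mul_int (ρ := ρ) (hTm s) (hXA s)
        have i2 := (one_int (ρ := ρ) (hTm s)).const_mul
          (A ρ β h s + (Real.log c₀ + A ρ β h m))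
        rw [← one_I (hTm s), ← integral_const_mul, ← integral_add i1 i2]
        refine integral_congr_ae (Eventually.of_forall fun η => ?_)
        simp only
        ring
      have j6 : -(p / c₀ * Φ) ≤
          ∫ η, one (L s ∩ B s) η * (X β h η s - A ρ β h s) ∂(law d ρ) := by
        have i1 := mul_int (ρ := ρ) (hLm s) (hXA s).abs
        have h3 : ∀ η, -(one (L s) η * |X β h η s - A ρ β h s|) ≤
            one (L s ∩ B s) η * (X β h η s - A ρ β h s) := by
          intro η
          have h4 := neg_abs_le (X β h η s - A ρ β h s)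
          have h5 := abs_nonneg (X β h η s - A ρ β h s)
          by_cases hη : η ∈ L s ∩ B s
          · rw [one_of hη, one_of hη.1, one_mul, one_mul]
            exact h4
          · rw [one_not hη, zero_mul]
            have h6 := mul_nonneg (one_nn (L s) η) h5
            linarith
        have h4 := integral_mono i1.neg (mul_int (ρ := ρ) (hTm s) (hXA s)) h3
        simp only [Pi.neg_apply] at h4
        rw [integral_neg] at h4
        have h5 := up79 (ρ := ρ) hd β h s m a hc (f := fun η => |X β h η s - A ρ β h s|)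
          ((measurable_X β h s).sub_const _).abs (hXA s).abs (fun η => abs_nonneg _)
          (fun η η' hη => by
            have h6 : Z β h η s = Z β h η' s := S98.Z_dep β h s hη
            simp only
            unfold X
            rw [h6])
        have h6 := (hΦ s (by omega)).2
        unfold Fn at h6
        have h7 := mul_le_mul_of_nonneg_left h6 (div_nonneg hp0 hc.le)
        linarith
      have j7 : A ρ β h T ≤ A ρ β h s + A ρ β h m + A ρ β h k + 3 * Φ := by
        have e1 := (hΦ s (by omega)).1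
        have e2 := (hΦ m (by omega)).1
        have e3 := (hΦ k (by omega)).1
        have e4 := A_le_lam hd hρ β h T
        unfold En at e1 e2 e3
        rw [hk] at e4 ⊢
        push_cast at e4
        linarith
      have j8 : (0 : ℝ) ≤ (law d ρ).real (L s ∩ B s) := measureReal_nonneg
      have j9 := mul_le_mul_of_nonneg_right j7 j8
      have j10 : c₀ - π ≤ (law d ρ).real (AS β h c₀ s ∩ B s) := by
        have h2 : I ⊆ B s := fun η hη s' hs' _ => hη s' hs'
        have h3 := measureReal_mono (μ := law d ρ) h2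
        have h4 : AS β h c₀ s ⊆ (AS β h c₀ s ∩ B s) ∪ (B s)ᶜ := by
          intro η hη
          by_cases hb : η ∈ B s
          · exact Or.inl ⟨hη, hb⟩
          · exact Or.inr hb
        have h5 := (measureReal_mono (μ := law d ρ) h4).trans (measureReal_union_le _ _)
        rw [probReal_compl_eq_one_sub (hBm s)] at h5
        have h6 := hloc s hs
        linarith
      have j11 := mul_le_mul_of_nonneg_right j10 hg0
      rw [j2]
      have j12 : ∫ η, one (LS β h c₀ m a s ∩ B s) η * (X β h η s + (Real.log c₀ + A ρ β h m))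
          ∂(law d ρ) = ∫ η, one (L s ∩ B s) η * (X β h η s + (Real.log c₀ + A ρ β h m))
          ∂(law d ρ) := rfl
      have j13 : ∫ η, one (LS β h c₀ m a s ∩ B s) η * X β h η (s + m) ∂(law d ρ) =
          ∫ η, one (L s ∩ B s) η * X β h η (s + m) ∂(law d ρ) := rfl
      rw [j12, j13, j5] at j4
      linarith
    have h3 := Finset.sum_le_sum h2
    rw [Finset.sum_sub_distrib, Finset.sum_add_distrib, ← Finset.mul_sum, Finset.sum_const,
      Finset.sum_const, nsmul_eq_mul, nsmul_eq_mul] at h3
    linarith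

end Pool.Agent.W_7d29a1_UC.C78

namespace Pool.Agent.W_7d29a1_UC

open MeasureTheory ProbabilityTheory Filter Topology Pool.Agent.W_MP_7d29a1_pr
  Pool.Agent.W_7d29a1_h46 Pool.Agent.W_7d29a1_h46u Pool.Agent.W_7d29a1_D2.B35
  Pool.Agent.W_7d29a1_Q29 Pool.Agent.W_7d29a1_R34 Pool.Agent.W_7d29a1_SP

/-- Leaf CNT2. -/
theorem cnt2_78 {d : ℕ} {ρ : Measure ℝ} [IsProbabilityMeasure ρ] (hd : 0 < d) (hρ : EM ρ)
    (β : ℝ) : Cnt2P d ρ β := by
  classical
  intro c₀ hc
  set C : ℝ := 2 / c₀ ^ 2 + (1 / c₀ + 2) + 2 / c₀ * (1 + c₀ / 2 + c₀ / 2 * (3 + |Real.log c₀|))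
    with hC
  have hCc : 0 ≤ |Real.log c₀| := abs_nonneg _
  have hCa : 0 ≤ 2 / c₀ ^ 2 := by positivity
  have hCb : 0 < 1 / c₀ := by positivity
  have hCd : 0 ≤ 2 / c₀ * (1 + c₀ / 2 + c₀ / 2 * (3 + |Real.log c₀|)) := by positivity
  refine ⟨C, by linarith, fun h hloc m N T x Φ hm hN hx hp hT hΦ => ?_⟩
  have hΦ0 : 0 ≤ Φ := by
    refine le_trans ?_ (hΦ 0 (Nat.zero_le _)).2
    exact integral_nonneg fun η => abs_nonneg _
  have hge : (∫ η, (if A ρ β h m + x ≤ X β h η m then X β h η m - A ρ β h m else 0)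
      ∂(law d ρ)) = ∫ η, C78.Ga ρ β h m x η ∂(law d ρ) := by
    refine integral_congr_ae (Eventually.of_forall fun η => ?_)
    unfold C78.Ga
    simp only [Set.indicator_apply, Set.mem_ofPred_eq]
  rw [hge]
  set p : ℝ := (law d ρ).real {η | A ρ β h m + x ≤ X β h η m} with hpd
  set g : ℝ := ∫ η, C78.Ga ρ β h m x η ∂(law d ρ) with hg
  have hg0 : 0 ≤ g := integral_nonneg fun η => C78.Ga_nn β h m hx η
  have hp0 : 0 ≤ p := measureReal_nonneg
  have hm1 : (1 : ℝ) ≤ m := by exact_mod_cast hm
  have hN1 : (1 : ℝ) ≤ N := by exact_mod_cast hN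
  have hNp0 : 0 ≤ N * p := by positivity
  have hNp : N * p ≤ c₀ ^ 2 / 2 := by
    have h1 : 2 / c₀ ^ 2 * (N * p) ≤ 1 := by
      refine le_trans (mul_le_mul_of_nonneg_right ?_ hNp0) hp
      linarith
    rw [div_mul_eq_mul_div, div_le_one (by positivity)] at h1
    linarith
  have hNpc : N * (p / c₀) ≤ c₀ / 2 := by
    have h1 : N * (p / c₀) = N * p / c₀ := by ring
    rw [h1, div_le_iff₀ hc]
    refine hNp.trans (le_of_eq ?_)
    ring
  set n : ℕ := ⌈N * m / c₀⌉₊ with hn
  have hn1 : (N * m : ℝ) / c₀ ≤ n := Nat.le_ceil _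
  have hn2 : (n : ℝ) < N * m / c₀ + 1 := Nat.ceil_lt_add_one (by positivity)
  set F : Finset ℕ := (Finset.range n).filter fun t =>
    c₀ ≤ (law d ρ).real {η | ∃ y ∈ boxF d t, c₀ * Z β h η t ≤ PP β h η t y} with hF
  have hcard : N * m ≤ F.card := by
    have h1 := hloc n
    have h2 : (N * m : ℝ) ≤ c₀ * n := by
      rw [div_le_iff₀ hc] at hn1
      linarith
    exact_mod_cast h2.trans h1
  obtain ⟨S, hS1, hS2, hS3⟩ := C79.class79 hm F hcard
  have hnT : n + m ≤ T := by
    have h1 : (n : ℝ) + m ≤ T := by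
      refine le_trans ?_ hT
      have h2 : (1 / c₀ + 2) * m * N ≤ C * m * N := by
        refine mul_le_mul_of_nonneg_right (mul_le_mul_of_nonneg_right ?_ (by positivity))
          (by positivity)
        linarith
      refine le_trans ?_ h2
      have h3 : (1 / c₀ + 2) * m * N = N * m / c₀ + 2 * (m * N) := by ring
      rw [h3]
      have h4 : (m : ℝ) ≤ m * N := by nlinarith
      linarith
    exact_mod_cast h1
  obtain ⟨π, hπ0, hπ1, hπ2⟩ := C78.main78 (ρ := ρ) hd hρ β h (x := x) (Φ := Φ) hx hc (m := m)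
    (T := T) S hS3 (fun s hs => by
      have h1 := Finset.mem_range.1 (Finset.mem_filter.1 (hS1 hs)).1
      omega) (fun s hs => (Finset.mem_filter.1 (hS1 hs)).2) hΦ
  rw [hS2, ← hpd] at hπ1 hπ2
  rw [← hg] at hπ2
  have hπc : π ≤ c₀ / 2 := hπ1.trans hNpc
  have h1 : N * (c₀ / 2 * g) ≤ N * ((c₀ - π) * g) := by
    refine mul_le_mul_of_nonneg_left (mul_le_mul_of_nonneg_right ?_ hg0) (by positivity)
    linarith
  have h2 : N * (p / c₀ * Φ) ≤ c₀ / 2 * Φ := by
    rw [← mul_assoc]
    exact mul_le_mul_of_nonneg_right hNpc hΦ0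
  have h3 : -(c₀ / 2 * (|Real.log c₀| + 3 * Φ)) ≤ (Real.log c₀ - 3 * Φ) * π := by
    have h4 : -|Real.log c₀| ≤ Real.log c₀ := neg_abs_le _
    have h5 : -(|Real.log c₀| + 3 * Φ) * π ≤ (Real.log c₀ - 3 * Φ) * π :=
      mul_le_mul_of_nonneg_right (by linarith) hπ0
    have h6 : (|Real.log c₀| + 3 * Φ) * π ≤ (|Real.log c₀| + 3 * Φ) * (c₀ / 2) :=
      mul_le_mul_of_nonneg_left hπc (by positivity)
    linarith
  have h4 : N * g * (c₀ / 2) ≤ Φ + c₀ / 2 * Φ + c₀ / 2 * (|Real.log c₀| + 3 * Φ) := by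
    linarith
  have h5 : N * g ≤ 2 / c₀ * (Φ + c₀ / 2 * Φ + c₀ / 2 * (|Real.log c₀| + 3 * Φ)) := by
    have h6 : N * g = 2 / c₀ * (N * g * (c₀ / 2)) := by
      field_simp
    rw [h6]
    exact mul_le_mul_of_nonneg_left h4 (by positivity)
  refine h5.trans ?_
  have h6 : Φ + c₀ / 2 * Φ + c₀ / 2 * (|Real.log c₀| + 3 * Φ) ≤
      (1 + c₀ / 2 + c₀ / 2 * (3 + |Real.log c₀|)) * (Φ + 1) := by
    have h7 : 0 ≤ c₀ / 2 * (|Real.log c₀| * Φ) := by positivity
    have h8 : 0 ≤ c₀ / 2 := by positivity
    nlinarith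
  have h7 := mul_le_mul_of_nonneg_left h6 (show (0 : ℝ) ≤ 2 / c₀ by positivity)
  refine h7.trans ?_
  rw [← mul_assoc]
  refine mul_le_mul_of_nonneg_right ?_ (by linarith)
  linarith

end Pool.Agent.W_7d29a1_UC
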