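import Mathlib

/-!
Two elementary facts on second moments.
-/

namespace Pool.Agent.W_7d29a1_UC

open MeasureTheory ProbabilityTheory Filter Topology

variable {Ω : Type*} [MeasurableSpace Ω] (μ : Measure Ω) [IsProbabilityMeasure μ]

/-- The second moment is carried by the truncation when the tail is at most `K ^ (-3)`. -/
lemma dyad43 {f : Ω → ℝ} (hf : Measurable f) (h0 : ∀ x, 0 ≤ f x)
    (hi : Integrable (fun x => f x ^ 2) μ) {K₀ : ℝ} (hK : 1 ≤ K₀)
    (ht : ∀ K : ℝ, K₀ ≤ K → μ.real {x | K ≤ f x} ≤ 1 / K ^ 3) :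
    ∫ x, f x ^ 2 ∂μ ≤ (∫ x, min (f x) K₀ ^ 2 ∂μ) + 8 / K₀ := by
  have hK0 : 0 < K₀ := by linarith
  have hpos : ∀ J : ℕ, 0 < 2 ^ J * K₀ := fun J => by positivity
  have hmin0 : ∀ (J : ℕ) x, 0 ≤ min (f x) (2 ^ J * K₀) := fun J x =>
    le_min (h0 x) (hpos J).le
  have hmi : ∀ J : ℕ, Integrable (fun x => min (f x) (2 ^ J * K₀) ^ 2) μ := by
    intro J
    refine hi.mono' ((hf.min measurable_const).pow_const 2).aestronglyMeasurable
      (Eventually.of_forall fun x => ?_)
    rw [Real.norm_eq_abs, abs_of_nonneg (sq_nonneg _)]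
    exact pow_le_pow_left₀ (hmin0 J x) (min_le_left _ _) 2
  have hstep : ∀ J : ℕ, ∫ x, min (f x) (2 ^ J * K₀) ^ 2 ∂μ ≤
      (∫ x, min (f x) K₀ ^ 2 ∂μ) + 8 / K₀ * (1 - 1 / 2 ^ J) := by
    intro J
    induction J with
    | zero => simp
    | succ J ih =>
      have hms : MeasurableSet {x | 2 ^ J * K₀ ≤ f x} := measurableSet_le measurable_const hf
      have hind : Integrable ({x | 2 ^ J * K₀ ≤ f x}.indicator
          (fun _ => (2 ^ (J + 1) * K₀) ^ 2)) μ := (integrable_const _).indicator hms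
      have hpt : ∀ x, min (f x) (2 ^ (J + 1) * K₀) ^ 2 ≤ min (f x) (2 ^ J * K₀) ^ 2 +
          ({x | 2 ^ J * K₀ ≤ f x}.indicator (fun _ => (2 ^ (J + 1) * K₀) ^ 2)) x := by
        intro x
        by_cases hx : 2 ^ J * K₀ ≤ f x
        · rw [Set.indicator_of_mem (show x ∈ {x | 2 ^ J * K₀ ≤ f x} from hx)]
          have h1 : min (f x) (2 ^ (J + 1) * K₀) ^ 2 ≤ (2 ^ (J + 1) * K₀) ^ 2 :=
            pow_le_pow_left₀ (hmin0 (J + 1) x) (min_le_right _ _) 2
          have h2 := sq_nonneg (min (f x) (2 ^ J * K₀))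
          linarith
        · rw [Set.indicator_of_notMem (show x ∉ {x | 2 ^ J * K₀ ≤ f x} from hx), add_zero]
          push Not at hx
          rw [min_eq_left hx.le]
          exact pow_le_pow_left₀ (hmin0 (J + 1) x) (min_le_left _ _) 2
      have h1 := integral_mono (hmi (J + 1)) ((hmi J).add hind) hpt
      simp only [Pi.add_apply] at h1
      rw [integral_add (hmi J) hind, integral_indicator_const _ hms, smul_eq_mul] at h1
      have h2 : K₀ ≤ 2 ^ J * K₀ := by
        have : (1 : ℝ) ≤ 2 ^ J := one_le_pow₀ (by norm_num)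
        nlinarith
      have h3 := mul_le_mul_of_nonneg_right (ht _ h2) (sq_nonneg (2 ^ (J + 1) * K₀))
      have h4 : 1 / (2 ^ J * K₀) ^ 3 * (2 ^ (J + 1) * K₀) ^ 2 =
          8 / K₀ * (1 - 1 / 2 ^ (J + 1)) - 8 / K₀ * (1 - 1 / 2 ^ J) := by
        have h5 : (2 : ℝ) ^ J ≠ 0 := by positivity
        rw [pow_succ]
        field_simp
        ring
      linarith
  have hlim : Tendsto (fun J : ℕ => ∫ x, min (f x) (2 ^ J * K₀) ^ 2 ∂μ) atTop
      (𝓝 (∫ x, f x ^ 2 ∂μ)) := by
    refine tendsto_integral_of_dominated_convergence (fun x => f x ^ 2)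
      (fun J => (hmi J).aestronglyMeasurable) hi (fun J => Eventually.of_forall fun x => ?_)
      (Eventually.of_forall fun x => ?_)
    · rw [Real.norm_eq_abs, abs_of_nonneg (sq_nonneg _)]
      exact pow_le_pow_left₀ (hmin0 J x) (min_le_left _ _) 2
    · have h1 : ∀ᶠ J : ℕ in atTop, f x ≤ 2 ^ J * K₀ := by
        have h2 : Tendsto (fun J : ℕ => (2 : ℝ) ^ J * K₀) atTop atTop :=
          (tendsto_pow_atTop_atTop_of_one_lt (by norm_num)).atTop_mul_const hK0
        exact h2.eventually_ge_atTop (f x)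
      refine tendsto_const_nhds.congr' (h1.mono fun J hJ => ?_)
      simp only
      rw [min_eq_left hJ]
  refine le_of_tendsto' hlim fun J => (hstep J).trans ?_
  have h1 : 0 ≤ 8 / K₀ * (1 / 2 ^ J) := by positivity
  linarith

/-- A normalised variable with small tails is spread out. -/
lemma mod43 {f : Ω → ℝ} (hf : Measurable f) (h0 : ∀ x, 0 ≤ f x)
    (hi : Integrable (fun x => f x ^ 2) μ) (h1 : ∫ x, f x ^ 2 ∂μ = 1) {K₀ : ℝ} (hK : 16 ≤ K₀)
    (ht : ∀ K : ℝ, K₀ ≤ K → μ.real {x | K ≤ f x} ≤ 1 / K ^ 3) :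
    1 / (4 * K₀ ^ 2) ≤ μ.real {x | 1 / 2 ≤ f x} := by
  have hK0 : 0 < K₀ := by linarith
  have h2 := dyad43 μ hf h0 hi (by linarith) ht
  rw [h1] at h2
  have h3 : 8 / K₀ ≤ 1 / 2 := by
    rw [div_le_div_iff₀ hK0 (by norm_num)]
    linarith
  have hms : MeasurableSet {x | 1 / 2 ≤ f x} := measurableSet_le measurable_const hf
  have hind : Integrable ({x | 1 / 2 ≤ f x}.indicator (fun _ => K₀ ^ 2)) μ :=
    (integrable_const _).indicator hms
  have hmi : Integrable (fun x => min (f x) K₀ ^ 2) μ := by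
    refine hi.mono' ((hf.min measurable_const).pow_const 2).aestronglyMeasurable
      (Eventually.of_forall fun x => ?_)
    rw [Real.norm_eq_abs, abs_of_nonneg (sq_nonneg _)]
    exact pow_le_pow_left₀ (le_min (h0 x) hK0.le) (min_le_left _ _) 2
  have hpt : ∀ x, min (f x) K₀ ^ 2 ≤ 1 / 4 +
      ({x | 1 / 2 ≤ f x}.indicator (fun _ => K₀ ^ 2)) x := by
    intro x
    by_cases hx : 1 / 2 ≤ f x
    · rw [Set.indicator_of_mem (show x ∈ {x | 1 / 2 ≤ f x} from hx)]
      have : min (f x) K₀ ^ 2 ≤ K₀ ^ 2 :=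
        pow_le_pow_left₀ (le_min (h0 x) hK0.le) (min_le_right _ _) 2
      linarith
    · rw [Set.indicator_of_notMem (show x ∉ {x | 1 / 2 ≤ f x} from hx), add_zero]
      push Not at hx
      have h4 : min (f x) K₀ ≤ 1 / 2 := (min_le_left _ _).trans hx.le
      have h5 := pow_le_pow_left₀ (le_min (h0 x) hK0.le) h4 2
      norm_num at h5 ⊢
      linarith
  have h4 := integral_mono hmi ((integrable_const (1 / 4 : ℝ)).add hind) hpt
  simp only [Pi.add_apply] at h4
  rw [integral_add (integrable_const _) hind, integral_indicator_const _ hms, smul_eq_mul,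
    integral_const, probReal_univ, one_smul] at h4
  rw [div_le_iff₀ (by positivity)]
  nlinarith

/-- Cantelli. -/
lemma cant43 {f : Ω → ℝ} (hf : Measurable f) (hi1 : Integrable f μ)
    (hi : Integrable (fun x => f x ^ 2) μ) {s : ℝ} (hs : 0 < s) (h0 : ∫ x, f x ∂μ = 0)
    (h1 : ∫ x, f x ^ 2 ∂μ = s ^ 2) : μ.real {x | s / 4 ≤ f x} ≤ 16 / 17 := by
  have hi2 : Integrable (fun x => (f x + 4 * s) ^ 2) μ := by
    have h2 : (fun x => (f x + 4 * s) ^ 2) = fun x => f x ^ 2 + (8 * s * f x + 16 * s ^ 2) := by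
      funext x
      ring
    rw [h2]
    exact hi.add ((hi1.const_mul (8 * s)).add (integrable_const _))
  have h3 : ∫ x, (f x + 4 * s) ^ 2 ∂μ = 17 * s ^ 2 := by
    have h2 : (fun x => (f x + 4 * s) ^ 2) = fun x => f x ^ 2 + (8 * s * f x + 16 * s ^ 2) := by
      funext x
      ring
    have i1 : Integrable (fun x => 8 * s * f x + 16 * s ^ 2) μ :=
      (hi1.const_mul (8 * s)).add (integrable_const _)
    rw [h2, integral_add hi i1,
      integral_add (hi1.const_mul (8 * s)) (integrable_const _), integral_const_mul, h0, h1,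
      integral_const, probReal_univ, one_smul]
    ring
  have h4 := mul_meas_ge_le_integral_of_nonneg (μ := μ)
    (Eventually.of_forall fun x => sq_nonneg (f x + 4 * s)) hi2 ((17 / 4 * s) ^ 2)
  rw [h3] at h4
  have h5 : μ.real {x | s / 4 ≤ f x} ≤ μ.real {x | (17 / 4 * s) ^ 2 ≤ (f x + 4 * s) ^ 2} := by
    refine measureReal_mono fun x hx => ?_
    have hx' : s / 4 ≤ f x := hx
    show (17 / 4 * s) ^ 2 ≤ (f x + 4 * s) ^ 2
    exact pow_le_pow_left₀ (by positivity) (by linarith) 2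
  refine h5.trans ?_
  have h6 : 0 < s ^ 2 := by positivity
  nlinarith

end Pool.Agent.W_7d29a1_UC
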