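import Pool.Agent.W_7d29a1_UC.Gro43
import Pool.Agent.W_7d29a1_UC.Inf43
import Pool.Agent.W_7d29a1_UC.Med31
import Pool.Agent.W_7d29a1_UC.Cnt2_78
import Pool.Agent.W_7d29a1_UC.TrC19
import Pool.Agent.W_7d29a1_SP.Cnt79
import Pool.Agent.W_7d29a1_SP.Amp84

/-!
Random against nonrandom fluctuations in every dimension: the theorem for the laws of the convex
functions of a Gaussian variable, and its form in the letters of the problem.
-/

namespace Pool.Agent.W_7d29a1_UC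

open MeasureTheory ProbabilityTheory Filter Topology Pool.Agent.W_MP_7d29a1_pr
  Pool.Agent.W_7d29a1_h46 Pool.Agent.W_7d29a1_h46u Pool.Agent.W_7d29a1_D2.B35
  Pool.Agent.W_7d29a1_Q29 Pool.Agent.W_7d29a1_R34 Pool.Agent.W_7d29a1_SP

/-- **THEOREM UC** for the laws of the convex functions of a Gaussian variable. -/
theorem mainC43 {d : ℕ} {ρ : Measure ℝ} [IsProbabilityMeasure ρ] {β : ℝ} (hd : 0 < d) (hρ : EM ρ)
    (hG : GC ρ) (hnc : ∀ c : ℝ, ρ {c} ≠ 1) (hβ : 0 < β) : MainC d ρ β :=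
  main43 hd hρ (gro43 hd hρ (cnt79 hd hρ β) (cnt2_78 hd hρ β) (amp84 hd hG hβ.le)
    (med31 hd hρ hG hβ.le)) (inf43 hd hρ hnc hβ)

/-- The clause in the letters of the problem. -/
theorem clauseC43 {Ω : Type*} [MeasurableSpace Ω] {μ : Measure Ω} [IsProbabilityMeasure μ] {d : ℕ}
    {ρ : Measure ℝ} [IsProbabilityMeasure ρ] {ω : ℕ × Site d → Ω → ℝ} {β : ℝ} (hd : 0 < d)
    (hω : IID μ ρ ω) (hρ : EM ρ) (hnc : ∀ c : ℝ, ρ {c} ≠ 1) (hβ : 0 < β) (hG : GC ρ) :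
    ∀ h : Vec d, lamN ρ β h < annN ρ β h → ∀ C : ℝ, ∃ θ : ℝ, 0 < θ ∧
      ((∃ᶠ n : ℕ in atTop, ∀ m : ℕ, m ≤ n →
        C * ∫ x, |Real.log (Zn β h (fun p => ω p x) m) -
          ∫ y, Real.log (Zn β h (fun p => ω p y) m) ∂μ| ∂μ ≤
            n * lamN ρ β h - ∫ x, Real.log (Zn β h (fun p => ω p x) n) ∂μ) ∨
        ∀ᶠ n : ℕ in atTop, ∃ m : ℕ, m ≤ n ∧ (n : ℝ) ^ θ ≤
          Var[fun x => Real.log (Zn β h (fun p => ω p x) m); μ]) :=
  trV19 hd hω hρ (mainC43 hd hρ hG hnc hβ)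

end Pool.Agent.W_7d29a1_UC
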