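import Pool.Agent.W_7d29a1_UC.Gro43
import Pool.Agent.W_7d29a1_UC.Dya43
import Pool.Agent.W_7d29a1_AM.DefsAM
import Pool.Agent.W_7d29a1_Q29.Npb39

/-!
Growth of the standard deviation, every law (over the amplification of the upper deviations).
-/

namespace Pool.Agent.W_7d29a1_UC

open MeasureTheory ProbabilityTheory Filter Topology Pool.Agent.W_MP_7d29a1_pr
  Pool.Agent.W_7d29a1_h46 Pool.Agent.W_7d29a1_h46u Pool.Agent.W_7d29a1_D2.B35
  Pool.Agent.W_7d29a1_Q29 Pool.Agent.W_7d29a1_R34 Pool.Agent.W_7d29a1_SP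
open Pool.Agent.W_7d29a1_AM (AmpU)

variable {d : ℕ} {ρ : Measure ℝ} {β : ℝ}

/-- GROS: growth of the standard deviation. -/
def GroSP (d : ℕ) (ρ : Measure ℝ) (β : ℝ) : Prop := ∀ c₀ Λ : ℝ, 0 < c₀ → 1 ≤ Λ →
  ∃ (a : ℕ) (S B : ℝ), 1 ≤ B ∧ ∀ h : Vec d, Loc1 ρ β h c₀ → ∀ m : ℕ, 1 ≤ m → S ≤ Va ρ β h m →
    ∃ K : ℝ, 2 ≤ K ∧ K ≤ B * m ∧ ∀ (T : ℕ) (Φ : ℝ), m * K ^ a ≤ T →
      (∀ k : ℕ, k ≤ T → En ρ β h k ≤ Φ ∧ Fn ρ β h k ≤ Φ) →
        Λ * K * Real.sqrt (Va ρ β h m) ≤ Φ + 1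

variable [IsProbabilityMeasure ρ]

lemma cen43 (hd : 0 < d) (hρ : EM ρ) (β : ℝ) (h : Vec d) (m : ℕ) :
    Integrable (fun η => X β h η m - A ρ β h m) (law d ρ) ∧
      Integrable (fun η => (X β h η m - A ρ β h m) ^ 2) (law d ρ) ∧
      ∫ η, (X β h η m - A ρ β h m) ∂(law d ρ) = 0 := by
  have hX : Integrable (fun η => X β h η m) (law d ρ) := (concU hd hρ β h m).1
  refine ⟨hX.sub (integrable_const _), ?_, ?_⟩
  · have h1 : MemLp (fun η : Env d => X β h η m) 2 (law d ρ) := by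
      rw [memLp_two_iff_integrable_sq (measurable_X β h m).aestronglyMeasurable]
      exact integrable_X_sq39 hd hρ β h m
    exact (h1.sub (memLp_const (A ρ β h m))).integrable_sq
  · rw [integral_sub hX (integrable_const _)]
    simp [A]

/-- The multiples of the standard deviation which matter are at most linear. -/
lemma kb43 (hd : 0 < d) (hρ : EM ρ) (β : ℝ) : ∃ B : ℝ, 2 ≤ B ∧ ∀ (h : Vec d) (m : ℕ), 1 ≤ m →
    ∀ K σ : ℝ, 1 ≤ σ → 1 ≤ K →
      1 / (2 * K ^ 3) ≤ (law d ρ).real {η | K * σ ≤ |X β h η m - A ρ β h m|} → K ≤ B * m := by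
  obtain ⟨M, hM, hmom⟩ := momU (d := d) hd hρ β 8
  refine ⟨2 + 2 * M, by linarith, fun h m hm K σ hσ hK hp => ?_⟩
  obtain ⟨hi, hb⟩ := hmom h m hm
  have hm1 : (1 : ℝ) ≤ m := by exact_mod_cast hm
  have h1 := mul_meas_ge_le_integral_of_nonneg (μ := law d ρ)
    (Eventually.of_forall fun η => pow_nonneg (abs_nonneg (X β h η m - A ρ β h m)) 8) hi (K ^ 8)
  have h2 : (law d ρ).real {η | K * σ ≤ |X β h η m - A ρ β h m|} ≤
      (law d ρ).real {η | K ^ 8 ≤ |X β h η m - A ρ β h m| ^ 8} := by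
    refine measureReal_mono fun η hη => ?_
    have h3 : K * σ ≤ |X β h η m - A ρ β h m| := hη
    show K ^ 8 ≤ |X β h η m - A ρ β h m| ^ 8
    exact pow_le_pow_left₀ (by linarith) (le_trans (by nlinarith) h3) 8
  have h3 : (m : ℝ) ^ ((1 / 2 : ℝ) * (8 : ℕ)) = (m : ℝ) ^ 4 := by
    rw [← Real.rpow_natCast]
    congr 1
    norm_num
  rw [h3] at hb
  have hK0 : 0 < K := by linarith
  have h4 : K ^ 8 * (1 / (2 * K ^ 3)) ≤ M * (m : ℝ) ^ 4 :=
    (mul_le_mul_of_nonneg_left (hp.trans h2) (by positivity)).trans (h1.trans hb)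
  have h5 : K ^ 8 * (1 / (2 * K ^ 3)) = K ^ 5 / 2 := by
    field_simp
  rw [h5] at h4
  by_contra hcon
  push Not at hcon
  have hB1 : 1 ≤ 2 + 2 * M := by linarith
  have h6 : ((2 + 2 * M) * m) ^ 5 < K ^ 5 := pow_lt_pow_left₀ hcon (by positivity) (by norm_num)
  have h7 : (2 + 2 * M) * (m : ℝ) ^ 4 ≤ ((2 + 2 * M) * m) ^ 5 := by
    have h8 : ((2 + 2 * M) * m) ^ 5 = ((2 + 2 * M) * (m : ℝ) ^ 4) * ((2 + 2 * M) ^ 4 * m) := by
      ring
    rw [h8]
    have h9 : 1 ≤ (2 + 2 * M) ^ 4 * (m : ℝ) := by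
      have : 1 ≤ (2 + 2 * M) ^ 4 := one_le_pow₀ hB1
      nlinarith
    have h10 : 0 ≤ (2 + 2 * M) * (m : ℝ) ^ 4 := by positivity
    nlinarith
  have h8 : (0 : ℝ) < (m : ℝ) ^ 4 := by positivity
  nlinarith

/-- **Growth of the standard deviation.** -/
theorem groS43 (hd : 0 < d) (hρ : EM ρ) (h1 : CntP d ρ β) (h2 : AmpU ρ β d) : GroSP d ρ β := by
  intro c₀ Λ hc₀ hΛ
  obtain ⟨C1, hC1, cnt⟩ := h1 c₀ hc₀
  obtain ⟨C2, hC2, amp2⟩ := h2 2 (by norm_num)
  obtain ⟨t, htd⟩ : ∃ t : ℝ, t = 32 * C1 * Λ := ⟨_, rfl⟩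
  have hC1Λ : 1 ≤ C1 * Λ := by nlinarith
  have ht : 32 ≤ t := by rw [htd]; linarith
  obtain ⟨C3, hC3, amp3⟩ := h2 t (by linarith)
  obtain ⟨B, hB, hkb⟩ := kb43 (d := d) hd hρ β
  obtain ⟨K1, hK1d⟩ : ∃ K1 : ℝ, K1 = max 16 (max ((C1 * Λ) ^ 2) (2 * C1)) := ⟨_, rfl⟩
  have hK1a : 16 ≤ K1 := by rw [hK1d]; exact le_max_left _ _
  have hK1b : (C1 * Λ) ^ 2 ≤ K1 := by
    rw [hK1d]; exact (le_max_left _ _).trans (le_max_right _ _)
  have hK1c : 2 * C1 ≤ K1 := by
    rw [hK1d]; exact (le_max_right _ _).trans (le_max_right _ _)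
  obtain ⟨q, hqd⟩ : ∃ q : ℝ, q = 1 / (8 * K1 ^ 2) := ⟨_, rfl⟩
  have hq : 0 < q := by rw [hqd]; positivity
  have hq64 : q ≤ 1 / 64 := by
    rw [hqd]
    exact one_div_le_one_div_of_le (by norm_num) (by nlinarith)
  have hqC : 0 < q ^ C3 := Real.rpow_pos_of_pos hq _
  obtain ⟨aC, haC⟩ : ∃ aC : ℕ, C1 / q ^ C3 < 2 ^ aC :=
    pow_unbounded_of_one_lt _ (by norm_num)
  obtain ⟨a, had⟩ : ∃ a : ℕ, a = ⌈8 * C2 + 2⌉₊ + 8 + aC := ⟨_, rfl⟩
  have ha1 : 8 * C2 + 2 ≤ (a : ℝ) := by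
    have h3 := Nat.le_ceil (8 * C2 + 2)
    have h4 : (⌈8 * C2 + 2⌉₊ : ℝ) ≤ a := by
      rw [had]
      push_cast
      linarith [(Nat.cast_nonneg aC : (0 : ℝ) ≤ aC)]
    linarith
  have ha2 : 8 ≤ a := by omega
  have ha3 : aC ≤ a := by omega
  obtain ⟨σ₀, hσ₀d⟩ : ∃ σ₀ : ℝ, σ₀ = max 1 (max (10 * C2) (8 * (C3 * (1 + Real.log (1 / q))))) :=
    ⟨_, rfl⟩
  have hσ1 : 1 ≤ σ₀ := by rw [hσ₀d]; exact le_max_left _ _
  have hσ2 : 10 * C2 ≤ σ₀ := by
    rw [hσ₀d]; exact (le_max_left _ _).trans (le_max_right _ _)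
  have hσ3 : 8 * (C3 * (1 + Real.log (1 / q))) ≤ σ₀ := by
    rw [hσ₀d]; exact (le_max_right _ _).trans (le_max_right _ _)
  refine ⟨a, σ₀ ^ 2, B, by linarith, fun h hL m hm hS => ?_⟩
  obtain ⟨σ, hσd⟩ : ∃ σ : ℝ, σ = Real.sqrt (Va ρ β h m) := ⟨_, rfl⟩
  have hσσ : σ₀ ≤ σ := by rw [hσd]; exact Real.le_sqrt_of_sq_le hS
  have hσp : 0 < σ := by linarith
  have hσV : Va ρ β h m = σ ^ 2 := by
    rw [hσd, Real.sq_sqrt]
    exact (sq_nonneg σ₀).trans hS
  obtain ⟨iY, iY2, hY0⟩ := cen43 hd hρ β h m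
  have hm0 : (0 : ℝ) < m := by exact_mod_cast hm
  have hm1 : (1 : ℝ) ≤ m := by exact_mod_cast hm
  have hV2 : ∫ η, (X β h η m - A ρ β h m) ^ 2 ∂(law d ρ) = σ ^ 2 := by rw [← hσV]; rfl
  rw [← hσd]
  -- from a lucky block of the gain `K σ`
  have hlucky : ∀ (K : ℝ) (q' : ℝ), K1 ≤ K → 0 < q' → C1 / q' ≤ Real.sqrt K ^ a →
      q' ≤ (law d ρ).real {η | A ρ β h m + K * σ ≤ X β h η m} → K ≤ B * m →
      ∃ K : ℝ, 2 ≤ K ∧ K ≤ B * m ∧ ∀ (T : ℕ) (Φ : ℝ), m * K ^ a ≤ T →
        (∀ k : ℕ, k ≤ T → En ρ β h k ≤ Φ ∧ Fn ρ β h k ≤ Φ) → Λ * K * σ ≤ Φ + 1 := by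
    intro K q' hK hq' hqa hp hKB
    have hK0 : 0 < K := by linarith
    have hsK : Real.sqrt K ^ 2 = K := Real.sq_sqrt hK0.le
    have hs0 : 0 < Real.sqrt K := Real.sqrt_pos.2 hK0
    have hs4 : 4 ≤ Real.sqrt K := Real.le_sqrt_of_sq_le (by linarith)
    have hsC : C1 * Λ ≤ Real.sqrt K := Real.le_sqrt_of_sq_le (hK1b.trans hK)
    refine ⟨Real.sqrt K, by linarith, by nlinarith, fun T Φ hT hΦ => ?_⟩
    have h3 : C1 * m / q' ≤ T := by
      refine le_trans ?_ hT
      have h4 := mul_le_mul_of_nonneg_left hqa hm0.le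
      refine le_trans (le_of_eq ?_) h4
      ring
    have h4 := cnt h hL m T (K * σ) q' Φ hm hq' hp h3 hΦ
    have h5 : 0 ≤ Φ + 1 := by
      have h6 : 0 < K * σ := by positivity
      by_contra hcon
      push Not at hcon
      nlinarith
    have h6 : C1 * (Λ * Real.sqrt K * σ) ≤ C1 * (Φ + 1) := by
      calc C1 * (Λ * Real.sqrt K * σ) = (C1 * Λ) * (Real.sqrt K * σ) := by ring
        _ ≤ Real.sqrt K * (Real.sqrt K * σ) :=
          mul_le_mul_of_nonneg_right hsC (by positivity)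
        _ = Real.sqrt K ^ 2 * σ := by ring
        _ = K * σ := by rw [hsK]
        _ ≤ C1 * (Φ + 1) := h4
    exact le_of_mul_le_mul_left h6 (by linarith)
  by_cases hA : ∃ K : ℝ, K1 ≤ K ∧
      1 / (2 * K ^ 3) ≤ (law d ρ).real {η | A ρ β h m + K * σ ≤ X β h η m}
  · obtain ⟨K, hK, hp⟩ := hA
    have hK0 : 0 < K := by linarith
    have hs1 : 1 ≤ Real.sqrt K := by
      rw [Real.one_le_sqrt]
      linarith
    refine hlucky K (1 / (2 * K ^ 3)) hK (by positivity) ?_ hp ?_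
    · have h3 : C1 / (1 / (2 * K ^ 3)) = (2 * C1) * K ^ 3 := by
        field_simp
      rw [h3]
      have h4 : Real.sqrt K ^ 8 = K ^ 4 := by
        have : Real.sqrt K ^ 8 = (Real.sqrt K ^ 2) ^ 4 := by ring
        rw [this, Real.sq_sqrt hK0.le]
      calc (2 * C1) * K ^ 3 ≤ K * K ^ 3 :=
            mul_le_mul_of_nonneg_right (hK1c.trans hK) (by positivity)
        _ = Real.sqrt K ^ 8 := by rw [h4]; ring
        _ ≤ Real.sqrt K ^ a := pow_le_pow_right₀ hs1 ha2
    · refine hkb h m hm K σ (by linarith) (by linarith) (hp.trans (measureReal_mono fun η hη => ?_))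
      have h3 : A ρ β h m + K * σ ≤ X β h η m := hη
      show K * σ ≤ |X β h η m - A ρ β h m|
      exact le_trans (by linarith) (le_abs_self _)
  by_cases hBc : ∃ K : ℝ, K1 ≤ K ∧
      1 / (2 * K ^ 3) ≤ (law d ρ).real {η | X β h η m ≤ A ρ β h m - K * σ}
  · obtain ⟨K, hK, hp⟩ := hBc
    have hK0 : 0 < K := by linarith
    have hK16 : 16 ≤ K := by linarith
    have hs1 : 1 ≤ Real.sqrt K := by
      rw [Real.one_le_sqrt]
      linarith
    have hq' : 0 < 1 / (2 * K ^ 3) := by positivity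
    have hqhalf : 1 / (2 * K ^ 3) ≤ 1 / 2 := by
      refine one_div_le_one_div_of_le (by norm_num) ?_
      have : 1 ≤ K ^ 3 := one_le_pow₀ (by linarith)
      linarith
    -- the upper half
    have hup : 1 / 2 ≤ (law d ρ).real {η | A ρ β h m - 2 * σ < X β h η m} := by
      have h3 := mul_meas_ge_le_integral_of_nonneg (μ := law d ρ)
        (Eventually.of_forall fun η => sq_nonneg (X β h η m - A ρ β h m)) iY2 ((2 * σ) ^ 2)
      rw [hV2] at h3
      have h4 : (law d ρ).real {η | X β h η m ≤ A ρ β h m - 2 * σ} ≤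
          (law d ρ).real {η | (2 * σ) ^ 2 ≤ (X β h η m - A ρ β h m) ^ 2} := by
        refine measureReal_mono fun η hη => ?_
        have h5 : X β h η m ≤ A ρ β h m - 2 * σ := hη
        show (2 * σ) ^ 2 ≤ (X β h η m - A ρ β h m) ^ 2
        nlinarith
      have h5 : (law d ρ).real {η | A ρ β h m - 2 * σ < X β h η m} =
          1 - (law d ρ).real {η | X β h η m ≤ A ρ β h m - 2 * σ} := by
        rw [← probReal_compl_eq_one_sub (measurableSet_le (measurable_X β h m) measurable_const)]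
        congr 1
        ext η
        simp
      have h6 : 0 < σ ^ 2 := by positivity
      rw [h5]
      nlinarith
    have hlogK : Real.log (1 / (1 / (2 * K ^ 3))) ≤ 1 + 3 * K := by
      rw [one_div_one_div, Real.log_mul (by norm_num) (by positivity), Real.log_pow]
      have h3 := Real.log_le_sub_one_of_pos hK0
      have h4 := Real.log_two_lt_d9
      push_cast
      linarith
    have hs : (A ρ β h m - 2 * σ) - (A ρ β h m - K * σ) = (K - 2) * σ := by ring
    have h3 := amp2 h m (A ρ β h m - K * σ) (A ρ β h m - 2 * σ) (1 / (2 * K ^ 3)) hq' hqhalf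
      (by
        rw [hs]
        have h4 : C2 * (1 + Real.log (1 / (1 / (2 * K ^ 3)))) ≤ C2 * (2 + 3 * K) :=
          mul_le_mul_of_nonneg_left (by linarith) (by linarith)
        refine h4.trans ?_
        have h5 : C2 * (2 + 3 * K) ≤ 10 * C2 * (K - 2) := by nlinarith
        have h6 : 10 * C2 * (K - 2) ≤ σ * (K - 2) :=
          mul_le_mul_of_nonneg_right (hσ2.trans hσσ) (by linarith)
        linarith)
      (by
        rw [hs, hσV, le_div_iff₀ hq']
        have h4 : 1 ≤ (K - 2) ^ 2 := by nlinarith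
        have h5 : 0 < σ ^ 2 := by positivity
        nlinarith)
      hp (hqhalf.trans hup)
    refine hlucky K ((1 / (2 * K ^ 3)) ^ C2) hK (Real.rpow_pos_of_pos hq' _) ?_ ?_ ?_
    · -- the time
      have h4 : 1 / K ^ 4 ≤ 1 / (2 * K ^ 3) := by
        refine one_div_le_one_div_of_le (by positivity) ?_
        have : K ^ 4 = K * K ^ 3 := by ring
        rw [this]
        have h5 : 0 < K ^ 3 := by positivity
        nlinarith
      have h5 : K ^ (-(4 * C2)) ≤ (1 / (2 * K ^ 3)) ^ C2 := by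
        have h6 : (1 / K ^ 4) ^ C2 = K ^ (-(4 * C2)) := by
          rw [one_div, ← Real.rpow_natCast, ← Real.rpow_neg hK0.le, ← Real.rpow_mul hK0.le]
          congr 1
          push_cast
          ring
        rw [← h6]
        exact Real.rpow_le_rpow (by positivity) h4 (by linarith)
      have h6 : 0 < K ^ (-(4 * C2)) := Real.rpow_pos_of_pos hK0 _
      have h7 : C1 / (1 / (2 * K ^ 3)) ^ C2 ≤ C1 / K ^ (-(4 * C2)) :=
        div_le_div_of_nonneg_left (by linarith) h6 h5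
      refine h7.trans ?_
      have h8 : C1 / K ^ (-(4 * C2)) = C1 * K ^ (4 * C2) := by
        rw [Real.rpow_neg hK0.le, div_inv_eq_mul]
      rw [h8]
      have h9 : Real.sqrt K ^ a = K ^ ((a : ℝ) / 2) := by
        rw [Real.sqrt_eq_rpow, ← Real.rpow_natCast, ← Real.rpow_mul hK0.le]
        congr 1
        ring
      rw [h9]
      have h10 : C1 ≤ K := by linarith
      calc C1 * K ^ (4 * C2) ≤ K * K ^ (4 * C2) :=
            mul_le_mul_of_nonneg_right h10 (Real.rpow_pos_of_pos hK0 _).le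
        _ = K ^ (1 + 4 * C2) := by rw [Real.rpow_add hK0, Real.rpow_one]
        _ ≤ K ^ ((a : ℝ) / 2) := Real.rpow_le_rpow_of_exponent_le (by linarith) (by linarith)
    · refine h3.trans (measureReal_mono fun η hη => ?_)
      have h4 : A ρ β h m - 2 * σ + 2 * ((A ρ β h m - 2 * σ) - (A ρ β h m - K * σ)) <
        X β h η m := hη
      show A ρ β h m + K * σ ≤ X β h η m
      have h5 : 6 * σ ≤ K * σ := by nlinarith
      linarith
    · refine hkb h m hm K σ (by linarith) (by linarith) (hp.trans (measureReal_mono fun η hη => ?_))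
      have h4 : X β h η m ≤ A ρ β h m - K * σ := hη
      show K * σ ≤ |X β h η m - A ρ β h m|
      exact le_trans (by linarith) (neg_le_abs _)
  -- the moderate case
  push Not at hA hBc
  have hmid : ∀ s₀ s₁ : ℝ, A ρ β h m - σ / 2 ≤ s₀ → A ρ β h m - σ / 4 ≤ s₁ →
      σ / 8 ≤ s₁ - s₀ → q ≤ (law d ρ).real {η | X β h η m ≤ s₀} →
      q ≤ (law d ρ).real {η | s₁ < X β h η m} →
      ∃ K : ℝ, 2 ≤ K ∧ K ≤ B * m ∧ ∀ (T : ℕ) (Φ : ℝ), m * K ^ a ≤ T →
        (∀ k : ℕ, k ≤ T → En ρ β h k ≤ Φ ∧ Fn ρ β h k ≤ Φ) → Λ * K * σ ≤ Φ + 1 := by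
    intro s₀ s₁ hs0 hs1 hs hp0 hp1
    have h3 := amp3 h m s₀ s₁ q hq (by linarith) (by linarith) (by
      rw [hσV, le_div_iff₀ hq]
      have h4 : σ ^ 2 * q ≤ σ ^ 2 * (1 / 64) := mul_le_mul_of_nonneg_left hq64 (by positivity)
      have h5 : (σ / 8) ^ 2 ≤ (s₁ - s₀) ^ 2 := pow_le_pow_left₀ (by positivity) hs 2
      linarith) hp0 hp1
    refine ⟨2, le_rfl, by nlinarith, fun T Φ hT hΦ => ?_⟩
    have h4 : q ^ C3 ≤ (law d ρ).real {η | A ρ β h m + t * σ / 16 ≤ X β h η m} := by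
      refine h3.trans (measureReal_mono fun η hη => ?_)
      have h5 : s₁ + t * (s₁ - s₀) < X β h η m := hη
      show A ρ β h m + t * σ / 16 ≤ X β h η m
      have h6 : t * (σ / 8) ≤ t * (s₁ - s₀) := mul_le_mul_of_nonneg_left hs (by linarith)
      have h7 : 32 * σ ≤ t * σ := mul_le_mul_of_nonneg_right ht hσp.le
      linarith
    have h5 : C1 * m / q ^ C3 ≤ T := by
      refine le_trans ?_ hT
      have h6 : C1 / q ^ C3 ≤ 2 ^ a := haC.le.trans (pow_le_pow_right₀ (by norm_num) ha3)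
      have h7 := mul_le_mul_of_nonneg_left h6 hm0.le
      refine le_trans (le_of_eq ?_) h7
      ring
    have h6 := cnt h hL m T (t * σ / 16) (q ^ C3) Φ hm hqC h4 h5 hΦ
    have h7 : C1 * (Λ * 2 * σ) ≤ C1 * (Φ + 1) := by
      refine le_trans (le_of_eq ?_) h6
      rw [htd]
      ring
    exact le_of_mul_le_mul_left h7 (by linarith)
  have hmeas : Measurable fun η : Env d => |X β h η m - A ρ β h m| / σ :=
    (((measurable_X β h m).sub_const _).abs).div_const _
  have hsqf : ∀ η : Env d, (|X β h η m - A ρ β h m| / σ) ^ 2 =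
      (X β h η m - A ρ β h m) ^ 2 * (1 / σ ^ 2) := by
    intro η
    rw [div_pow, sq_abs]
    ring
  have hmod := mod43 (law d ρ) hmeas (fun η => by positivity) (K₀ := K1) (by
      simp only [hsqf]
      exact iY2.mul_const _) (by
      simp only [hsqf]
      rw [integral_mul_const, hV2]
      field_simp) hK1a (fun K hK => by
      have hK0 : 0 < K := by linarith
      have h3 : {η : Env d | K ≤ |X β h η m - A ρ β h m| / σ} ⊆
          {η | A ρ β h m + K * σ ≤ X β h η m} ∪ {η | X β h η m ≤ A ρ β h m - K * σ} := by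
        intro η hη
        have h4 : K ≤ |X β h η m - A ρ β h m| / σ := hη
        rw [le_div_iff₀ hσp] at h4
        rcases le_total 0 (X β h η m - A ρ β h m) with h5 | h5
        · rw [abs_of_nonneg h5] at h4
          exact Or.inl (show A ρ β h m + K * σ ≤ X β h η m by linarith)
        · rw [abs_of_nonpos h5] at h4
          exact Or.inr (show X β h η m ≤ A ρ β h m - K * σ by linarith)
      have h4 := (measureReal_mono (μ := law d ρ) h3).trans (measureReal_union_le _ _)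
      have h5 := (hA K hK).le
      have h6 := (hBc K hK).le
      have h7 : 1 / K ^ 3 = 1 / (2 * K ^ 3) + 1 / (2 * K ^ 3) := by
        field_simp
        norm_num
      linarith)
  have hsplit : {η : Env d | 1 / 2 ≤ |X β h η m - A ρ β h m| / σ} ⊆
      {η | A ρ β h m + σ / 2 ≤ X β h η m} ∪ {η | X β h η m ≤ A ρ β h m - σ / 2} := by
    intro η hη
    have h4 : 1 / 2 ≤ |X β h η m - A ρ β h m| / σ := hη
    rw [le_div_iff₀ hσp] at h4
    rcases le_total 0 (X β h η m - A ρ β h m) with h5 | h5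
    · rw [abs_of_nonneg h5] at h4
      exact Or.inl (show A ρ β h m + σ / 2 ≤ X β h η m by linarith)
    · rw [abs_of_nonpos h5] at h4
      exact Or.inr (show X β h η m ≤ A ρ β h m - σ / 2 by linarith)
  have hsum := hmod.trans ((measureReal_mono (μ := law d ρ) hsplit).trans
    (measureReal_union_le _ _))
  have hq2 : 1 / (4 * K1 ^ 2) = q + q := by
    rw [hqd]
    field_simp
    norm_num
  rw [hq2] at hsum
  by_cases hside : q ≤ (law d ρ).real {η | A ρ β h m + σ / 2 ≤ X β h η m}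
  · refine hmid (A ρ β h m + σ / 4) (A ρ β h m + 3 * σ / 8) (by linarith) (by linarith)
      (by linarith) ?_ (hside.trans (measureReal_mono fun η hη => ?_))
    · have h3 := cant43 (law d ρ) ((measurable_X β h m).sub_const (A ρ β h m)) iY iY2 hσp hY0 hV2
      have h4 : (law d ρ).real {η | X β h η m < A ρ β h m + σ / 4} =
          1 - (law d ρ).real {η | A ρ β h m + σ / 4 ≤ X β h η m} := by
        rw [← probReal_compl_eq_one_sub (measurableSet_le measurable_const (measurable_X β h m))]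
        congr 1
        ext η
        simp
      have h5 : (law d ρ).real {η | A ρ β h m + σ / 4 ≤ X β h η m} ≤
          (law d ρ).real {η | σ / 4 ≤ X β h η m - A ρ β h m} := by
        refine measureReal_mono fun η hη => ?_
        have h6 : A ρ β h m + σ / 4 ≤ X β h η m := hη
        show σ / 4 ≤ X β h η m - A ρ β h m
        linarith
      have h6 : (law d ρ).real {η | X β h η m < A ρ β h m + σ / 4} ≤
          (law d ρ).real {η | X β h η m ≤ A ρ β h m + σ / 4} := by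
        refine measureReal_mono fun η hη => ?_
        have h7 : X β h η m < A ρ β h m + σ / 4 := hη
        exact h7.le
      linarith
    · have h3 : A ρ β h m + σ / 2 ≤ X β h η m := hη
      show A ρ β h m + 3 * σ / 8 < X β h η m
      linarith
  · push Not at hside
    refine hmid (A ρ β h m - σ / 2) (A ρ β h m - σ / 4) le_rfl le_rfl (by linarith)
      (by linarith) ?_
    have h2' : ∫ η, (-(X β h η m - A ρ β h m)) ^ 2 ∂(law d ρ) = σ ^ 2 := by
      rw [← hV2]
      refine integral_congr_ae (Eventually.of_forall fun η => ?_)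
      simp only
      ring
    have h3 := cant43 (law d ρ) (f := fun η => -(X β h η m - A ρ β h m))
      ((measurable_X β h m).sub_const (A ρ β h m)).neg iY.neg (by
        have : (fun η : Env d => (-(X β h η m - A ρ β h m)) ^ 2) = fun η =>
            (X β h η m - A ρ β h m) ^ 2 := by
          funext η
          ring
        rw [this]
        exact iY2) hσp (by rw [integral_neg, hY0, neg_zero]) h2'
    have h4 : (law d ρ).real {η | A ρ β h m - σ / 4 < X β h η m} =
        1 - (law d ρ).real {η | X β h η m ≤ A ρ β h m - σ / 4} := by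
      rw [← probReal_compl_eq_one_sub (measurableSet_le (measurable_X β h m) measurable_const)]
      congr 1
      ext η
      simp
    have h5 : (law d ρ).real {η | X β h η m ≤ A ρ β h m - σ / 4} ≤
        (law d ρ).real {η | σ / 4 ≤ -(X β h η m - A ρ β h m)} := by
      refine measureReal_mono fun η hη => ?_
      have h6 : X β h η m ≤ A ρ β h m - σ / 4 := hη
      show σ / 4 ≤ -(X β h η m - A ρ β h m)
      linarith
    linarith

end Pool.Agent.W_7d29a1_UC
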