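import Pool.Agent.W_7d29a1_UC.Gro43
import Pool.Agent.W_7d29a1_UC.TrC19
import Pool.Agent.W_7d29a1_SP.Cnt79
import Pool.Agent.W_7d29a1_Q29.Vsd61

/-!
The free energy is at least at a logarithmic distance of its linear part, in every dimension and at
every tilt of very strong disorder.
-/

namespace Pool.Agent.W_7d29a1_UC

open MeasureTheory ProbabilityTheory Filter Topology Pool.Agent.W_MP_7d29a1_pr
  Pool.Agent.W_7d29a1_h46 Pool.Agent.W_7d29a1_h46u Pool.Agent.W_7d29a1_D2.B35
  Pool.Agent.W_7d29a1_Q29 Pool.Agent.W_7d29a1_R34 Pool.Agent.W_7d29a1_SP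

variable {d : ℕ} {ρ : Measure ℝ} [IsProbabilityMeasure ρ] {β : ℝ}

/-- The second moment of the partition function. -/
lemma sec43 (hρ : EM ρ) (β : ℝ) (h : Vec d) (m : ℕ) :
    Integrable (fun η => Z β h η m ^ 2) (law d ρ) ∧
      ∫ η, Z β h η m ^ 2 ∂(law d ρ) ≤
        (2 * d * (Phi ((2 : ℝ) • h) * ∫ t, Real.exp (2 * β * t) ∂ρ)) ^ m := by
  have h1 := annealed61 (d := d) hρ (2 * β) ((2 : ℝ) • h) m
  have hpt : ∀ η : Env d, Z β h η m ^ 2 ≤ (2 * d : ℝ) ^ m * Z (2 * β) ((2 : ℝ) • h) η m := by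
    intro η
    rw [Z_eq, Z_eq]
    have h2 := sq_sum_le_card_mul_sum_sq (s := (Finset.univ : Finset (Fin m → Step d)))
      (f := fun s => wgt β h η s)
    have h3 : ((Finset.univ : Finset (Fin m → Step d)).card : ℝ) = (2 * d : ℝ) ^ m := by
      rw [Finset.card_univ, Fintype.card_fun, Fintype.card_fin]
      have : Fintype.card (Step d) = 2 * d := by
        simp [Step, Fintype.card_prod, mul_comm]
      rw [this]
      push_cast
      ring
    rw [h3] at h2
    refine h2.trans (le_of_eq ?_)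
    congr 1
    refine Finset.sum_congr rfl fun s _ => ?_
    unfold wgt
    rw [← Real.exp_nat_mul]
    congr 1
    rw [real_inner_smul_left]
    push_cast
    ring
  have hm : AEStronglyMeasurable (fun η : Env d => Z β h η m ^ 2) (law d ρ) :=
    ((measurable_Z β h m).pow_const 2).aestronglyMeasurable
  have hi : Integrable (fun η => Z β h η m ^ 2) (law d ρ) := by
    refine (h1.1.const_mul ((2 * d : ℝ) ^ m)).mono' hm (Eventually.of_forall fun η => ?_)
    rw [Real.norm_eq_abs, abs_of_nonneg (sq_nonneg _)]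
    exact hpt η
  refine ⟨hi, ?_⟩
  have h4 := integral_mono hi (h1.1.const_mul ((2 * d : ℝ) ^ m)) hpt
  rw [integral_const_mul, h1.2] at h4
  refine h4.trans (le_of_eq ?_)
  rw [← mul_pow]

/-- The free energy is macroscopically too large with an exponentially small probability. -/
lemma upt43 (hd : 0 < d) (hρ : EM ρ) (β : ℝ) (h : Vec d) (hV : VSD ρ β h) :
    ∃ ε C : ℝ, 0 < ε ∧ 0 < C ∧ ∃ m₀ : ℕ, ∀ m : ℕ, m₀ ≤ m →
      Real.exp (-(C * m)) ≤ (law d ρ).real {η | A ρ β h m + ε * m ≤ X β h η m} := by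
  have hm0 : 0 < ∫ t, Real.exp (β * t) ∂ρ := integral_exp_pos (hρ β)
  have hm2 : 0 < ∫ t, Real.exp (2 * β * t) ∂ρ := integral_exp_pos (hρ (2 * β))
  have hP := Phi_pos61 hd h
  have hP2 := Phi_pos61 hd ((2 : ℝ) • h)
  have hd' : (0 : ℝ) < d := by exact_mod_cast hd
  obtain ⟨b, hb⟩ : ∃ b : ℝ, b = Phi h * ∫ t, Real.exp (β * t) ∂ρ := ⟨_, rfl⟩
  have hb0 : 0 < b := by rw [hb]; exact mul_pos hP hm0
  obtain ⟨B, hB⟩ : ∃ B : ℝ, B = 2 * d * (Phi ((2 : ℝ) • h) * ∫ t, Real.exp (2 * β * t) ∂ρ) :=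
    ⟨_, rfl⟩
  have hB0 : 0 < B := by rw [hB]; positivity
  obtain ⟨g, hg⟩ : ∃ g : ℝ, g = Real.log b - lam ρ β h := ⟨_, rfl⟩
  have hg0 : 0 < g := by
    have h1 : lam ρ β h < Real.log (Phi h) + Real.log (∫ t, Real.exp (β * t) ∂ρ) := hV
    rw [← Real.log_mul hP.ne' hm0.ne', ← hb] at h1
    rw [hg]
    linarith
  obtain ⟨C, hC⟩ : ∃ C : ℝ, C = |Real.log B - 2 * Real.log b| + 2 := ⟨_, rfl⟩
  have hC0 : 0 < C := by rw [hC]; positivity
  refine ⟨g / 2, C, by linarith, hC0, ⌈2 / g⌉₊ + 1, fun m hm => ?_⟩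
  have hm1 : (1 : ℝ) ≤ m := by
    have : 1 ≤ m := by omega
    exact_mod_cast this
  have hgm : 2 ≤ g * m := by
    have h1 : 2 / g ≤ m := by
      refine (Nat.le_ceil _).trans ?_
      have : ⌈2 / g⌉₊ ≤ m := by omega
      exact_mod_cast this
    rw [div_le_iff₀ hg0] at h1
    linarith
  obtain ⟨hZi, hZint⟩ := annealed61 (d := d) hρ β h m
  obtain ⟨hSi, hSint⟩ := sec43 (d := d) hρ β h m
  rw [← hb] at hZint
  rw [← hB] at hSint
  have hbm : 0 < b ^ m := pow_pos hb0 _
  have hBm : 0 < B ^ m := pow_pos hB0 _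
  obtain ⟨p, hp⟩ : ∃ p : ℝ, p = (law d ρ).real {η | b ^ m / 2 ≤ Z β h η m} := ⟨_, rfl⟩
  have hms : MeasurableSet {η : Env d | b ^ m / 2 ≤ Z β h η m} :=
    measurableSet_le measurable_const (measurable_Z β h m)
  -- Paley - Zygmund
  obtain ⟨t, ht⟩ : ∃ t : ℝ, t = b ^ m / (2 * B ^ m) := ⟨_, rfl⟩
  have ht0 : 0 < t := by rw [ht]; positivity
  have hpt : ∀ η : Env d, Z β h η m ≤ b ^ m / 2 + (t * Z β h η m ^ 2 +
      ({η : Env d | b ^ m / 2 ≤ Z β h η m}.indicator (fun _ => 1 / t)) η) / 2 := by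
    intro η
    have hZ := Z_pos hd β h η m
    by_cases hη : b ^ m / 2 ≤ Z β h η m
    · rw [Set.indicator_of_mem (show η ∈ {η : Env d | b ^ m / 2 ≤ Z β h η m} from hη)]
      have h1 : 2 * Z β h η m ≤ t * Z β h η m ^ 2 + 1 / t := by
        have h2 : 0 ≤ (t * Z β h η m - 1) ^ 2 / t := by positivity
        have h3 : (t * Z β h η m - 1) ^ 2 / t = t * Z β h η m ^ 2 + 1 / t - 2 * Z β h η m := by
          field_simp
          ring
        linarith
      linarith
    · rw [Set.indicator_of_notMem (show η ∉ {η : Env d | b ^ m / 2 ≤ Z β h η m} from hη)]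
      push Not at hη
      have : 0 ≤ t * Z β h η m ^ 2 := by positivity
      linarith
  have hind : Integrable ({η : Env d | b ^ m / 2 ≤ Z β h η m}.indicator (fun _ => 1 / t))
      (law d ρ) := (integrable_const _).indicator hms
  have iS : Integrable (fun η : Env d => t * Z β h η m ^ 2 +
      ({η : Env d | b ^ m / 2 ≤ Z β h η m}.indicator (fun _ => 1 / t)) η) (law d ρ) :=
    (hSi.const_mul t).add hind
  have iS2 : Integrable (fun η : Env d => (t * Z β h η m ^ 2 +
      ({η : Env d | b ^ m / 2 ≤ Z β h η m}.indicator (fun _ => 1 / t)) η) / 2) (law d ρ) :=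
    iS.div_const 2
  have iS3 : Integrable (fun η : Env d => b ^ m / 2 + (t * Z β h η m ^ 2 +
      ({η : Env d | b ^ m / 2 ≤ Z β h η m}.indicator (fun _ => 1 / t)) η) / 2) (law d ρ) :=
    (integrable_const _).add iS2
  have h1 : ∫ η, Z β h η m ∂(law d ρ) ≤ ∫ η : Env d, (b ^ m / 2 + (t * Z β h η m ^ 2 +
      ({η : Env d | b ^ m / 2 ≤ Z β h η m}.indicator (fun _ => 1 / t)) η) / 2) ∂(law d ρ) :=
    integral_mono hZi iS3 hpt
  have h2 : ∫ η : Env d, (b ^ m / 2 + (t * Z β h η m ^ 2 +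
      ({η : Env d | b ^ m / 2 ≤ Z β h η m}.indicator (fun _ => 1 / t)) η) / 2) ∂(law d ρ) =
      b ^ m / 2 + (t * ∫ η, Z β h η m ^ 2 ∂(law d ρ) + 1 / t * p) / 2 := by
    have e1 : ∫ η : Env d, (t * Z β h η m ^ 2 +
        ({η : Env d | b ^ m / 2 ≤ Z β h η m}.indicator (fun _ => 1 / t)) η) / 2 ∂(law d ρ) =
        (t * ∫ η, Z β h η m ^ 2 ∂(law d ρ) + 1 / t * p) / 2 := by
      rw [integral_div, integral_add (hSi.const_mul t) hind, integral_const_mul,
        integral_indicator_const _ hms, ← hp, smul_eq_mul, mul_comm p]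
    rw [integral_add (integrable_const _) iS2, e1, integral_const, probReal_univ, one_smul]
  have h3 : b ^ m ≤ b ^ m / 2 + (t * ∫ η, Z β h η m ^ 2 ∂(law d ρ) + 1 / t * p) / 2 := by
    rw [hZint] at h1
    exact h1.trans (le_of_eq h2)
  have h4 : t * ∫ η, Z β h η m ^ 2 ∂(law d ρ) ≤ t * B ^ m :=
    mul_le_mul_of_nonneg_left hSint ht0.le
  have h5 : t * B ^ m = b ^ m / 2 := by
    rw [ht]
    field_simp
  have h6 : b ^ m / 2 ≤ 1 / t * p := by linarith
  have h7 : t * (b ^ m / 2) ≤ p := by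
    have := mul_le_mul_of_nonneg_left h6 ht0.le
    have e : t * (1 / t * p) = p := by field_simp
    rwa [e] at this
  -- the logarithms
  have h8 : Real.exp (-(C * m)) ≤ t * (b ^ m / 2) := by
    have e1 : t * (b ^ m / 2) = Real.exp (-(m * (Real.log B - 2 * Real.log b)) - Real.log 4) := by
      rw [ht, Real.exp_sub, Real.exp_neg, Real.exp_log (by norm_num : (0 : ℝ) < 4), mul_sub,
        Real.exp_sub, Real.exp_nat_mul, Real.exp_log hB0]
      have e2 : Real.exp ((m : ℝ) * (2 * Real.log b)) = b ^ m * b ^ m := by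
        rw [show (m : ℝ) * (2 * Real.log b) = m * Real.log b + m * Real.log b by ring,
          Real.exp_add, Real.exp_nat_mul, Real.exp_log hb0]
      rw [e2]
      field_simp
      ring
    rw [e1]
    refine Real.exp_le_exp.2 ?_
    have h9 := le_abs_self (Real.log B - 2 * Real.log b)
    have h10 : Real.log 4 ≤ 2 := by
      have : Real.log 4 = 2 * Real.log 2 := by
        rw [show (4 : ℝ) = 2 ^ 2 by norm_num, Real.log_pow]
        push_cast
        ring
      rw [this]
      have := Real.log_two_lt_d9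
      linarith
    rw [hC]
    nlinarith
  refine h8.trans (h7.trans ?_)
  rw [hp]
  refine measureReal_mono fun η hη => ?_
  have h9 : b ^ m / 2 ≤ Z β h η m := hη
  show A ρ β h m + g / 2 * m ≤ X β h η m
  have h10 := Real.log_le_log (by positivity) h9
  have h11 : Real.log (b ^ m / 2) = m * Real.log b - Real.log 2 := by
    rw [Real.log_div hbm.ne' (by norm_num), Real.log_pow]
  have h12 : Real.log (Z β h η m) = X β h η m := rfl
  rw [h11, h12] at h10
  have h13 := A_le_lam hd hρ β h m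
  have h14 : m * Real.log b = m * lam ρ β h + g * m := by
    rw [hg]
    ring
  have h15 : Real.log 2 ≤ 1 := by
    have := Real.log_two_lt_d9
    linarith
  linarith

/-- **The logarithmic lower bound**: every dimension, every tilt of very strong disorder. -/
theorem log43 (hd : 0 < d) (hρ : EM ρ) (β : ℝ) (h : Vec d) (hV : VSD ρ β h) :
    ∃ c : ℝ, 0 < c ∧ ∀ᶠ n : ℕ in atTop, ∃ m : ℕ, m ≤ n ∧
      c * Real.log n ≤ ∫ η, |X β h η m - m * lam ρ β h| ∂(law d ρ) := by
  classical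
  obtain ⟨c₀, hc₀, hL⟩ : ∃ c₀ : ℝ, 0 < c₀ ∧ Loc1 ρ β h c₀ := by
    have hg : 0 < Real.log (Phi h) + Real.log (∫ t, Real.exp (β * t) ∂ρ) - lam ρ β h := by
      have : lam ρ β h < Real.log (Phi h) + Real.log (∫ t, Real.exp (β * t) ∂ρ) := hV
      linarith
    obtain ⟨c₀, hc₀, hc⟩ := Csy42.loc42 hd hρ β _ hg
    refine ⟨c₀, hc₀, fun n => ?_⟩
    exact hc h (by linarith) n
  obtain ⟨C1, hC1, hcnt⟩ := cnt79 (d := d) hd hρ β c₀ hc₀
  obtain ⟨ε, C2, hε, hC2, m₀, hup⟩ := upt43 hd hρ β h hV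
  obtain ⟨D, hD⟩ : ∃ D : ℝ, D = C1 + C2 := ⟨_, rfl⟩
  have hD0 : 0 < D := by rw [hD]; linarith
  obtain ⟨c, hc⟩ : ∃ c : ℝ, c = ε / (16 * D * C1) := ⟨_, rfl⟩
  have hc0 : 0 < c := by rw [hc]; positivity
  refine ⟨c, hc0, ?_⟩
  have hlog : Tendsto (fun n : ℕ => Real.log n) atTop atTop :=
    Real.tendsto_log_atTop.comp tendsto_natCast_atTop_atTop
  filter_upwards [hlog.eventually_ge_atTop (D * (m₀ + 2)),
    hlog.eventually_ge_atTop (16 * D * C1 / ε), eventually_ge_atTop 2] with n hn1 hn2 hn3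
  by_contra hcon
  push Not at hcon
  have hn0 : (0 : ℝ) < n := by
    have : 0 < n := by omega
    exact_mod_cast this
  obtain ⟨m, hm⟩ : ∃ m : ℕ, m = ⌊Real.log n / D⌋₊ := ⟨_, rfl⟩
  have hlog0 : 0 ≤ Real.log n / D := by
    have : 0 ≤ Real.log n := le_trans (by positivity) hn2
    positivity
  have hm1 : (m : ℝ) ≤ Real.log n / D := by rw [hm]; exact Nat.floor_le hlog0
  have hm2 : Real.log n / D - 1 < m := by
    have := Nat.lt_floor_add_one (Real.log n / D)
    rw [← hm] at this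
    linarith
  have hm3 : (m₀ : ℝ) + 2 ≤ Real.log n / D := by
    rw [le_div_iff₀ hD0]
    linarith
  have hm4 : m₀ ≤ m := by
    have : (m₀ : ℝ) ≤ m := by linarith
    exact_mod_cast this
  have hm5 : 1 ≤ m := by
    have : (1 : ℝ) ≤ m := by
      have : (0 : ℝ) ≤ m₀ := Nat.cast_nonneg _
      linarith
    exact_mod_cast this
  have hm6 : Real.log n / D / 2 ≤ m := by
    have : (0 : ℝ) ≤ m₀ := Nat.cast_nonneg _
    linarith
  have hX : ∀ k, Integrable (fun η => X β h η k) (law d ρ) := fun k => (concU hd hρ β h k).1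
  have hY : ∀ k, Integrable (fun η => X β h η k - k * lam ρ β h) (law d ρ) := fun k =>
    (hX k).sub (integrable_const _)
  have hEn : ∀ k, k ≤ n → En ρ β h k ≤ c * Real.log n := by
    intro k hk
    refine le_trans ?_ (hcon k hk).le
    have h1 : En ρ β h k = -∫ η, (X β h η k - k * lam ρ β h) ∂(law d ρ) := by
      rw [integral_sub (hX k) (integrable_const _)]
      unfold En A
      simp
    rw [h1]
    refine (neg_le_abs _).trans ?_
    exact abs_integral_le_integral_abs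
  have hFn : ∀ k, k ≤ n → Fn ρ β h k ≤ 2 * (c * Real.log n) := by
    intro k hk
    have h1 : ∀ η, |X β h η k - A ρ β h k| ≤ |X β h η k - k * lam ρ β h| + En ρ β h k := by
      intro η
      have h2 : X β h η k - A ρ β h k = (X β h η k - k * lam ρ β h) + En ρ β h k := by
        unfold En
        ring
      have h3 : 0 ≤ En ρ β h k := by
        have := A_le_lam hd hρ β h k
        unfold En
        linarith
      rw [h2]
      refine (abs_add_le _ _).trans ?_
      rw [abs_of_nonneg h3]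
    have h4 := integral_mono ((hX k).sub (integrable_const (A ρ β h k))).abs
      ((hY k).abs.add (integrable_const (En ρ β h k))) h1
    simp only [Pi.add_apply, Pi.sub_apply] at h4
    rw [integral_add (hY k).abs (integrable_const _)] at h4
    have h5 := (hcon k hk).le
    have h6 := hEn k hk
    have h7 : Fn ρ β h k = ∫ η, |X β h η k - A ρ β h k| ∂(law d ρ) := rfl
    rw [h7]
    simp at h4
    linarith
  have hq := Real.exp_pos (-(C2 * m))
  have hT : C1 * m / Real.exp (-(C2 * m)) ≤ n := by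
    rw [Real.exp_neg, div_inv_eq_mul]
    have h1 : C1 * m ≤ Real.exp (C1 * m) := by
      have := Real.add_one_le_exp (C1 * m)
      linarith
    have h2 : C1 * m * Real.exp (C2 * m) ≤ Real.exp (C1 * m) * Real.exp (C2 * m) :=
      mul_le_mul_of_nonneg_right h1 (Real.exp_pos _).le
    refine h2.trans ?_
    rw [← Real.exp_add, ← add_mul, ← hD]
    have h3 : D * m ≤ Real.log n := by
      rw [le_div_iff₀ hD0] at hm1
      linarith
    exact (Real.exp_le_exp.2 h3).trans (le_of_eq (Real.exp_log hn0))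
  have h1 := hcnt h hL m n (ε * m) (Real.exp (-(C2 * m))) (2 * (c * Real.log n)) hm5 hq
    (hup m hm4) hT (fun k hk => ⟨by
      have h2 := hEn k hk
      have h3 : 0 ≤ c * Real.log n := by
        have : 0 ≤ Real.log n := le_trans (by positivity) hn2
        positivity
      linarith, hFn k hk⟩)
  have h2 : ε * (Real.log n / D / 2) ≤ ε * m := mul_le_mul_of_nonneg_left hm6 hε.le
  have h3 : C1 * (2 * (c * Real.log n) + 1) = ε * Real.log n / (8 * D) + C1 := by
    rw [hc]
    field_simp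
    ring
  have h4 : ε * (Real.log n / D / 2) = 4 * (ε * Real.log n / (8 * D)) := by
    field_simp
    ring
  have h5 : 2 * C1 ≤ ε * Real.log n / (8 * D) := by
    rw [le_div_iff₀ (by positivity)]
    rw [div_le_iff₀ hε] at hn2
    nlinarith
  linarith

/-- The logarithmic lower bound in the letters of the problem. -/
theorem trLog43 {Ω : Type*} [MeasurableSpace Ω] {μ : Measure Ω} [IsProbabilityMeasure μ]
    {ω : ℕ × Site d → Ω → ℝ} (hd : 0 < d) (hω : IID μ ρ ω) (hρ : EM ρ) (h : Vec d)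
    (hh : lamN ρ β h < annN ρ β h) :
    ∃ c : ℝ, 0 < c ∧ ∀ᶠ n : ℕ in atTop, ∃ m : ℕ, m ≤ n ∧
      c * Real.log n ≤ ∫ x, |Real.log (Zn β h (fun p => ω p x) m) - m * lamN ρ β h| ∂μ := by
  obtain ⟨c, hc, hev⟩ := log43 hd hρ β h ((vsd29 h).1 hh)
  refine ⟨c, hc, hev.mono fun n hn => ?_⟩
  obtain ⟨m, hm, hm2⟩ := hn
  refine ⟨m, hm, hm2.trans (le_of_eq ?_)⟩
  have e3 : ∫ x, |Real.log (Zn β h (fun p => ω p x) m) - m * lamN ρ β h| ∂μ =
      ∫ x, (fun η : Env d => |X β h η m - m * lam ρ β h|) (fun p => ω p x) ∂μ := by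
    refine integral_congr_ae (Filter.Eventually.of_forall fun y => ?_)
    show |Real.log (Zn β h (fun p => ω p y) m) - m * lamN ρ β h| =
      |X β h (fun p => ω p y) m - m * lam ρ β h|
    rw [StrA_log hd β h _ m, Real.log_pow]
    unfold lamN
    congr 1
    ring
  rw [e3]
  exact (StrA_int hω (((measurable_X β h m).sub_const _).abs)).symm

end Pool.Agent.W_7d29a1_UC
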