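import Pool.Agent.W_7d29a1_UC.GroS43
import Pool.Agent.W_7d29a1_UC.TrC19
import Pool.Agent.W_7d29a1_UC.Inf43
import Pool.Agent.W_7d29a1_SP.Cnt79
import Pool.Agent.W_7d29a1_SP.Amp84

/-!
The variance against the nonrandom fluctuation: the theorem, every law (over the amplification of
the upper deviations).
-/

namespace Pool.Agent.W_7d29a1_UC

open MeasureTheory ProbabilityTheory Filter Topology Pool.Agent.W_MP_7d29a1_pr
  Pool.Agent.W_7d29a1_h46 Pool.Agent.W_7d29a1_h46u Pool.Agent.W_7d29a1_D2.B35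
  Pool.Agent.W_7d29a1_Q29 Pool.Agent.W_7d29a1_R34 Pool.Agent.W_7d29a1_SP
open Pool.Agent.W_7d29a1_AM (AmpU)

variable {d : ℕ} {ρ : Measure ℝ} {β : ℝ}

/-- The theorem with the variance: for every `C` there is `θ > 0` such that either the square of the
nonrandom fluctuation is infinitely often at least `C` times the variance at every earlier time, or
the running maximum of the variance grows like a power. -/
def MainV (d : ℕ) (ρ : Measure ℝ) (β : ℝ) : Prop := ∀ h : Vec d, VSD ρ β h → ∀ C : ℝ,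
  ∃ θ : ℝ, 0 < θ ∧ ((∃ᶠ n : ℕ in atTop, ∀ m : ℕ, m ≤ n → C * Va ρ β h m ≤ En ρ β h n ^ 2) ∨
    ∀ᶠ n : ℕ in atTop, ∃ m : ℕ, m ≤ n ∧ (n : ℝ) ^ θ ≤ Va ρ β h m)

/-- A deterministic lemma: multiplicative steps of a polynomial length give a power. -/
lemma steps43 {F : ℕ → ℝ} (hmono : ∀ a b : ℕ, a ≤ b → F a ≤ F b) {n1 : ℕ} (hn1 : 1 ≤ n1)
    (h1 : 1 ≤ F n1) {a : ℕ} {B : ℝ} (hB : 1 ≤ B)
    (hstep : ∀ n, n1 ≤ n → ∃ (K : ℝ) (T : ℕ), 2 ≤ K ∧ K ≤ B * n ∧ n < T ∧
      (T : ℝ) ≤ n * K ^ (a + 1) ∧ K * F n ≤ F T) :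
    ∃ θ : ℝ, 0 < θ ∧ ∀ᶠ n : ℕ in atTop, (n : ℝ) ^ θ ≤ F n := by
  classical
  obtain ⟨t, ht⟩ : ∃ t : ℝ, t = 1 / ((a : ℝ) + 1) := ⟨_, rfl⟩
  have ha0 : (0 : ℝ) < (a : ℝ) + 1 := by positivity
  have ht0 : 0 < t := by rw [ht]; positivity
  obtain ⟨u, hu⟩ : ∃ u : ℝ, u = t / ((a : ℝ) + 2) := ⟨_, rfl⟩
  have hu0 : 0 < u := by rw [hu]; positivity
  have hn1r : (1 : ℝ) ≤ n1 := by exact_mod_cast hn1
  obtain ⟨D, hD⟩ : ∃ D : ℝ, D = (B * n1) ^ t := ⟨_, rfl⟩
  have hD0 : 0 < D := by rw [hD]; exact Real.rpow_pos_of_pos (by positivity) _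
  refine ⟨u / 2, by linarith, ?_⟩
  have hpw : Tendsto (fun n : ℕ => (n : ℝ) ^ (u / 2)) atTop atTop :=
    (tendsto_rpow_atTop (by linarith)).comp tendsto_natCast_atTop_atTop
  filter_upwards [eventually_ge_atTop n1, hpw.eventually_ge_atTop D] with N hN hND
  have hN0 : (0 : ℝ) < N := by
    have : 1 ≤ N := hn1.trans hN
    exact_mod_cast this
  -- the last good time
  obtain ⟨S, hS⟩ : ∃ S : Finset ℕ, S = (Finset.range (N + 1)).filter fun n =>
    n1 ≤ n ∧ ((n : ℝ) / n1) ^ t ≤ F n := ⟨_, rfl⟩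
  have hmem : ∀ n, n ∈ S ↔ n ≤ N ∧ n1 ≤ n ∧ ((n : ℝ) / n1) ^ t ≤ F n := by
    intro n
    rw [hS, Finset.mem_filter, Finset.mem_range]
    constructor
    · rintro ⟨h2, h3⟩
      exact ⟨by omega, h3⟩
    · rintro ⟨h2, h3⟩
      exact ⟨by omega, h3⟩
  have hne : S.Nonempty := by
    refine ⟨n1, (hmem n1).2 ⟨hN, le_rfl, ?_⟩⟩
    rw [div_self (by positivity), Real.one_rpow]
    exact h1
  obtain ⟨n, hn, hmax⟩ := S.exists_max_image (fun n => n) hne
  obtain ⟨hnN, hn1n, hgood⟩ := (hmem n).1 hn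
  have hn0 : (1 : ℝ) ≤ n := by
    have : 1 ≤ n := hn1.trans hn1n
    exact_mod_cast this
  obtain ⟨K, T, hK2, hKB, hnT, hTK, hFT⟩ := hstep n hn1n
  have hK0 : 0 < K := by linarith
  have hTbig : N < T := by
    by_contra hcon
    push Not at hcon
    have h2 : T ∈ S := by
      refine (hmem T).2 ⟨hcon, hn1n.trans hnT.le, ?_⟩
      refine le_trans ?_ hFT
      have h3 : ((T : ℝ) / n1) ^ t ≤ (n / n1 * K ^ (a + 1)) ^ t := by
        refine Real.rpow_le_rpow (by positivity) ?_ ht0.le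
        have h4 : (T : ℝ) / n1 ≤ n * K ^ (a + 1) / n1 :=
          div_le_div_of_nonneg_right hTK (by positivity)
        refine h4.trans (le_of_eq ?_)
        ring
      refine h3.trans ?_
      rw [Real.mul_rpow (by positivity) (by positivity)]
      have h5 : (K ^ (a + 1)) ^ t = K := by
        rw [← Real.rpow_natCast, ← Real.rpow_mul hK0.le]
        have : ((a + 1 : ℕ) : ℝ) * t = 1 := by
          rw [ht]
          push_cast
          field_simp
        rw [this, Real.rpow_one]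
      rw [h5, mul_comm]
      exact mul_le_mul_of_nonneg_left hgood hK0.le
    have h3 : T ≤ n := hmax T h2
    omega
  have hNn : (N : ℝ) ≤ (B * n) ^ (a + 2) := by
    have h2 : (N : ℝ) ≤ T := by exact_mod_cast hTbig.le
    refine h2.trans (hTK.trans ?_)
    have h3 : K ^ (a + 1) ≤ (B * n) ^ (a + 1) := pow_le_pow_left₀ hK0.le hKB _
    have h4 : (n : ℝ) ≤ B * n := by nlinarith
    calc (n : ℝ) * K ^ (a + 1) ≤ (B * n) * (B * n) ^ (a + 1) :=
          mul_le_mul h4 h3 (by positivity) (by positivity)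
      _ = (B * n) ^ (a + 2) := by ring
  have h2 : (N : ℝ) ^ u ≤ (B * n) ^ t := by
    have h3 : (N : ℝ) ^ u ≤ ((B * n) ^ (a + 2)) ^ u := Real.rpow_le_rpow hN0.le hNn hu0.le
    refine h3.trans (le_of_eq ?_)
    rw [← Real.rpow_natCast, ← Real.rpow_mul (by positivity)]
    congr 1
    rw [hu]
    push_cast
    field_simp
  have h3 : (B * n) ^ t = D * ((n : ℝ) / n1) ^ t := by
    rw [hD, ← Real.mul_rpow (by positivity) (by positivity)]
    congr 1
    field_simp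
  have h4 : (N : ℝ) ^ u = (N : ℝ) ^ (u / 2) * (N : ℝ) ^ (u / 2) := by
    rw [← Real.rpow_add hN0]
    congr 1
    ring
  have h5 : 0 < (N : ℝ) ^ (u / 2) := Real.rpow_pos_of_pos hN0 _
  have h6 : D * (N : ℝ) ^ (u / 2) ≤ D * F N := by
    calc D * (N : ℝ) ^ (u / 2) ≤ (N : ℝ) ^ (u / 2) * (N : ℝ) ^ (u / 2) :=
          mul_le_mul_of_nonneg_right hND h5.le
      _ = (N : ℝ) ^ u := h4.symm
      _ ≤ (B * n) ^ t := h2
      _ = D * ((n : ℝ) / n1) ^ t := h3
      _ ≤ D * F n := mul_le_mul_of_nonneg_left hgood hD0.le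
      _ ≤ D * F N := mul_le_mul_of_nonneg_left (hmono _ _ hnN) hD0.le
  exact le_of_mul_le_mul_left h6 hD0

variable [IsProbabilityMeasure ρ]

omit [IsProbabilityMeasure ρ] in
lemma Va_nonneg43 (β : ℝ) (h : Vec d) (n : ℕ) : 0 ≤ Va ρ β h n :=
  integral_nonneg fun _ => sq_nonneg _

/-- The random fluctuation is at most the standard deviation. -/
lemma fn_le_sd43 (hd : 0 < d) (hρ : EM ρ) (h : Vec d) (n : ℕ) :
    Fn ρ β h n ≤ Real.sqrt (Va ρ β h n) :=
  Real.le_sqrt_of_sq_le (fn_sq19 hd hρ h n)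

/-- MAIN with the variance. -/
theorem mainV43 (hd : 0 < d) (hρ : EM ρ) (h5 : GroSP d ρ β) (h6 : InfP d ρ β) : MainV d ρ β := by
  classical
  intro h hV C0
  obtain ⟨C, hCd⟩ : ∃ C : ℝ, C = max C0 1 := ⟨_, rfl⟩
  have hC1 : 1 ≤ C := by rw [hCd]; exact le_max_right _ _
  have hC0 : C0 ≤ C := by rw [hCd]; exact le_max_left _ _
  obtain ⟨c₀, hc₀, hL⟩ : ∃ c₀ : ℝ, 0 < c₀ ∧ Loc1 ρ β h c₀ := by
    have hg : 0 < Real.log (Phi h) + Real.log (∫ t, Real.exp (β * t) ∂ρ) - lam ρ β h := by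
      have : lam ρ β h < Real.log (Phi h) + Real.log (∫ t, Real.exp (β * t) ∂ρ) := hV
      linarith
    obtain ⟨c₀, hc₀, hc⟩ := Csy42.loc42 hd hρ β _ hg
    refine ⟨c₀, hc₀, fun n => ?_⟩
    exact hc h (by linarith) n
  obtain ⟨a, S, B, hB, hgro⟩ := h5 c₀ (2 * C) hc₀ (by linarith)
  by_cases hA : ∃ᶠ n : ℕ in atTop, ∀ m : ℕ, m ≤ n → C0 * Va ρ β h m ≤ En ρ β h n ^ 2
  · exact ⟨1, one_pos, Or.inl hA⟩
  rw [not_frequently] at hA
  obtain ⟨n0, hn0⟩ := eventually_atTop.1 hA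
  -- the maximal standard deviation
  obtain ⟨Fs, hFs⟩ : ∃ Fs : ℕ → ℝ, Fs = fun n => (Finset.range (n + 1)).sup'
    ⟨0, Finset.mem_range.2 (Nat.succ_pos n)⟩ (fun k => Real.sqrt (Va ρ β h k)) := ⟨_, rfl⟩
  have hle : ∀ n k : ℕ, k ≤ n → Real.sqrt (Va ρ β h k) ≤ Fs n := by
    intro n k hk
    rw [hFs]
    exact Finset.le_sup' (fun k => Real.sqrt (Va ρ β h k))
      (Finset.mem_range.2 (Nat.lt_succ_of_le hk))
  have hex : ∀ n : ℕ, ∃ m : ℕ, m ≤ n ∧ Fs n = Real.sqrt (Va ρ β h m) := by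
    intro n
    obtain ⟨m, hm, hm2⟩ := Finset.exists_mem_eq_sup' (s := Finset.range (n + 1))
      ⟨0, Finset.mem_range.2 (Nat.succ_pos n)⟩ (fun k => Real.sqrt (Va ρ β h k))
    refine ⟨m, Nat.lt_succ_iff.1 (Finset.mem_range.1 hm), ?_⟩
    rw [hFs]
    exact hm2
  have hFs0 : ∀ n, 0 ≤ Fs n := fun n =>
    (Real.sqrt_nonneg (Va ρ β h 0)).trans (hle n 0 (Nat.zero_le _))
  have hmono : ∀ a b : ℕ, a ≤ b → Fs a ≤ Fs b := by
    intro a b hab
    obtain ⟨m, hm, hm2⟩ := hex a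
    rw [hm2]
    exact hle b m (hm.trans hab)
  have hEn : ∀ n, n0 ≤ n → En ρ β h n ≤ C * Fs n := by
    intro n hn
    have h7 := hn0 n hn
    push Not at h7
    obtain ⟨m, hm, hm2⟩ := h7
    have h8 := hle n m hm
    have h9 := Real.sqrt_nonneg (Va ρ β h m)
    have h10 : Real.sqrt (Va ρ β h m) ^ 2 = Va ρ β h m := Real.sq_sqrt (Va_nonneg43 β h m)
    have h11 : En ρ β h n ^ 2 ≤ (C * Fs n) ^ 2 := by
      have h12 : C0 * Va ρ β h m ≤ C * Va ρ β h m :=
        mul_le_mul_of_nonneg_right hC0 (Va_nonneg43 β h m)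
      have h13 : C * Va ρ β h m ≤ C * Fs n ^ 2 := by
        refine mul_le_mul_of_nonneg_left ?_ (by linarith)
        rw [← h10]
        exact pow_le_pow_left₀ h9 h8 2
      have h14 : C * Fs n ^ 2 ≤ (C * Fs n) ^ 2 := by
        rw [mul_pow]
        refine mul_le_mul_of_nonneg_right ?_ (sq_nonneg _)
        nlinarith
      linarith
    exact (le_abs_self _).trans (abs_le_of_sq_le_sq h11 (mul_nonneg (by linarith) (hFs0 n)))
  obtain ⟨Bd, hBd⟩ : ∃ Bd : ℝ, ∀ k, k < n0 → En ρ β h k ≤ Bd := by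
    refine ⟨∑ k ∈ Finset.range n0, |En ρ β h k|, fun k hk => ?_⟩
    exact (le_abs_self _).trans (Finset.single_le_sum (f := fun k => |En ρ β h k|)
      (fun i _ => abs_nonneg _) (Finset.mem_range.2 hk))
  obtain ⟨n1, hn1a, hn1b⟩ : ∃ n1 : ℕ, 1 ≤ n1 ∧ max (max Bd 1) (Real.sqrt |S|) ≤ Fs n1 := by
    obtain ⟨n1, h7, h8⟩ := (((tendsto_atTop.1 (h6 h hV)) (max (max Bd 1) (Real.sqrt |S|))).and
      (eventually_ge_atTop 1)).exists
    exact ⟨n1, h8, h7.trans ((fn_le_sd43 hd hρ h n1).trans (hle n1 n1 le_rfl))⟩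
  have hstep : ∀ n, n1 ≤ n → ∃ (K : ℝ) (T : ℕ), 2 ≤ K ∧ K ≤ B * n ∧ n < T ∧
      (T : ℝ) ≤ n * K ^ (a + 1 + 1) ∧ K * Fs n ≤ Fs T := by
    intro n hn
    obtain ⟨m, hm, hm2⟩ := hex n
    have h7 : max (max Bd 1) (Real.sqrt |S|) ≤ Fs n := hn1b.trans (hmono _ _ hn)
    have h8 : 1 ≤ Fs n := (le_max_right _ _).trans ((le_max_left _ _).trans h7)
    have hS : S ≤ Va ρ β h m := by
      have h9 : Real.sqrt |S| ≤ Real.sqrt (Va ρ β h m) := by
        rw [← hm2]
        exact (le_max_right _ _).trans h7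
      have h10 := (Real.sqrt_le_sqrt_iff (Va_nonneg43 β h m)).1 h9
      exact (le_abs_self S).trans h10
    have hm1 : 1 ≤ m := by
      rcases Nat.eq_zero_or_pos m with h9 | h9
      · have hz : Va ρ β h 0 = 0 := by
          have h10 := Fn_zero43 (ρ := ρ) β h
          have h11 : ∀ η : Env d, X β h η 0 = X β h 0 0 := by
            intro η
            unfold X
            rw [Z_eq, Z_eq]
            congr 1
          have h12 : A ρ β h 0 = X β h 0 0 := by
            unfold A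
            simp only [h11]
            simp
          unfold Va
          simp only [h11, h12]
          simp
        rw [hm2, h9, hz, Real.sqrt_zero] at h8
        linarith
      · exact h9
    obtain ⟨K, hK2, hKB, hgr⟩ := hgro h hL m hm1 hS
    have hK0 : 0 < K := by linarith
    have hn0r : (1 : ℝ) ≤ n := by
      have : 1 ≤ n := hn1a.trans hn
      exact_mod_cast this
    have hKa : 1 ≤ K ^ a := one_le_pow₀ (by linarith)
    obtain ⟨T, hT⟩ : ∃ T : ℕ, T = ⌈n * K ^ a⌉₊ + 1 := ⟨_, rfl⟩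
    have hT1 : n * K ^ a ≤ T := by
      have := Nat.le_ceil (n * K ^ a)
      rw [hT]
      push_cast
      linarith
    have hT2 : (T : ℝ) ≤ n * K ^ (a + 1 + 1) := by
      have h9 := Nat.ceil_lt_add_one (a := n * K ^ a) (by positivity)
      have h10 : (T : ℝ) ≤ n * K ^ a + 2 := by
        rw [hT]
        push_cast
        linarith
      refine h10.trans ?_
      have h11 : 1 ≤ n * K ^ a := by nlinarith
      have h12 : n * K ^ (a + 1 + 1) = (n * K ^ a) * (K * K) := by ring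
      have h13 : 4 ≤ K * K := by nlinarith
      have h14 := mul_le_mul_of_nonneg_left h13 (by linarith : 0 ≤ n * K ^ a)
      rw [h12]
      linarith
    have hT3 : n < T := by
      have h9 : (n : ℝ) < T := by
        have h10 : (n : ℝ) ≤ n * K ^ a := by nlinarith
        have h11 := Nat.le_ceil (n * K ^ a)
        rw [hT]
        push_cast
        linarith
      exact_mod_cast h9
    refine ⟨K, T, hK2, hKB.trans (mul_le_mul_of_nonneg_left (by exact_mod_cast hm) (by linarith)),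
      hT3, hT2, ?_⟩
    have h9 := hgr T (C * Fs T) (by
      refine le_trans (mul_le_mul_of_nonneg_right ?_ (by positivity)) hT1
      exact_mod_cast hm) (fun k hk => by
        have h10 : Fs T ≤ C * Fs T := by
          have := hFs0 T
          nlinarith
        refine ⟨?_, (fn_le_sd43 hd hρ h k).trans ((hle T k hk).trans h10)⟩
        rcases lt_or_ge k n0 with h12 | h12
        · have h13 := hBd k h12
          have h14 : Bd ≤ Fs T := (le_max_left _ _).trans ((le_max_left _ _).trans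
            (h7.trans (hmono _ _ hT3.le)))
          linarith
        · exact (hEn k h12).trans (mul_le_mul_of_nonneg_left (hmono _ _ hk) (by linarith)))
    rw [← hm2] at h9
    -- `2 C K F ≤ C F' + 1`
    have h10 : 1 ≤ C * (K * Fs n) := by
      have : 1 ≤ K * Fs n := by nlinarith
      nlinarith
    have h11 : C * (K * Fs n) ≤ C * Fs T := by nlinarith
    exact le_of_mul_le_mul_left h11 (by linarith)
  obtain ⟨θ, hθ, hev⟩ := steps43 hmono hn1a
    ((le_max_right Bd 1).trans ((le_max_left _ _).trans hn1b)) hB hstep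
  refine ⟨θ, hθ, Or.inr ?_⟩
  filter_upwards [hev, eventually_ge_atTop 1] with n hn hn1
  obtain ⟨m, hm, hm2⟩ := hex n
  refine ⟨m, hm, ?_⟩
  rw [hm2] at hn
  have h7 : 1 ≤ (n : ℝ) ^ θ := by
    refine Real.one_le_rpow ?_ hθ.le
    exact_mod_cast hn1
  have h8 : Real.sqrt (Va ρ β h m) ^ 2 = Va ρ β h m := Real.sq_sqrt (Va_nonneg43 β h m)
  nlinarith

omit [IsProbabilityMeasure ρ] in
/-- The amplification under the Gaussian hypothesis gives the general form. -/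
theorem ampU43 (h3 : AmpP d ρ β) : AmpU ρ β d := by
  intro t ht
  obtain ⟨C, c, hC, hc, hamp⟩ := h3 t ht
  refine ⟨C + |Real.log c| / Real.log 2, by
    have : 0 ≤ |Real.log c| / Real.log 2 := div_nonneg (abs_nonneg _) (Real.log_nonneg (by norm_num))
    linarith, fun h m s₀ s₁ q hq hq2 hs _ hp0 hp1 => ?_⟩
  have hl2 : 0 < Real.log 2 := Real.log_pos (by norm_num)
  have hlq : 0 ≤ Real.log (1 / q) := by
    refine Real.log_nonneg ?_
    rw [le_div_iff₀ hq]
    linarith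
  have h4 : s₀ ≤ s₁ := by
    have h5 : 0 ≤ (C + |Real.log c| / Real.log 2) * (1 + Real.log (1 / q)) := by positivity
    linarith
  refine le_trans ?_ (hamp h m s₀ s₁ q hq h4 hp0 hp1)
  rw [Real.rpow_add hq, mul_comm]
  refine mul_le_mul_of_nonneg_right ?_ (Real.rpow_pos_of_pos hq _).le
  rw [Real.rpow_def_of_pos hq]
  have h5 : Real.log q ≤ -Real.log 2 := by
    have h6 := Real.log_le_log hq hq2
    rw [one_div, Real.log_inv] at h6
    exact h6
  have h6 : Real.log q * (|Real.log c| / Real.log 2) ≤ Real.log c := by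
    have h7 : Real.log q * (|Real.log c| / Real.log 2) ≤
        -Real.log 2 * (|Real.log c| / Real.log 2) :=
      mul_le_mul_of_nonneg_right h5 (by positivity)
    have h8 : -Real.log 2 * (|Real.log c| / Real.log 2) = -|Real.log c| := by
      field_simp
    have h9 := neg_abs_le (Real.log c)
    linarith
  calc Real.exp (Real.log q * (|Real.log c| / Real.log 2)) ≤ Real.exp (Real.log c) :=
        Real.exp_le_exp.2 h6
    _ = c := Real.exp_log hc

/-- **THEOREM UC with the variance**, over the amplification of the upper deviations. -/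
theorem mainVU43 (hd : 0 < d) (hρ : EM ρ) (hnc : ∀ c : ℝ, ρ {c} ≠ 1) (hβ : 0 < β)
    (hU : AmpU ρ β d) : MainV d ρ β :=
  mainV43 hd hρ (groS43 hd hρ (cnt79 hd hρ β) hU) (inf43 hd hρ hnc hβ)

/-- The clause in the letters of the problem. -/
theorem clauseVU43 {Ω : Type*} [MeasurableSpace Ω] {μ : Measure Ω} [IsProbabilityMeasure μ]
    {ω : ℕ × Site d → Ω → ℝ} (hd : 0 < d)
    (hω : IID μ ρ ω) (hρ : EM ρ) (hnc : ∀ c : ℝ, ρ {c} ≠ 1) (hβ : 0 < β) (hU : AmpU ρ β d) :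
    ∀ h : Vec d, lamN ρ β h < annN ρ β h → ∀ C : ℝ, ∃ θ : ℝ, 0 < θ ∧
      ((∃ᶠ n : ℕ in atTop, ∀ m : ℕ, m ≤ n →
        C * Var[fun x => Real.log (Zn β h (fun p => ω p x) m); μ] ≤
          (n * lamN ρ β h - ∫ x, Real.log (Zn β h (fun p => ω p x) n) ∂μ) ^ 2) ∨
        ∀ᶠ n : ℕ in atTop, ∃ m : ℕ, m ≤ n ∧ (n : ℝ) ^ θ ≤
          Var[fun x => Real.log (Zn β h (fun p => ω p x) m); μ]) := by
  intro h hh C
  simp only [var29 hd hω hρ, en19 hd hω hρ]
  exact mainVU43 hd hρ hnc hβ hU h ((vsd29 h).1 hh) C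

/-- The clause for the laws of the convex functions of a Gaussian variable. -/
theorem clauseVG43 {Ω : Type*} [MeasurableSpace Ω] {μ : Measure Ω} [IsProbabilityMeasure μ]
    {ω : ℕ × Site d → Ω → ℝ} (hd : 0 < d)
    (hω : IID μ ρ ω) (hρ : EM ρ) (hnc : ∀ c : ℝ, ρ {c} ≠ 1) (hβ : 0 < β) (hG : GC ρ) :
    ∀ h : Vec d, lamN ρ β h < annN ρ β h → ∀ C : ℝ, ∃ θ : ℝ, 0 < θ ∧
      ((∃ᶠ n : ℕ in atTop, ∀ m : ℕ, m ≤ n →
        C * Var[fun x => Real.log (Zn β h (fun p => ω p x) m); μ] ≤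
          (n * lamN ρ β h - ∫ x, Real.log (Zn β h (fun p => ω p x) n) ∂μ) ^ 2) ∨
        ∀ᶠ n : ℕ in atTop, ∃ m : ℕ, m ≤ n ∧ (n : ℝ) ^ θ ≤
          Var[fun x => Real.log (Zn β h (fun p => ω p x) m); μ]) :=
  clauseVU43 hd hω hρ hnc hβ (ampU43 (amp84 hd hG hβ.le))

end Pool.Agent.W_7d29a1_UC
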