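import Pool.Agent.W_7d29a1_AM.Wt64

/-!
The weight of a window.
-/

namespace Pool.Agent.W_7d29a1_AM

open MeasureTheory ProbabilityTheory Filter Topology

/-- The derivative of the window function. -/
noncomputable def xn (a b v : ℝ) : ℝ :=
  Real.exp (v / 2) * (Real.exp (-(a / 2)) - Real.exp (-(b / 2))) /
    ((1 + Real.exp ((v - a) / 2)) * (1 + Real.exp ((v - b) / 2)))

/-- The window function. -/
noncomputable def Wn (a b v : ℝ) : ℝ :=
  2 * Real.log (1 + Real.exp ((v - a) / 2)) - 2 * Real.log (1 + Real.exp ((v - b) / 2))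

/-- The weight of the window. -/
noncomputable def fW (l a b v : ℝ) : ℝ := Real.exp (l * Wn a b v)

lemma xn_eq (a b v : ℝ) : xn a b v =
    Real.exp ((v - a) / 2) / (1 + Real.exp ((v - a) / 2)) -
      Real.exp ((v - b) / 2) / (1 + Real.exp ((v - b) / 2)) := by
  unfold xn
  have h1 := Real.exp_pos ((v - a) / 2)
  have h2 := Real.exp_pos ((v - b) / 2)
  have h3 : Real.exp (v / 2) * (Real.exp (-(a / 2)) - Real.exp (-(b / 2))) =
      Real.exp ((v - a) / 2) - Real.exp ((v - b) / 2) := by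
    rw [mul_sub, ← Real.exp_add, ← Real.exp_add]
    congr 2 <;> ring
  rw [h3]
  field_simp
  ring

lemma xn0 {a b : ℝ} (h : a ≤ b) (v : ℝ) : 0 ≤ xn a b v := by
  unfold xn
  have h1 := Real.exp_pos ((v - a) / 2)
  have h2 := Real.exp_pos ((v - b) / 2)
  have h3 : Real.exp (-(b / 2)) ≤ Real.exp (-(a / 2)) := Real.exp_le_exp.2 (by linarith)
  exact div_nonneg (mul_nonneg (Real.exp_pos _).le (by linarith)) (by positivity)

lemma xn_le (a b v : ℝ) : xn a b v ≤ 1 / (1 + Real.exp ((v - b) / 2)) := by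
  rw [xn_eq]
  have h1 := Real.exp_pos ((v - a) / 2)
  have h2 := Real.exp_pos ((v - b) / 2)
  have h3 : Real.exp ((v - a) / 2) / (1 + Real.exp ((v - a) / 2)) ≤ 1 := by
    rw [div_le_one (by linarith)]; linarith
  have h4 : 1 - Real.exp ((v - b) / 2) / (1 + Real.exp ((v - b) / 2)) =
      1 / (1 + Real.exp ((v - b) / 2)) := by
    field_simp
    ring
  linarith

lemma xn1 (a b v : ℝ) : xn a b v ≤ 1 := by
  refine (xn_le a b v).trans ?_
  have h2 := Real.exp_pos ((v - b) / 2)
  rw [div_le_one (by linarith)]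
  linarith

lemma xn_up {a b : ℝ} (h : a ≤ b) {v v' : ℝ} (hv : v ≤ v') :
    xn a b v' ≤ Real.exp ((v' - v) / 2) * xn a b v := by
  unfold xn
  have h1 := Real.exp_pos ((v - a) / 2)
  have h2 := Real.exp_pos ((v - b) / 2)
  have h1' : Real.exp ((v - a) / 2) ≤ Real.exp ((v' - a) / 2) := Real.exp_le_exp.2 (by linarith)
  have h2' : Real.exp ((v - b) / 2) ≤ Real.exp ((v' - b) / 2) := Real.exp_le_exp.2 (by linarith)
  have h3 : Real.exp (-(b / 2)) ≤ Real.exp (-(a / 2)) := Real.exp_le_exp.2 (by linarith)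
  have h4 : Real.exp (v' / 2) = Real.exp ((v' - v) / 2) * Real.exp (v / 2) := by
    rw [← Real.exp_add]; congr 1; ring
  rw [← mul_div_assoc, h4, ← mul_assoc]
  refine div_le_div_of_nonneg_left (mul_nonneg (by positivity) (by linarith)) (by positivity) ?_
  exact mul_le_mul (by linarith) (by linarith) (by linarith) (by linarith)

lemma xn_dn {a b : ℝ} (h : a ≤ b) {v v' : ℝ} (hv : v ≤ v') :
    xn a b v ≤ Real.exp ((v' - v) / 2) * xn a b v' := by
  unfold xn
  have h1 := Real.exp_pos ((v - a) / 2)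
  have h2 := Real.exp_pos ((v - b) / 2)
  have h3 : Real.exp (-(b / 2)) ≤ Real.exp (-(a / 2)) := Real.exp_le_exp.2 (by linarith)
  obtain ⟨e, he⟩ : ∃ e, e = Real.exp ((v' - v) / 2) := ⟨_, rfl⟩
  have he1 : 1 ≤ e := by rw [he]; exact Real.one_le_exp (by linarith)
  have h4 : Real.exp (v' / 2) = e * Real.exp (v / 2) := by
    rw [he, ← Real.exp_add]; congr 1; ring
  have h5 : Real.exp ((v' - a) / 2) = e * Real.exp ((v - a) / 2) := by
    rw [he, ← Real.exp_add]; congr 1; ring
  have h6 : Real.exp ((v' - b) / 2) = e * Real.exp ((v - b) / 2) := by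
    rw [he, ← Real.exp_add]; congr 1; ring
  rw [← he, ← mul_div_assoc, h4, h5, h6, div_le_div_iff₀ (by positivity) (by positivity)]
  obtain ⟨A, hA⟩ : ∃ A, A = Real.exp ((v - a) / 2) := ⟨_, rfl⟩
  obtain ⟨B, hB⟩ : ∃ B, B = Real.exp ((v - b) / 2) := ⟨_, rfl⟩
  obtain ⟨g, hg⟩ : ∃ g, g = Real.exp (v / 2) * (Real.exp (-(a / 2)) - Real.exp (-(b / 2))) :=
    ⟨_, rfl⟩
  have hg0 : 0 ≤ g := by rw [hg]; exact mul_nonneg (Real.exp_pos _).le (by linarith)
  have hA0 : 0 < A := by rw [hA]; exact h1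
  have hB0 : 0 < B := by rw [hB]; exact h2
  have he0 : 0 < e := by linarith
  rw [← hA, ← hB]
  have h7 : (1 + e * A) * (1 + e * B) ≤ e * e * ((1 + A) * (1 + B)) := by
    have h8 : 1 + e * A ≤ e * (1 + A) := by linarith
    have h9 : 1 + e * B ≤ e * (1 + B) := by linarith
    calc (1 + e * A) * (1 + e * B) ≤ (e * (1 + A)) * (e * (1 + B)) :=
          mul_le_mul h8 h9 (by positivity) (by positivity)
      _ = _ := by ring
  have h8 := mul_le_mul_of_nonneg_left h7 hg0
  calc Real.exp (v / 2) * (Real.exp (-(a / 2)) - Real.exp (-(b / 2))) *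
        ((1 + e * A) * (1 + e * B)) = g * ((1 + e * A) * (1 + e * B)) := by rw [hg]
    _ ≤ g * (e * e * ((1 + A) * (1 + B))) := h8
    _ = _ := by rw [hg]; ring

lemma hasDerivAt_Wn (a b v : ℝ) : HasDerivAt (Wn a b) (xn a b v) v := by
  have h0 : ∀ c : ℝ, HasDerivAt (fun v : ℝ => 2 * Real.log (1 + Real.exp ((v - c) / 2)))
      (Real.exp ((v - c) / 2) / (1 + Real.exp ((v - c) / 2))) v := by
    intro c
    have h1 := Real.exp_pos ((v - c) / 2)
    have h2 : HasDerivAt (fun v : ℝ => (v - c) / 2) (1 / 2) v :=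
      ((hasDerivAt_id v).sub_const c).div_const 2
    have h3 : HasDerivAt (fun v : ℝ => 1 + Real.exp ((v - c) / 2))
        (Real.exp ((v - c) / 2) * (1 / 2)) v := h2.exp.const_add 1
    have h4 := (h3.log (by positivity)).const_mul 2
    have h5 : Real.exp ((v - c) / 2) / (1 + Real.exp ((v - c) / 2)) =
        2 * (Real.exp ((v - c) / 2) * (1 / 2) / (1 + Real.exp ((v - c) / 2))) := by ring
    rw [h5]
    exact h4
  rw [xn_eq]
  exact (h0 a).sub (h0 b)

lemma Wn_mvt {a b v v' : ℝ} (h : v < v') : ∃ z, v ≤ z ∧ z ≤ v' ∧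
    Wn a b v' - Wn a b v = xn a b z * (v' - v) := by
  obtain ⟨z, hz, h1⟩ := exists_hasDerivAt_eq_slope (Wn a b) (xn a b) h
    (fun z _ => (hasDerivAt_Wn a b z).continuousAt.continuousWithinAt)
    (fun z _ => hasDerivAt_Wn a b z)
  refine ⟨z, hz.1.le, hz.2.le, ?_⟩
  rw [h1, div_mul_cancel₀ _ (by linarith)]

lemma Wn_lo {a b : ℝ} (hab : a ≤ b) {v v' : ℝ} (h : v ≤ v') :
    xn a b v * (Real.exp (-((v' - v) / 2)) * (v' - v)) ≤ Wn a b v' - Wn a b v := by
  rcases h.eq_or_lt with rfl | h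
  · simp
  obtain ⟨z, hz1, hz2, h1⟩ := Wn_mvt (a := a) (b := b) h
  rw [h1]
  have h2 := xn_dn hab hz1
  have h3 : xn a b v * Real.exp (-((v' - v) / 2)) ≤ xn a b z := by
    have h4 : Real.exp (-((v' - v) / 2)) ≤ Real.exp (-((z - v) / 2)) :=
      Real.exp_le_exp.2 (by linarith)
    have h5 : Real.exp (-((z - v) / 2)) * Real.exp ((z - v) / 2) = 1 := by
      rw [← Real.exp_add]; simp
    calc xn a b v * Real.exp (-((v' - v) / 2)) ≤ xn a b v * Real.exp (-((z - v) / 2)) :=
          mul_le_mul_of_nonneg_left h4 (xn0 hab v)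
      _ ≤ Real.exp ((z - v) / 2) * xn a b z * Real.exp (-((z - v) / 2)) :=
          mul_le_mul_of_nonneg_right h2 (Real.exp_pos _).le
      _ = (Real.exp (-((z - v) / 2)) * Real.exp ((z - v) / 2)) * xn a b z := by ring
      _ = _ := by rw [h5, one_mul]
  calc _ = xn a b v * Real.exp (-((v' - v) / 2)) * (v' - v) := by ring
    _ ≤ _ := mul_le_mul_of_nonneg_right h3 (by linarith)

lemma Wn_up {a b : ℝ} (hab : a ≤ b) {v v' : ℝ} (h : v ≤ v') :
    Wn a b v' - Wn a b v ≤ xn a b v * (Real.exp ((v' - v) / 2) * (v' - v)) := by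
  rcases h.eq_or_lt with rfl | h
  · simp
  obtain ⟨z, hz1, hz2, h1⟩ := Wn_mvt (a := a) (b := b) h
  rw [h1]
  have h2 := xn_up hab hz1
  have h3 : xn a b z ≤ xn a b v * Real.exp ((v' - v) / 2) := by
    have h4 : Real.exp ((z - v) / 2) ≤ Real.exp ((v' - v) / 2) :=
      Real.exp_le_exp.2 (by linarith)
    have h5 := mul_le_mul_of_nonneg_right h4 (xn0 hab v)
    linarith
  calc _ ≤ xn a b v * Real.exp ((v' - v) / 2) * (v' - v) :=
        mul_le_mul_of_nonneg_right h3 (by linarith)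
    _ = _ := by ring

lemma Wn_mono {a b : ℝ} (hab : a ≤ b) {v v' : ℝ} (h : v ≤ v') : Wn a b v ≤ Wn a b v' := by
  have := Wn_lo hab h
  have h1 : 0 ≤ xn a b v * (Real.exp (-((v' - v) / 2)) * (v' - v)) :=
    mul_nonneg (xn0 hab v) (mul_nonneg (Real.exp_pos _).le (by linarith))
  linarith

lemma Wn_lip {a b : ℝ} {v v' : ℝ} (h : v ≤ v') : Wn a b v' - Wn a b v ≤ v' - v := by
  rcases h.eq_or_lt with rfl | h
  · simp
  obtain ⟨z, hz1, hz2, h1⟩ := Wn_mvt (a := a) (b := b) h
  rw [h1]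
  have := mul_le_mul_of_nonneg_right (xn1 a b z) (by linarith : 0 ≤ v' - v)
  linarith

lemma Wn0 {a b : ℝ} (hab : a ≤ b) (v : ℝ) : 0 ≤ Wn a b v := by
  unfold Wn
  have h1 := Real.exp_pos ((v - b) / 2)
  have h2 : Real.exp ((v - b) / 2) ≤ Real.exp ((v - a) / 2) := Real.exp_le_exp.2 (by linarith)
  have h3 := Real.log_le_log (by linarith) (by linarith :
    1 + Real.exp ((v - b) / 2) ≤ 1 + Real.exp ((v - a) / 2))
  linarith

lemma Wn_le {a b : ℝ} (hab : a ≤ b) (v : ℝ) : Wn a b v ≤ b - a := by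
  unfold Wn
  have h1 := Real.exp_pos ((v - b) / 2)
  have h0 := Real.exp_pos ((v - a) / 2)
  have h2 : Real.exp ((v - a) / 2) = Real.exp ((b - a) / 2) * Real.exp ((v - b) / 2) := by
    rw [← Real.exp_add]; congr 1; ring
  have h4 : 1 ≤ Real.exp ((b - a) / 2) := Real.one_le_exp (by linarith)
  have h5 : 1 + Real.exp ((v - a) / 2) ≤ Real.exp ((b - a) / 2) * (1 + Real.exp ((v - b) / 2)) := by
    rw [h2]; nlinarith
  have h3 := Real.log_le_log (by linarith) h5
  rw [Real.log_mul (by positivity) (by positivity), Real.log_exp] at h3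
  linarith

lemma xn_mul {a b : ℝ} (hb : 0 ≤ b) {v : ℝ} (hv : 0 ≤ v) : xn a b v * v ≤ b + 2 := by
  have h1 := mul_le_mul_of_nonneg_right (xn_le a b v) hv
  refine h1.trans ?_
  have h2 := Real.exp_pos ((v - b) / 2)
  rw [div_mul_eq_mul_div, one_mul, div_le_iff₀ (by linarith)]
  have h3 := Real.add_one_le_exp ((v - b) / 2)
  rcases le_total v b with h | h
  · nlinarith
  · nlinarith

lemma xn_half {a b v : ℝ} (h1 : a + 4 ≤ v) (h2 : v ≤ b - 4) : 1 / 2 ≤ xn a b v := by
  rw [xn_eq]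
  have h3 : (5 : ℝ) ≤ Real.exp ((v - a) / 2) := by
    have := Real.quadratic_le_exp_of_nonneg (by linarith : 0 ≤ (v - a) / 2)
    nlinarith
  have h4 : (5 : ℝ) ≤ Real.exp (-((v - b) / 2)) := by
    have := Real.quadratic_le_exp_of_nonneg (by linarith : 0 ≤ -((v - b) / 2))
    nlinarith
  have h5 : Real.exp ((v - b) / 2) * Real.exp (-((v - b) / 2)) = 1 := by
    rw [← Real.exp_add]; simp
  have h6 := Real.exp_pos ((v - b) / 2)
  have h7 : Real.exp ((v - b) / 2) ≤ 1 / 5 := by nlinarith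
  have h8 : 5 / 6 ≤ Real.exp ((v - a) / 2) / (1 + Real.exp ((v - a) / 2)) := by
    rw [div_le_div_iff₀ (by norm_num) (by linarith)]
    linarith
  have h9 : Real.exp ((v - b) / 2) / (1 + Real.exp ((v - b) / 2)) ≤ 1 / 6 := by
    rw [div_le_div_iff₀ (by linarith) (by norm_num)]
    linarith
  linarith

/-- The window weight. -/
theorem win43 {l a b : ℝ} (hl0 : 0 < l) (hl1 : l ≤ 1 / 2) (hab : a ≤ b) :
    Wt l 1 (fW l a b) (xn a b) := by
  have hf0 : ∀ v, 0 < fW l a b v := fun v => Real.exp_pos _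
  have hrat2 : ∀ v v', fW l a b v' ≤ Real.exp (|v' - v| / 2) * fW l a b v := by
    intro v v'
    unfold fW
    rw [← Real.exp_add]
    apply Real.exp_le_exp.mpr
    rcases le_total v v' with h | h
    · rw [abs_of_nonneg (by linarith)]
      have h1 := Wn_lip (a := a) (b := b) h
      have h2 : l * (Wn a b v' - Wn a b v) ≤ 1 / 2 * (Wn a b v' - Wn a b v) :=
        mul_le_mul_of_nonneg_right hl1 (by have := Wn_mono hab h; linarith)
      linarith
    · have h1 := mul_le_mul_of_nonneg_left (Wn_mono hab h) hl0.le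
      have h2 := abs_nonneg (v' - v)
      linarith
  have hxrat : ∀ v v', xn a b v' ≤ Real.exp (|v' - v| / 2) * xn a b v := by
    intro v v'
    rcases le_total v v' with h | h
    · rw [abs_of_nonneg (by linarith)]
      exact xn_up hab h
    · rw [abs_of_nonpos (by linarith), neg_sub]
      exact xn_dn hab h
  refine ⟨?_, ?_, hf0, xn0 hab, xn1 a b, ?_, ?_, ?_, ?_, ?_, ?_⟩
  · unfold fW Wn; fun_prop
  · unfold xn; fun_prop
  · refine ⟨Real.exp (l * (b - a)), fun v _ => ?_⟩
    exact Real.exp_le_exp.mpr (mul_le_mul_of_nonneg_left (Wn_le hab v) hl0.le)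
  · refine ⟨(b - a) * Real.exp (l * (b - a)), fun v hv => ?_⟩
    have h1 : Real.log (fW l a b v) = l * Wn a b v := by unfold fW; rw [Real.log_exp]
    have h3 := Wn0 hab v
    rw [h1, abs_mul, abs_of_pos (hf0 v), abs_of_nonneg (mul_nonneg hl0.le h3)]
    apply mul_le_mul _ _ (hf0 v).le (by linarith)
    · have h2 := Wn_le hab v
      nlinarith
    · exact Real.exp_le_exp.mpr (mul_le_mul_of_nonneg_left (Wn_le hab v) hl0.le)
  · -- lower
    intro v v' h
    have h1 := Wn_lo hab h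
    have h2 : fW l a b v' = Real.exp (l * (Wn a b v' - Wn a b v)) * fW l a b v := by
      unfold fW; rw [← Real.exp_add]; congr 1; ring
    have h3 : l * (Wn a b v' - Wn a b v) + 1 ≤ Real.exp (l * (Wn a b v' - Wn a b v)) :=
      Real.add_one_le_exp _
    have h4 := mul_le_mul_of_nonneg_left h1 hl0.le
    have h10 : Real.exp (-(v' - v)) ≤ Real.exp (-((v' - v) / 2)) :=
      Real.exp_le_exp.2 (by linarith)
    have h11 : l * (xn a b v * (Real.exp (-(v' - v)) * (v' - v))) ≤
        l * (xn a b v * (Real.exp (-((v' - v) / 2)) * (v' - v))) :=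
      mul_le_mul_of_nonneg_left (mul_le_mul_of_nonneg_left
        (mul_le_mul_of_nonneg_right h10 (by linarith)) (xn0 hab v)) hl0.le
    have h5 : l * (xn a b v * (Real.exp (-(v' - v)) * (v' - v))) ≤
        Real.exp (l * (Wn a b v' - Wn a b v)) - 1 := by linarith
    have h6 := mul_le_mul_of_nonneg_right h5 (hf0 v).le
    rw [h2]
    calc l * Real.exp (-(v' - v)) * (v' - v) * (xn a b v * fW l a b v)
        = l * (xn a b v * (Real.exp (-(v' - v)) * (v' - v))) * fW l a b v := by ring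
      _ ≤ _ := by linarith
  · -- upper
    intro v v' h
    have h1 := Wn_up hab h
    have h2 : fW l a b v' = Real.exp (l * (Wn a b v' - Wn a b v)) * fW l a b v := by
      unfold fW; rw [← Real.exp_add]; congr 1; ring
    have hU0 : 0 ≤ Wn a b v' - Wn a b v := by have := Wn_mono hab h; linarith
    have h3 : Real.exp (l * (Wn a b v' - Wn a b v)) - 1 ≤
        l * (Wn a b v' - Wn a b v) * Real.exp (l * (Wn a b v' - Wn a b v)) := W0_exp_up
    have h4 : Real.exp (l * (Wn a b v' - Wn a b v)) ≤ Real.exp ((v' - v) / 2) := by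
      apply Real.exp_le_exp.mpr
      have := Wn_lip (a := a) (b := b) h
      have h7 : l * (Wn a b v' - Wn a b v) ≤ 1 / 2 * (Wn a b v' - Wn a b v) :=
        mul_le_mul_of_nonneg_right hl1 hU0
      linarith
    have h5 : l * (Wn a b v' - Wn a b v) * Real.exp (l * (Wn a b v' - Wn a b v)) ≤
        l * (xn a b v * (Real.exp ((v' - v) / 2) * (v' - v))) * Real.exp ((v' - v) / 2) := by
      apply mul_le_mul _ h4 (Real.exp_pos _).le
      · exact mul_nonneg hl0.le (mul_nonneg (xn0 hab v) (mul_nonneg (Real.exp_pos _).le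
          (by linarith)))
      · exact mul_le_mul_of_nonneg_left h1 hl0.le
    have h8 : Real.exp ((v' - v) / 2) * Real.exp ((v' - v) / 2) = Real.exp (v' - v) := by
      rw [← Real.exp_add]; congr 1; ring
    have h6 := mul_le_mul_of_nonneg_right (h3.trans h5) (hf0 v).le
    rw [h2]
    calc 1 * (Real.exp (l * (Wn a b v' - Wn a b v)) * fW l a b v - fW l a b v)
        = (Real.exp (l * (Wn a b v' - Wn a b v)) - 1) * fW l a b v := by ring
      _ ≤ _ := h6
      _ = l * (Real.exp ((v' - v) / 2) * Real.exp ((v' - v) / 2)) * (v' - v) *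
          (xn a b v * fW l a b v) := by ring
      _ = _ := by rw [h8]
  · -- ratio
    intro v v'
    have h8 : Real.exp (|v' - v| / 2) * Real.exp (|v' - v| / 2) = Real.exp |v' - v| := by
      rw [← Real.exp_add]; congr 1; ring
    calc xn a b v' * fW l a b v' ≤ (Real.exp (|v' - v| / 2) * xn a b v) *
          (Real.exp (|v' - v| / 2) * fW l a b v) :=
          mul_le_mul (hxrat v v') (hrat2 v v') (hf0 v').le
            (mul_nonneg (Real.exp_pos _).le (xn0 hab v))
      _ = (Real.exp (|v' - v| / 2) * Real.exp (|v' - v| / 2)) * (xn a b v * fW l a b v) := by ring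
      _ = _ := by rw [h8]
  · intro v v'
    refine (hrat2 v v').trans (mul_le_mul_of_nonneg_right ?_ (hf0 v).le)
    exact Real.exp_le_exp.2 (by have := abs_nonneg (v' - v); linarith)

end Pool.Agent.W_7d29a1_AM
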